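import Mathlib
import Pool.Agent.Lib_helper28.GL.Defs
import Pool.Agent.Lib_helper42.RS.Final

/-!
# Every witness value is attained

For each value `v` with `W G b v` there is a set `B` of size `b` with `v ≤ F(B)`.
-/

set_option autoImplicit false
set_option linter.unusedSectionVars false

namespace Pool.Agent.SCH

open Finset Pool.Agent.GL Pool.Agent.Lib_helper42.RS

universe u

section
variable {G : Type u} [AddCommGroup G] [Fintype G] [DecidableEq G]
variable {Q : Type u} [AddCommGroup Q] [Fintype Q] [DecidableEq Q]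
variable {d : Q} {j : ℕ}

lemma FF_eq_dlS (B : Finset G) : FF B = dlS B := by
  rw [dlS_eq_schur]; rfl

lemma att_card_apE (ht : 3 * j + 1 ≤ addOrderOf d) : ((apE d j).card : ℤ) = 2 * j + 1 := by
  unfold apE
  rw [Finset.card_image_of_injOn]
  · rw [Int.card_Icc]
    rw [Int.toNat_of_nonneg (by omega)]; ring
  · intro a ha b hb hab
    rw [Finset.coe_Icc, Set.mem_Icc] at ha hb
    refine smul_inj ht ?_ hab
    rw [abs_lt]; push_cast; constructor <;> omega

lemma att_schur_apE (ht : 3 * j + 1 ≤ addOrderOf d) :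
    3 * (j:ℤ)^2 + 3 * j + 1 ≤ schur (apE d j) := by
  rw [schur_eq_sum]
  have hinj : Set.InjOn (fun i : ℤ => i • d) (Finset.Icc (-(j:ℤ)) j) := by
    intro a ha b hb hab
    rw [Finset.coe_Icc, Set.mem_Icc] at ha hb
    refine smul_inj ht ?_ hab
    rw [abs_lt]; push_cast; constructor <;> omega
  have h1 : ∑ x ∈ apE d j, ∑ y ∈ apE d j, ind (apE d j) (x + y) =
      ∑ a ∈ Finset.Icc (-(j:ℤ)) j, ∑ b ∈ Finset.Icc (-(j:ℤ)) j,
        ind (apE d j) (a • d + b • d) := by
    conv_lhs => unfold apE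
    rw [Finset.sum_image hinj]
    refine Finset.sum_congr rfl fun a _ => ?_
    rw [Finset.sum_image hinj]
    rfl
  rw [h1]
  have h2 : ∀ a ∈ Finset.Icc (-(j:ℤ)) j, 2 * (j:ℤ) + 1 - |a| ≤
      ∑ b ∈ Finset.Icc (-(j:ℤ)) j, ind (apE d j) (a • d + b • d) := by
    intro a ha
    rw [Finset.mem_Icc] at ha
    have h3 : ∑ b ∈ Finset.Icc (max (-(j:ℤ)) (-(j:ℤ) - a)) (min (j:ℤ) (j - a)), (1:ℤ) ≤
        ∑ b ∈ Finset.Icc (-(j:ℤ)) j, ind (apE d j) (a • d + b • d) := by
      refine le_trans (Finset.sum_le_sum (g := fun b => ind (apE d j) (a • d + b • d)) ?_)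
        (Finset.sum_le_sum_of_subset_of_nonneg ?_ (fun _ _ _ => ind_nonneg _ _))
      · intro b hb
        rw [Finset.mem_Icc] at hb
        have : a • d + b • d ∈ apE d j := by
          rw [mem_apE]
          refine ⟨a + b, ?_, ?_, add_smul _ _ _⟩ <;> omega
        rw [ind_mem this]
      · intro b hb
        rw [Finset.mem_Icc] at hb ⊢
        omega
    refine le_trans ?_ h3
    rw [Finset.sum_const, Int.card_Icc, nsmul_eq_mul, mul_one]
    rcases abs_cases a with ⟨h, _⟩ | ⟨h, _⟩ <;> rw [h] <;> omega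
  refine le_trans ?_ (Finset.sum_le_sum h2)
  rw [Finset.sum_sub_distrib, sum_abs, Finset.sum_const, Int.card_Icc, nsmul_eq_mul]
  rw [Int.toNat_of_nonneg (by omega)]
  apply le_of_eq; ring

lemma att_dlS_apE (ht : 3 * j + 1 ≤ addOrderOf d) : 1 ≤ dlS (apE d j) := by
  rw [dlS_eq_schur, att_card_apE ht]
  have := att_schur_apE ht
  linarith

lemma att_WW_apE_in (ht : 3 * j + 1 ≤ addOrderOf d) : WW (apE d j) ((j:ℤ) • d) ≤ 6 := by
  unfold WW
  rw [linA_eq, linC_eq, att_card_apE ht, cor_eq_card, cor_eq_card]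
  have c1 : ((apE d j).filter (fun β => -((j:ℤ) • d + β) ∈ ng (apE d j))).card ≤ j + 1 := by
    have : (Finset.Icc (-(j:ℤ)) 0).card = j + 1 := by
      rw [Int.card_Icc]; omega
    rw [← this]
    have hsub : (apE d j).filter (fun β => -((j:ℤ) • d + β) ∈ ng (apE d j)) ⊆
        (Finset.Icc (-(j:ℤ)) 0).image (fun i : ℤ => i • d) := by
      intro x hx
      rw [Finset.mem_filter, mem_apE, mem_ng, neg_neg, mem_apE] at hx
      obtain ⟨⟨i, h1, h2, rfl⟩, ⟨i', h3, h4, h5⟩⟩ := hx
      rw [← add_smul] at h5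
      have h6 : i' = j + i := by
        refine smul_inj ht ?_ h5
        rw [abs_lt]; push_cast; constructor <;> omega
      rw [Finset.mem_image]
      exact ⟨i, Finset.mem_Icc.mpr ⟨h1, by omega⟩, rfl⟩
    exact (Finset.card_le_card hsub).trans Finset.card_image_le
  have c2 : ((apE d j).filter (fun β => -(-((j:ℤ) • d) + β) ∈ apE d j)).card ≤ j + 1 := by
    have : (Finset.Icc (0:ℤ) j).card = j + 1 := by
      rw [Int.card_Icc]; omega
    rw [← this]
    have hsub : (apE d j).filter (fun β => -(-((j:ℤ) • d) + β) ∈ apE d j) ⊆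
        (Finset.Icc (0:ℤ) j).image (fun i : ℤ => i • d) := by
      intro x hx
      rw [Finset.mem_filter, mem_apE, mem_apE] at hx
      obtain ⟨⟨i, h1, h2, rfl⟩, ⟨i', h3, h4, h5⟩⟩ := hx
      have h5' : i' • d = ((j:ℤ) - i) • d := by rw [h5, sub_smul]; abel
      have h6 : i' = j - i := by
        refine smul_inj ht ?_ h5'
        rw [abs_lt]; push_cast; constructor <;> omega
      rw [Finset.mem_image]
      exact ⟨i, Finset.mem_Icc.mpr ⟨by omega, h2⟩, rfl⟩
    exact (Finset.card_le_card hsub).trans Finset.card_image_le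
  have c1' : (((apE d j).filter
      (fun β => -((j:ℤ) • d + β) ∈ ng (apE d j))).card : ℤ) ≤ j + 1 := by exact_mod_cast c1
  have c2' : (((apE d j).filter
      (fun β => -(-((j:ℤ) • d) + β) ∈ apE d j)).card : ℤ) ≤ j + 1 := by exact_mod_cast c2
  linarith

/-- progression of cosets minus a part of the last coset, `3 j + 1` -/
theorem att_constr_sub (φ : G →+ Q) (hφ : Function.Surjective φ) (hj : 1 ≤ j)
    (ht : 3 * j + 1 ≤ addOrderOf d) {s : ℕ} (hs : s ≤ Nat.card φ.ker) :
    ∃ B : Finset G, B.card + s = (2 * j + 1) * Nat.card φ.ker ∧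
      ((Nat.card φ.ker : ℤ) - s) * (Nat.card φ.ker - 5 * s) ≤ dlS B := by
  obtain ⟨D, hD, hDs⟩ := exists_subset_fib φ hφ ((j:ℤ) • d) hs
  set h : ℕ := Nat.card φ.ker with hh
  have hφD : ∀ x ∈ D, φ x = (j:ℤ) • d := fun x hx => mem_fib.mp (hD hx)
  have hin : (j:ℤ) • d ∈ apE d j := by
    rw [mem_apE]; exact ⟨j, by omega, le_rfl, rfl⟩
  have hsub : D ⊆ lft φ (apE d j) := by
    intro x hx
    rw [mem_lft, hφD x hx]; exact hin
  refine ⟨lft φ (apE d j) \ D, ?_, ?_⟩
  · have h1 : (((lft φ (apE d j) \ D).card : ℕ) : ℤ) + s = (2 * j + 1) * h := by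
      have h2 := Finset.card_sdiff_add_card_eq_card hsub
      have h3 : (((lft φ (apE d j) \ D).card : ℕ) : ℤ) + D.card = (lft φ (apE d j)).card := by
        exact_mod_cast h2
      rw [card_lft φ hφ, att_card_apE ht, hDs] at h3
      rw [h3]; ring
    exact_mod_cast h1
  · rw [exact_subG φ hφ (apE d j) D hsub, hDs, ← hh]
    have z0 : (0:Q) ∈ apE d j := by rw [mem_apE]; exact ⟨0, by omega, by omega, zero_smul _ _⟩
    have s0 : ∑ x ∈ D, WW (apE d j) (φ x) = (s:ℤ) * WW (apE d j) ((j:ℤ) • d) := by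
      rw [Finset.sum_congr rfl (fun x hx => by rw [hφD x hx]), Finset.sum_const, hDs]; simp
    have s1 : -(s:ℤ)^2 ≤ ∑ x ∈ D, ∑ y ∈ D, tau (lft φ (apE d j)) (x + y) := by
      have : ∑ x ∈ D, ∑ y ∈ D, (-1:ℤ) ≤ ∑ x ∈ D, ∑ y ∈ D, tau (lft φ (apE d j)) (x + y) :=
        Finset.sum_le_sum fun x _ => Finset.sum_le_sum fun y _ => by
          unfold tau; have := ind_nonneg (lft φ (apE d j)) (x + y); linarith
      refine le_trans (le_of_eq ?_) this
      simp [hDs]; ring
    have s2 : ∑ x ∈ D, ∑ y ∈ D, tau (lft φ (apE d j)) (x - y) = (s:ℤ)^2 := by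
      rw [Finset.sum_congr rfl (fun x hx => Finset.sum_congr rfl (fun y hy => by
        rw [tau_mem (show x - y ∈ lft φ (apE d j) by
          rw [mem_lft, map_sub, hφD x hx, hφD y hy, sub_self]; exact z0)]))]
      simp [hDs]; ring
    have s3 : ∑ x ∈ D, ∑ y ∈ D, ind D (x + y) = 0 := by
      refine Finset.sum_eq_zero fun x hx => Finset.sum_eq_zero fun y hy => ?_
      apply ind_not_mem
      intro hxy
      have h1 := hφD _ hxy
      rw [map_add, hφD x hx, hφD y hy] at h1
      have h2 : (j:ℤ) • d = (0:ℤ) • d := by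
        rw [zero_smul]; simpa using h1
      have := smul_inj ht (by rw [abs_lt]; push_cast; constructor <;> omega) h2
      omega
    have w := att_WW_apE_in ht
    have dd := att_dlS_apE ht
    rw [s0, s2, s3]
    have hh0 : (0:ℤ) ≤ h := by positivity
    have hs0 : (0:ℤ) ≤ s := by positivity
    have p1 : (h:ℤ)^2 * 1 ≤ h^2 * dlS (apE d j) := mul_le_mul_of_nonneg_left dd (by positivity)
    have p2 : (h:ℤ) * (s * WW (apE d j) ((j:ℤ) • d)) ≤ h * (s * 6) :=
      mul_le_mul_of_nonneg_left (mul_le_mul_of_nonneg_left w hs0) hh0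
    nlinarith

end

section
variable {G : Type u} [AddCommGroup G] [Fintype G] [DecidableEq G]

lemma alive_order {H : AddSubgroup G} {t : ℕ} (h : Alive H t) :
    ∃ d : G ⧸ H, t ≤ addOrderOf d := by
  obtain ⟨g, hg⟩ := h
  refine ⟨(g : G ⧸ H), ?_⟩
  by_contra hc
  push Not at hc
  have h0 : 0 < addOrderOf (g : G ⧸ H) := addOrderOf_pos _
  apply hg _ h0 hc
  rw [← QuotientAddGroup.eq_zero_iff]
  have := addOrderOf_nsmul_eq_zero (g : G ⧸ H)
  exact_mod_cast this

lemma card_cos_zero (K : AddSubgroup G) : (cos K (0:G)).card = Nat.card K := by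
  classical
  rw [← SetLike.coe_sort_coe, Nat.card_coe_set_eq, Set.ncard_eq_toFinset_card']
  congr 1
  ext x
  simp [mem_cos]

lemma schur_le_sq (Z : Finset G) : (schur Z : ℤ) ≤ (Z.card : ℤ)^2 := by
  unfold schur
  have : ((Z ×ˢ Z).filter (fun p => p.1 + p.2 ∈ Z)).card ≤ Z.card * Z.card := by
    rw [← Finset.card_product]; exact Finset.card_filter_le _ _
  calc ((((Z ×ˢ Z).filter (fun p => p.1 + p.2 ∈ Z)).card : ℕ) : ℤ) ≤ ((Z.card * Z.card : ℕ) : ℤ) := by
        exact_mod_cast this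
    _ = (Z.card : ℤ)^2 := by push_cast; ring

/-- **attainment** -/
theorem attain_W {b : ℕ} {v : ℤ} (h : W G b v) : ∃ B : Finset G, B.card = b ∧ v ≤ FF B := by
  classical
  rcases h with ⟨K, S, hSK, hSF, hc, hv⟩ | ⟨H, j, s, hs, hv, h⟩
  · have hsub : S ⊆ cos K 0 := by
      intro x hx; rw [mem_cos, sub_zero]; exact hSK x hx
    refine ⟨cos K 0 \ S, ?_, ?_⟩
    · rw [Finset.card_sdiff_of_subset hsub, card_cos_zero]; omega
    · rw [FF_eq_dlS, dlS_subgroup K S hSK, hv]
      have h0 : schur S = 0 := by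
        unfold schur
        rw [Finset.card_eq_zero, Finset.filter_eq_empty_iff]
        rintro ⟨x, y⟩ hxy
        rw [Finset.mem_product] at hxy
        exact hSF x hxy.1 y hxy.2
      have hc' : (S.card : ℤ) + b = Nat.card K := by exact_mod_cast hc
      rw [h0]
      have : (S.card : ℤ) = Nat.card K - b := by linarith
      rw [this]
      apply le_of_eq; push_cast; ring
  · let _ : Fintype (G ⧸ H) := Fintype.ofFinite _
    have hker : (QuotientAddGroup.mk' H).ker = H := QuotientAddGroup.ker_mk' H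
    have hsurj : Function.Surjective (QuotientAddGroup.mk' H) := QuotientAddGroup.mk'_surjective H
    rcases h with ⟨hb, ha⟩ | ⟨hb, ha⟩
    · rcases Nat.eq_zero_or_pos j with rfl | hj
      · obtain ⟨Z, hZ, hZs⟩ := Finset.exists_subset_card_eq (s := cos H (0:G)) (n := s)
          (by rw [card_cos_zero]; exact hs)
        refine ⟨cos H 0 \ Z, ?_, ?_⟩
        · rw [Finset.card_sdiff_of_subset hZ, card_cos_zero]; omega
        · have hZH : ∀ x ∈ Z, x ∈ H := by
            intro x hx; have := hZ hx; rwa [mem_cos, sub_zero] at this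
          rw [FF_eq_dlS, dlS_subgroup H Z hZH, hv, hZs]
          have := schur_le_sq Z
          rw [hZs] at this
          nlinarith
      · obtain ⟨d, hd⟩ := alive_order ha
        obtain ⟨B, hB, hB2⟩ := att_constr_sub (QuotientAddGroup.mk' H) hsurj hj hd (s := s)
          (by rw [hker]; exact hs)
        rw [hker] at hB hB2
        refine ⟨B, by omega, ?_⟩
        rw [FF_eq_dlS, hv]; exact hB2
    · obtain ⟨d, hd⟩ := alive_order ha
      obtain ⟨B, hB, hB2⟩ := constr_add (QuotientAddGroup.mk' H) hsurj hd (s := s)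
        (by rw [hker]; exact hs)
      rw [hker] at hB hB2
      refine ⟨B, by omega, ?_⟩
      rw [FF_eq_dlS, hv]; exact hB2

end

end Pool.Agent.SCH
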