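import Mathlib
import Pool.Agent.Lib_helper26.SCH.Att

/-!
# The final theorem from the main upper bound
-/

set_option autoImplicit false
set_option linter.unusedSectionVars false

namespace Pool.Agent.SCH

open Finset Pool.Agent.GL Pool.Agent.Lib_helper42.RS

universe u

/-- the main upper bound, for one group -/
def Main (G : Type u) [AddCommGroup G] [DecidableEq G] : Prop :=
  ∀ B : Finset G, Bd G B.card (FF B)

section
variable {G : Type u} [AddCommGroup G] [Fintype G] [DecidableEq G]

/-- complement identity in terms of `FF` -/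
lemma four_schur_compl (B : Finset G) :
    4 * (schur Bᶜ : ℤ) = (3 * ((Bᶜ).card : ℤ) - Fintype.card G)^2 - FF B := by
  have := schur_compl B
  rw [← FF_eq_dlS] at this
  linarith

theorem final (hmain : Main G) {m : ℕ} (hm : m ≤ Fintype.card G) :
    IsGreatest {v : ℤ | W G (Fintype.card G - m) v}
      ((3 * (m:ℤ) - Fintype.card G)^2 - 4 * minSchur G m) := by
  obtain ⟨A, hA1, hA2⟩ := minSchur_spec G hm
  have hAc : (Aᶜ).card = Fintype.card G - m := by rw [Finset.card_compl, hA1]
  have e1 := four_schur_compl Aᶜ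
  rw [compl_compl, hA1, hA2] at e1
  have key : ∀ v, W G (Fintype.card G - m) v →
      v ≤ (3 * (m:ℤ) - Fintype.card G)^2 - 4 * minSchur G m := by
    intro v hv
    obtain ⟨B, hB1, hB2⟩ := attain_W hv
    have hc : (Bᶜ).card = m := by rw [Finset.card_compl, hB1]; omega
    have e2 := four_schur_compl B
    rw [hc] at e2
    have e3 : (minSchur G m : ℤ) ≤ schur Bᶜ := by exact_mod_cast minSchur_le Bᶜ hc
    linarith
  refine ⟨?_, fun v hv => key v hv⟩
  obtain ⟨v, hv, hle⟩ := hmain Aᶜ
  rw [hAc] at hv
  have h2 := key v hv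
  have : v = (3 * (m:ℤ) - Fintype.card G)^2 - 4 * minSchur G m := le_antisymm h2 (by linarith)
  show W G _ _
  rw [← this]; exact hv

end

end Pool.Agent.SCH
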