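import Mathlib
import Pool.Agent.Lib_helper26.SCH.Fin

/-!
# Skeleton: the function `f_G`, strong induction, the maximiser
-/

set_option autoImplicit false
set_option linter.unusedSectionVars false

namespace Pool.Agent.SCH

open Finset Pool.Agent.GL Pool.Agent.Lib_helper42.RS

universe u

/-- `f_G(b)`, the largest witness value -/
noncomputable def fG (G : Type u) [AddCommGroup G] (b : ℕ) : ℤ := sSup {v : ℤ | W G b v}

section
variable {G : Type u} [AddCommGroup G] [Fintype G] [DecidableEq G]

lemma W_top {b : ℕ} (hb : b ≤ Fintype.card G) :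
    W G b ((b:ℤ) * (5 * b - 4 * Fintype.card G)) := by
  refine Or.inr ⟨⊤, 0, Fintype.card G - b, ?_, ?_, Or.inl ⟨?_, 0, ?_⟩⟩
  · rw [AddSubgroup.card_top, Nat.card_eq_fintype_card]; omega
  · rw [AddSubgroup.card_top, Nat.card_eq_fintype_card]
    push_cast [Nat.cast_sub hb]; ring
  · rw [AddSubgroup.card_top, Nat.card_eq_fintype_card]; omega
  · intro i h1 h2; omega

lemma FF_le_sq (B : Finset G) : FF B ≤ (B.card : ℤ)^2 := by
  rw [FF_eq_dlS, dlS_eq_schur]
  have := schur_le_sq B
  linarith

lemma W_bdd (b : ℕ) : BddAbove {v : ℤ | W G b v} := by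
  refine ⟨(b:ℤ)^2, ?_⟩
  intro v hv
  obtain ⟨B, hB1, hB2⟩ := attain_W (G := G) hv
  have := FF_le_sq B
  rw [hB1] at this
  linarith

lemma W_nonempty {b : ℕ} (hb : b ≤ Fintype.card G) : {v : ℤ | W G b v}.Nonempty :=
  ⟨_, W_top hb⟩

lemma W_fG {b : ℕ} (hb : b ≤ Fintype.card G) : W G b (fG G b) :=
  Int.csSup_mem (W_nonempty hb) (W_bdd b)

lemma le_fG {b : ℕ} {v : ℤ} (hv : W G b v) : v ≤ fG G b := le_csSup (W_bdd b) hv

lemma Bd_iff {b : ℕ} (hb : b ≤ Fintype.card G) (F : ℤ) : Bd G b F ↔ F ≤ fG G b := by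
  constructor
  · rintro ⟨v, hv, hF⟩; exact hF.trans (le_fG hv)
  · intro h; exact ⟨_, W_fG hb, h⟩

lemma Bd_card_iff (B : Finset G) (F : ℤ) : Bd G B.card F ↔ F ≤ fG G B.card :=
  Bd_iff (Finset.card_le_univ B) F

/-- `f_G(b)` is the value of `FF` at some set of size `b` or less than that -/
lemma exists_ge_fG {b : ℕ} (hb : b ≤ Fintype.card G) :
    ∃ B : Finset G, B.card = b ∧ fG G b ≤ FF B := attain_W (W_fG hb)

lemma fG_le_sq {b : ℕ} (hb : b ≤ Fintype.card G) : fG G b ≤ (b:ℤ)^2 := by
  obtain ⟨B, h1, h2⟩ := exists_ge_fG (G := G) hb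
  have := FF_le_sq B
  rw [h1] at this
  linarith

/-- a set with maximal excess -/
def IsMaxi (B : Finset G) : Prop :=
  ∀ B' : Finset G, FF B' - fG G B'.card ≤ FF B - fG G B.card

lemma exists_maxi : ∃ B : Finset G, IsMaxi B := by
  obtain ⟨B, _, hB⟩ := Finset.exists_max_image (univ : Finset (Finset G))
    (fun B => FF B - fG G B.card) ⟨∅, mem_univ _⟩
  exact ⟨B, fun B' => hB B' (mem_univ _)⟩

/-- if `Main G` fails there is a set with maximal and positive excess -/
lemma main_of_maxi (h : ∀ B : Finset G, IsMaxi B → fG G B.card < FF B → False) : Main G := by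
  obtain ⟨B, hB⟩ := exists_maxi (G := G)
  have h0 : FF B ≤ fG G B.card := by
    by_contra hc
    exact h B hB (not_le.mp hc)
  intro B'
  rw [Bd_card_iff]
  have := hB B'
  linarith

end

/-- strong induction on the order of the group -/
theorem main_all
    (step : ∀ (G : Type u) [AddCommGroup G] [Fintype G] [DecidableEq G],
      (∀ M : AddSubgroup G, M ≠ ⊤ → Main M) → Main G) :
    ∀ (G : Type u) [AddCommGroup G] [Fintype G] [DecidableEq G], Main G := by
  have key : ∀ n : ℕ, ∀ (G : Type u) [AddCommGroup G] [Fintype G] [DecidableEq G],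
      Fintype.card G = n → Main G := by
    intro n
    induction n using Nat.strong_induction_on with
    | _ n ih =>
      intro G _ _ _ hn
      refine step G ?_
      intro M hM
      have : Fintype M := Fintype.ofFinite M
      refine ih (Fintype.card M) ?_ M rfl
      rw [← hn, ← Nat.card_eq_fintype_card, ← Nat.card_eq_fintype_card]
      exact lt_of_le_of_ne (Nat.le_of_dvd Nat.card_pos (AddSubgroup.card_addSubgroup_dvd_card M))
        (fun h => hM (AddSubgroup.eq_top_of_card_eq M h))
  intro G _ _ _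
  exact key _ G rfl

/-- strong induction on the order of the group, all smaller groups -/
theorem main_all'
    (step : ∀ (G : Type u) [AddCommGroup G] [Fintype G] [DecidableEq G],
      (∀ (Q : Type u) [AddCommGroup Q] [Fintype Q] [DecidableEq Q],
        Fintype.card Q < Fintype.card G → Main Q) → Main G) :
    ∀ (G : Type u) [AddCommGroup G] [Fintype G] [DecidableEq G], Main G := by
  have key : ∀ n : ℕ, ∀ (G : Type u) [AddCommGroup G] [Fintype G] [DecidableEq G],
      Fintype.card G = n → Main G := by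
    intro n
    induction n using Nat.strong_induction_on with
    | _ n ih =>
      intro G _ _ _ hn
      refine step G ?_
      intro Q _ _ _ hQ
      exact ih (Fintype.card Q) (by rw [← hn]; exact hQ) Q rfl
  intro G _ _ _
  exact key _ G rfl

end Pool.Agent.SCH
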