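import Mathlib
import Pool.Agent.Lib_helper26.SCH.Skel
import Pool.Agent.Lib_helper28.GL.Wit

/-!
# The trivial regime and the groups of exponent three
-/

set_option autoImplicit false
set_option linter.unusedSectionVars false

namespace Pool.Agent.SCH

open Finset Pool.Agent.GL Pool.Agent.Lib_helper42.RS

universe u

section
variable {G : Type u} [AddCommGroup G] [Fintype G] [DecidableEq G]

/-- the trivial upper bound -/
lemma FF_le_triv (B : Finset G) : FF B ≤ (3 * (B.card : ℤ) - 2 * Fintype.card G) ^ 2 := by
  have h := four_schur_compl B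
  have hc : ((Bᶜ).card : ℤ) = Fintype.card G - B.card := card_compl_int B
  rw [hc] at h
  have h0 : (0:ℤ) ≤ schur Bᶜ := by positivity
  have e : (3 * ((Fintype.card G : ℤ) - B.card) - Fintype.card G) ^ 2 =
    (3 * (B.card : ℤ) - 2 * Fintype.card G) ^ 2 := by ring
  rw [e] at h
  linarith

/-- the regime where `P = 0` -/
theorem triv_regime {S B : Finset G} (hS : SF S) (h : S.card + B.card = Fintype.card G) :
    Bd G B.card (FF B) := by
  refine ⟨_, Or.inl ⟨⊤, S, fun _ _ => AddSubgroup.mem_top _, hS, ?_, rfl⟩, ?_⟩
  · rw [AddSubgroup.card_top, Nat.card_eq_fintype_card]; exact h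
  · rw [AddSubgroup.card_top, Nat.card_eq_fintype_card]; exact FF_le_triv B

/-- the trivial regime for all sizes `b ≥ n - |S|` -/
theorem triv_regime' {S B : Finset G} (hS : SF S) (h : Fintype.card G ≤ S.card + B.card) :
    Bd G B.card (FF B) := by
  have hB : B.card ≤ Fintype.card G := Finset.card_le_univ B
  obtain ⟨S', hS', hc⟩ := Finset.exists_subset_card_eq (s := S) (n := Fintype.card G - B.card)
    (by omega)
  refine triv_regime (S := S') ?_ (by omega)
  intro x hx y hy hxy
  exact hS x (hS' hx) y (hS' hy) (hS' hxy)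

lemma sum_shift (f : G → ℤ) (x : G) : ∑ y, f (y + x) = ∑ y, f y :=
  Function.Bijective.sum_comp (Equiv.addRight x).bijective f

lemma e3_pt (hG : ∀ g : G, g + g + g = 0) (A : Finset G) (x : G) :
    3 * (A.card : ℤ) - Fintype.card G ≤ 3 * ∑ y ∈ A, ind A (x + y) := by
  have h1 : ∑ y ∈ A, ind A (x + y) = ∑ y, ind A y * ind A (y + x) := by
    rw [sum_ind_mul]
    exact Finset.sum_congr rfl fun y _ => by rw [add_comm]
  have h2 : ∑ y, ind A (y + x) * ind A (y + x + x) = ∑ y, ind A y * ind A (y + x) :=
    sum_shift (fun y => ind A y * ind A (y + x)) x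
  have h3 : ∑ y, ind A (y + x + x) * ind A y = ∑ y, ind A y * ind A (y + x) := by
    rw [← sum_shift (fun y => ind A y * ind A (y + x)) (x + x)]
    refine Finset.sum_congr rfl fun y _ => ?_
    have e1 : y + (x + x) = y + x + x := by abel
    have e2 : y + (x + x) + x = y := by
      have : y + (x + x) + x = y + (x + x + x) := by abel
      rw [this, hG x, add_zero]
    rw [e2, e1]
  have c1 : ∑ y, ind A (y + x) = (A.card : ℤ) := by rw [sum_shift, sum_ind]
  have c2 : ∑ y, ind A (y + x + x) = (A.card : ℤ) := by
    have := sum_shift (fun y => ind A (y + x)) x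
    rw [this, c1]
  have key : ∑ y : G, (ind A y + ind A (y + x) + ind A (y + x + x) - 1) ≤
      ∑ y : G, (ind A y * ind A (y + x) + ind A (y + x) * ind A (y + x + x) +
        ind A (y + x + x) * ind A y) := by
    refine Finset.sum_le_sum fun y _ => ?_
    unfold ind
    split_ifs <;> norm_num
  rw [Finset.sum_sub_distrib, Finset.sum_add_distrib, Finset.sum_add_distrib,
    Finset.sum_add_distrib, Finset.sum_add_distrib, h2, h3, c1, c2, sum_ind] at key
  rw [h1]
  simp only [Finset.sum_const, Finset.card_univ, nsmul_eq_mul, mul_one] at key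
  linarith

/-- exponent three: every set `A` has at least `|A| (|A| - n/3)` Schur triples -/
theorem e3_schur (hG : ∀ g : G, g + g + g = 0) (A : Finset G) :
    (A.card : ℤ) * (3 * A.card - Fintype.card G) ≤ 3 * schur A := by
  rw [schur_eq_sum, Finset.mul_sum]
  calc (A.card : ℤ) * (3 * A.card - Fintype.card G)
      = ∑ x ∈ A, (3 * (A.card : ℤ) - Fintype.card G) := by
        rw [Finset.sum_const, nsmul_eq_mul]
    _ ≤ _ := Finset.sum_le_sum fun x _ => e3_pt hG A x

theorem e3_FF (hG : ∀ g : G, g + g + g = 0) (B : Finset G) {l : ℕ}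
    (hl : Fintype.card G = 3 * l) :
    FF B ≤ (2 * (l:ℤ) - B.card) * (6 * l - 5 * B.card) := by
  have h := four_schur_compl B
  have hc : ((Bᶜ).card : ℤ) = Fintype.card G - B.card := card_compl_int B
  have h3 := e3_schur hG Bᶜ
  rw [hc] at h h3
  have hl' : (Fintype.card G : ℤ) = 3 * l := by exact_mod_cast hl
  rw [hl'] at h h3
  nlinarith

/-- **exponent three** -/
theorem e3 (hG : ∀ g : G, g + g + g = 0) (hnt : Nontrivial G) (B : Finset G)
    (hB : Fintype.card G ≤ 3 * B.card) : Bd G B.card (FF B) := by
  classical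
  -- three divides the order
  have h3 : 3 ∣ Fintype.card G := by
    obtain ⟨g, hg⟩ := exists_ne (0 : G)
    have h1 : addOrderOf g = 3 := by
      apply addOrderOf_eq_prime _ hg
      have := hG g
      rw [show (3:ℕ) • g = g + g + g by rw [show (3:ℕ) = 1 + 1 + 1 from rfl, add_smul, add_smul,
        one_smul]]
      exact this
    rw [← h1]; exact addOrderOf_dvd_card
  obtain ⟨l, hl⟩ := h3
  have hlpos : 0 < l := by
    have : 0 < Fintype.card G := Fintype.card_pos
    omega
  obtain ⟨H, hH⟩ := exists_subgroup (Fintype.card G) G rfl l ⟨3, by rw [hl]; ring⟩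
  have hHtop : H ≠ ⊤ := by
    intro h
    rw [h, AddSubgroup.card_top, Nat.card_eq_fintype_card, hl] at hH
    omega
  by_cases hb : B.card ≤ 2 * l
  · -- type II above
    refine ⟨_, Or.inr ⟨H, 0, B.card - l, ?_, rfl, Or.inr ⟨?_, alive_two hHtop⟩⟩, ?_⟩
    · rw [hH]; omega
    · rw [hH]; omega
    · rw [hH]
      have := e3_FF hG B hl
      refine this.trans (le_of_eq ?_)
      have hlb : l ≤ B.card := by omega
      push_cast [Nat.cast_sub hlb]; ring
  · -- trivial regime
    obtain ⟨g, hg⟩ : ∃ g, g ∉ H := by
      by_contra hc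
      push Not at hc
      exact hHtop (AddSubgroup.eq_top_iff' H |>.2 hc)
    refine triv_regime' (S := cos H g) ?_ ?_
    · intro x hx y hy hxy
      rw [mem_cos] at hx hy hxy
      apply hg
      have : (x + y - g) - (x - g) - (y - g) = g := by abel
      rw [← this]
      exact H.sub_mem (H.sub_mem hxy hx) hy
    · have hcc : (cos H g).card = Nat.card H := by
        have h1 : (cos H g) = (cos H (0:G)).image (fun z => z + g) := by
          ext x
          rw [Finset.mem_image]
          simp only [mem_cos, sub_zero]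
          constructor
          · intro h; exact ⟨x - g, h, by abel⟩
          · rintro ⟨z, hz, rfl⟩; rw [add_sub_cancel_right]; exact hz
        rw [h1, Finset.card_image_of_injective _ (add_left_injective g), card_cos_zero]
      rw [hcc, hH, hl]; omega

end

end Pool.Agent.SCH
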