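import Mathlib
import Pool.Agent.Lib_helper26.SCH.E3

/-!
# The trivial regime in terms of a surjection onto `ZMod m`
-/

set_option autoImplicit false
set_option linter.unusedSectionVars false

namespace Pool.Agent.SCH

open Finset Pool.Agent.GL Pool.Agent.Lib_helper42.RS

universe u

section
variable {G : Type u} [AddCommGroup G] [Fintype G] [DecidableEq G]

/-- the middle levels -/
def midS {m : ℕ} (φ : G →+ ZMod m) : Finset G :=
  univ.filter (fun x => (m + 1) / 3 ≤ (φ x).val ∧ (φ x).val < 2 * ((m + 1) / 3))

lemma midS_SF {m : ℕ} [NeZero m] (φ : G →+ ZMod m) : SF (midS φ) := by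
  intro x hx y hy hxy
  unfold midS at hx hy hxy
  simp only [Finset.mem_filter, Finset.mem_univ, true_and] at hx hy hxy
  rw [map_add, ZMod.val_add] at hxy
  have h3 : 3 * ((m + 1) / 3) ≤ m + 1 := Nat.mul_div_le _ _
  set t := (m + 1) / 3 with ht
  by_cases h : (φ x).val + (φ y).val < m
  · rw [Nat.mod_eq_of_lt h] at hxy; omega
  · have h2 : ((φ x).val + (φ y).val) % m = (φ x).val + (φ y).val - m := by
      rw [Nat.mod_eq_sub_mod (by omega), Nat.mod_eq_of_lt (by omega)]
    rw [h2] at hxy; omega

lemma card_ker_mul {m : ℕ} [NeZero m] (φ : G →+ ZMod m) (hφ : Function.Surjective φ) :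
    Fintype.card G = m * Nat.card φ.ker := by
  have h1 := AddSubgroup.card_mul_index φ.ker
  rw [AddSubgroup.index_ker, AddMonoidHom.range_eq_top.mpr hφ, AddSubgroup.card_top,
    Nat.card_zmod, Nat.card_eq_fintype_card (α := G)] at h1
  rw [← h1, mul_comm]

lemma fibre_card {m : ℕ} (φ : G →+ ZMod m) (hφ : Function.Surjective φ) (q : ZMod m) :
    (univ.filter (fun x => φ x = q)).card = Nat.card φ.ker := by
  classical
  obtain ⟨x0, rfl⟩ := hφ q
  have h1 : Nat.card φ.ker = (univ.filter (fun x => φ x = 0)).card := by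
    rw [Nat.card_eq_fintype_card, Fintype.card_subtype]
    congr 1
    ext x
    simp [AddMonoidHom.mem_ker]
  rw [h1]
  refine Finset.card_bij (fun x _ => x - x0) ?_ ?_ ?_
  · intro x hx
    simp only [Finset.mem_filter, Finset.mem_univ, true_and] at hx ⊢
    rw [map_sub, hx, sub_self]
  · intro x _ y _ hxy
    exact sub_left_injective hxy
  · intro y hy
    simp only [Finset.mem_filter, Finset.mem_univ, true_and] at hy
    refine ⟨y + x0, ?_, by simp⟩
    simp only [Finset.mem_filter, Finset.mem_univ, true_and, map_add, hy, zero_add]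

lemma card_level {m : ℕ} [NeZero m] (φ : G →+ ZMod m) (hφ : Function.Surjective φ)
    (T : Finset (ZMod m)) :
    (univ.filter (fun x => φ x ∈ T)).card = T.card * Nat.card φ.ker := by
  have h1 : (univ.filter (fun x => φ x ∈ T)).card =
      ∑ α ∈ T, ((univ.filter (fun x => φ x ∈ T)).filter (fun x => φ x = α)).card :=
    Finset.card_eq_sum_card_fiberwise (fun x hx => by
      simp only [Finset.coe_filter, Finset.mem_univ, true_and, Set.mem_ofPred_eq] at hx
      exact hx)
  rw [h1, Finset.sum_const_nat (m := Nat.card φ.ker)]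
  intro α hα
  have h2 : (univ.filter (fun x => φ x ∈ T)).filter (fun x => φ x = α) =
      univ.filter (fun x => φ x = α) := by
    ext x
    simp only [Finset.mem_filter, Finset.mem_univ, true_and]
    constructor
    · rintro ⟨_, h⟩; exact h
    · rintro h; exact ⟨h ▸ hα, h⟩
  rw [h2]
  exact fibre_card φ hφ α

lemma midS_card {m : ℕ} [NeZero m] (φ : G →+ ZMod m) (hφ : Function.Surjective φ) :
    (midS φ).card = ((m + 1) / 3) * Nat.card φ.ker := by
  have hm : 0 < m := Nat.pos_of_ne_zero (NeZero.ne m)
  have h3 : 3 * ((m + 1) / 3) ≤ m + 1 := Nat.mul_div_le _ _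
  set t := (m + 1) / 3 with ht
  set T : Finset (ZMod m) := univ.filter (fun α => t ≤ α.val ∧ α.val < 2 * t) with hT
  have h1 : midS φ = univ.filter (fun x => φ x ∈ T) := by
    ext x
    simp [midS, hT, ← ht]
  have h2 : T.card = t := by
    have h4 : T.image ZMod.val = Finset.Ico t (2 * t) := by
      ext i
      simp only [hT, Finset.mem_image, Finset.mem_filter, Finset.mem_univ, true_and,
        Finset.mem_Ico]
      constructor
      · rintro ⟨α, hα, rfl⟩; exact hα
      · intro hi
        refine ⟨(i : ZMod m), ?_⟩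
        have : ((i : ZMod m)).val = i := ZMod.val_natCast_of_lt (by omega)
        rw [this]
        exact ⟨hi, rfl⟩
    have h5 : (T.image ZMod.val).card = T.card :=
      Finset.card_image_of_injective _ (ZMod.val_injective m)
    rw [← h5, h4, Nat.card_Ico]; omega
  rw [h1, card_level φ hφ, h2]

/-- **the trivial range**: `m |A| ≤ floor((m+1)/3) n` -/
theorem triv_phi {m : ℕ} [NeZero m] (φ : G →+ ZMod m) (hφ : Function.Surjective φ) (B : Finset G)
    (h : m * Fintype.card G ≤ m * B.card + ((m + 1) / 3) * Fintype.card G) :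
    Bd G B.card (FF B) := by
  refine triv_regime' (S := midS φ) (midS_SF φ) ?_
  rw [midS_card φ hφ]
  have hm : 0 < m := Nat.pos_of_ne_zero (NeZero.ne m)
  have h1 := card_ker_mul φ hφ
  have h2 : m * Fintype.card G ≤ m * (((m + 1) / 3) * Nat.card φ.ker + B.card) := by
    calc m * Fintype.card G ≤ m * B.card + ((m + 1) / 3) * Fintype.card G := h
      _ = m * (((m + 1) / 3) * Nat.card φ.ker + B.card) := by
        conv_lhs => rw [h1]
        ring
  exact Nat.le_of_mul_le_mul_left h2 hm

end

end Pool.Agent.SCH
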