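import Mathlib
import Pool.Agent.Lib_helper13.PL.FOU2
import Pool.Agent.Lib_helper51.Fad.Bathtub
import Pool.Agent.Lib_helper26.SCH.Triv

/-!
# The shift lemma: an upper bound for the largest Fourier coefficient in terms of
`2 δ(v) + δ'(v)`
-/

set_option autoImplicit false
set_option linter.unusedSectionVars false

namespace Pool.Agent.SCH

open Finset Pool.Agent.Lib_helper13.PL

universe u

section
variable {G : Type u} [AddCommGroup G] [Fintype G] [DecidableEq G]

lemma sum_range_zmod {M : Type*} [AddCommMonoid M] (q : ℕ) [NeZero q] (F : ZMod q → M) :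
    ∑ j : ZMod q, F j = ∑ j ∈ range q, F ((j : ℕ) : ZMod q) := by
  have h : ∑ j : ZMod q, F j = ∑ j : ZMod q, F ((j.val : ℕ) : ZMod q) := by
    apply Finset.sum_congr rfl
    intro j _
    rw [ZMod.natCast_zmod_val]
  rw [h]
  obtain ⟨n, rfl⟩ : ∃ n, q = n + 1 := ⟨q - 1, by have := NeZero.pos q; omega⟩
  exact Fin.sum_univ_eq_sum_range (fun i => F ((i : ℕ) : ZMod (n + 1))) (n + 1)

/-- bathtub bound in real form -/
lemma bath_cos {m : ℕ} (hm : 2 ≤ m) (φ : G →+ ZMod m) (hφ : Function.Surjective φ)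
    (S : Finset G) (α : ℝ) :
    ∑ x ∈ S, Real.cos (2 * Real.pi * (φ x).valMinAbs / m - α) ≤
      (Nat.card φ.ker : ℝ) / Real.sin (Real.pi / m) *
        Real.sin (Real.pi * S.card / Fintype.card G) := by
  have : NeZero m := ⟨by omega⟩
  have hm0 : (0 : ℝ) < m := by positivity
  set l : ℝ := (Nat.card φ.ker : ℝ) with hl
  have hl0 : 0 < l := by rw [hl]; exact_mod_cast Nat.card_pos
  have hn : (Fintype.card G : ℝ) = m * l := by
    rw [hl]; exact_mod_cast card_ker_mul φ hφ
  -- periodicity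
  have hper : ∀ j : ZMod m, Real.cos (2 * Real.pi * j.valMinAbs / m - α) =
      Real.cos (2 * Real.pi * j.val / m - α) := by
    intro j
    rcases ZMod.valMinAbs_def_pos j with h
    rw [ZMod.valMinAbs_def_pos]
    split_ifs with h1
    · push_cast; rfl
    · push_cast
      have : 2 * Real.pi * ((j.val : ℝ) - m) / m - α = 2 * Real.pi * j.val / m - α - 2 * Real.pi := by
        field_simp
        ring
      rw [this, Real.cos_sub_two_pi]
  -- level sizes
  set s : ZMod m → ℝ := fun j => ((S.filter (fun x => φ x = j)).card : ℝ) with hs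
  have hs0 : ∀ j, 0 ≤ s j := fun j => by rw [hs]; positivity
  have hs1 : ∀ j, s j ≤ l := by
    intro j
    rw [hs, hl, ← fibre_card φ hφ j]
    simp only
    exact_mod_cast Finset.card_le_card (Finset.filter_subset_filter _ (Finset.subset_univ S))
  have hsum : ∑ x ∈ S, Real.cos (2 * Real.pi * (φ x).valMinAbs / m - α) =
      ∑ j : ZMod m, s j * Real.cos (2 * Real.pi * j.val / m - α) := by
    rw [← Finset.sum_fiberwise_of_maps_to (s := S) (t := univ) (g := φ) (fun _ _ => mem_univ _)]
    refine Finset.sum_congr rfl fun j _ => ?_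
    have : ∀ x ∈ S.filter (fun x => φ x = j), Real.cos (2 * Real.pi * (φ x).valMinAbs / m - α) =
        Real.cos (2 * Real.pi * j.val / m - α) := by
      intro x hx
      rw [(Finset.mem_filter.mp hx).2, hper]
    rw [Finset.sum_congr rfl this, Finset.sum_const, nsmul_eq_mul]
  have hmass : ∑ j : ZMod m, s j = S.card := by
    rw [hs]
    have := Finset.card_eq_sum_card_fiberwise (f := φ) (s := S) (t := univ)
      (fun _ _ => mem_univ _)
    simp only
    exact_mod_cast this.symm
  have hbt := Fad.bathtub m hm (fun j => s ((j : ℕ) : ZMod m) / (2 * l)) (Real.pi - α)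
    (fun j _ => by have := hs0 ((j : ℕ) : ZMod m); positivity)
    (fun j _ => by
      have := hs1 ((j : ℕ) : ZMod m)
      rw [div_le_iff₀ (by positivity)]; linarith)
  have e1 : ∑ j ∈ range m, s ((j : ℕ) : ZMod m) / (2 * l) = S.card / (2 * l) := by
    rw [← Finset.sum_div, ← sum_range_zmod m s, hmass]
  have e2 : -∑ j ∈ range m, s ((j : ℕ) : ZMod m) / (2 * l) *
      Real.cos (2 * Real.pi * j / m + (Real.pi - α)) =
      (1 / (2 * l)) * ∑ j : ZMod m, s j * Real.cos (2 * Real.pi * j.val / m - α) := by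
    rw [sum_range_zmod m, Finset.mul_sum, ← Finset.sum_neg_distrib]
    refine Finset.sum_congr rfl fun j hj => ?_
    have h1 : ((j : ℕ) : ZMod m).val = j := ZMod.val_cast_of_lt (Finset.mem_range.1 hj)
    rw [h1]
    have h2 : 2 * Real.pi * (j : ℝ) / m + (Real.pi - α) = (2 * Real.pi * j / m - α) + Real.pi := by
      ring
    rw [h2, Real.cos_add_pi]
    ring
  rw [e1, e2] at hbt
  rw [hsum]
  have e3 : 2 * Real.pi * ((S.card : ℝ) / (2 * l)) / m = Real.pi * S.card / Fintype.card G := by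
    rw [hn]; field_simp
  rw [e3] at hbt
  have hsin : 0 < Real.sin (Real.pi / m) := by
    apply Real.sin_pos_of_pos_of_lt_pi
    · positivity
    · rw [div_lt_iff₀ hm0]
      have : (2:ℝ) ≤ m := by exact_mod_cast hm
      nlinarith [Real.pi_pos]
  have h5 : ∑ j : ZMod m, s j * Real.cos (2 * Real.pi * j.val / m - α) =
      (2 * l) * ((1 / (2 * l)) * ∑ j : ZMod m, s j * Real.cos (2 * Real.pi * j.val / m - α)) := by
    field_simp
  rw [h5]
  calc _ ≤ (2 * l) * (Real.sin (Real.pi * S.card / Fintype.card G) / (2 * Real.sin (Real.pi / m))) :=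
        mul_le_mul_of_nonneg_left hbt (by positivity)
    _ = _ := by field_simp

/-- **bathtub bound** for the Fourier coefficients of a set -/
theorem norm_hat_bath {m : ℕ} (hm : 2 ≤ m) {χ : AddChar G ℂ} {φ : G →+ ZMod m}
    (hφ : Function.Surjective φ) (h : Std χ φ) (S : Finset G) :
    ‖hat S χ‖ ≤ (Nat.card φ.ker : ℝ) / Real.sin (Real.pi / m) *
      Real.sin (Real.pi * S.card / Fintype.card G) := by
  set z := hat S χ with hz
  have h1 : (‖z‖ : ℝ) = ∑ x ∈ S, Real.cos (2 * Real.pi * (φ x).valMinAbs / m - Complex.arg z) := by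
    have e1 : (Complex.exp (-(Complex.arg z : ℂ) * Complex.I) * z).re = ‖z‖ := by
      conv_lhs => rw [← Complex.norm_mul_exp_arg_mul_I z]
      rw [mul_left_comm, ← Complex.exp_add]
      simp
    rw [← e1, hz]
    unfold hat
    rw [Finset.mul_sum, Complex.re_sum]
    refine Finset.sum_congr rfl fun x _ => ?_
    rw [h x, ← Complex.exp_add]
    have : -(Complex.arg (∑ x ∈ S, χ x) : ℂ) * Complex.I +
        ((2 * Real.pi * (φ x).valMinAbs / m : ℝ) : ℂ) * Complex.I =
        ((2 * Real.pi * (φ x).valMinAbs / m - Complex.arg (∑ x ∈ S, χ x) : ℝ) : ℂ) * Complex.I := by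
      push_cast; ring
    rw [this, Complex.exp_ofReal_mul_I_re]
  rw [h1]
  exact bath_cos hm φ hφ S _

lemma hat_union_inter (A C : Finset G) (χ : AddChar G ℂ) :
    hat (A ∪ C) χ + hat (A ∩ C) χ = hat A χ + hat C χ := by
  unfold hat
  exact Finset.sum_union_inter

/-- union and intersection with a set of the same size -/
lemma pair_bath {m : ℕ} (hm : 2 ≤ m) {χ : AddChar G ℂ} {φ : G →+ ZMod m}
    (hφ : Function.Surjective φ) (h : Std χ φ) (A C : Finset G) (hAC : A.card = C.card) :
    ‖hat A χ + hat C χ‖ ≤ 2 * ((Nat.card φ.ker : ℝ) / Real.sin (Real.pi / m) *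
      Real.sin (Real.pi * C.card / Fintype.card G) *
      Real.cos (Real.pi * (A \ C).card / Fintype.card G)) := by
  have h1 := norm_hat_bath hm hφ h (A ∪ C)
  have h2 := norm_hat_bath hm hφ h (A ∩ C)
  have c1 : ((A ∪ C).card : ℝ) = C.card + (A \ C).card := by
    have := Finset.card_sdiff_add_card A C
    have h3 : (A \ C).card + C.card = (A ∪ C).card := this
    rw [← h3]; push_cast; ring
  have c2 : ((A ∩ C).card : ℝ) = C.card - (A \ C).card := by
    have := Finset.card_inter_add_card_sdiff A C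
    rw [← hAC, ← this]; push_cast; ring
  rw [← hat_union_inter]
  refine (norm_add_le _ _).trans ?_
  rw [c1] at h1
  rw [c2] at h2
  have e1 : Real.pi * ((C.card : ℝ) + (A \ C).card) / Fintype.card G =
      Real.pi * C.card / Fintype.card G + Real.pi * (A \ C).card / Fintype.card G := by ring
  have e2 : Real.pi * ((C.card : ℝ) - (A \ C).card) / Fintype.card G =
      Real.pi * C.card / Fintype.card G - Real.pi * (A \ C).card / Fintype.card G := by ring
  rw [e1, Real.sin_add] at h1
  rw [e2, Real.sin_sub] at h2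
  calc _ ≤ _ := add_le_add h1 h2
    _ = _ := by ring

lemma cos_ang_nonneg {m : ℕ} [NeZero m] (φ : G →+ ZMod m) (x : G) : 0 ≤ Real.cos (ang φ x) := by
  have hm0 : (0 : ℝ) < m := by have := NeZero.pos m; exact_mod_cast this
  apply Real.cos_nonneg_of_neg_pi_div_two_le_of_le
  · unfold ang
    have h1 := (ZMod.valMinAbs_mem_Ioc (φ x)).1
    have h2 : -(m : ℝ) < ((φ x).valMinAbs : ℝ) * 2 := by exact_mod_cast h1
    rw [le_div_iff₀ hm0]
    nlinarith [Real.pi_pos]
  · unfold ang
    have h1 := (ZMod.valMinAbs_mem_Ioc (φ x)).2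
    have h2 : ((φ x).valMinAbs : ℝ) * 2 ≤ m := by exact_mod_cast h1
    rw [div_le_iff₀ hm0]
    nlinarith [Real.pi_pos]

/-- first half of the shift lemma -/
theorem shift1 {m : ℕ} (hm : 2 ≤ m) {χ : AddChar G ℂ} {φ : G →+ ZMod m}
    (hφ : Function.Surjective φ) (h : Std χ φ) (B : Finset G) (v : G) :
    |Real.cos (ang φ v)| * ‖hat B χ‖ ≤ (Nat.card φ.ker : ℝ) / Real.sin (Real.pi / m) *
      Real.sin (Real.pi * B.card / Fintype.card G) *
      Real.cos (Real.pi * ((dlt B v : ℤ) : ℝ) / Fintype.card G) := by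
  have hinj : Function.Injective (fun y : G => y + v) := add_left_injective v
  have h1 : hat (B.image (fun y => y + v)) χ = χ v * hat B χ := by
    unfold hat
    rw [Finset.sum_image fun a _ b _ h => hinj h, Finset.mul_sum]
    refine Finset.sum_congr rfl fun y _ => ?_
    rw [AddChar.map_add_eq_mul, mul_comm]
  have h2 : ((B.image (fun y => y + v)) \ B).card = (B.filter (fun y => y + v ∉ B)).card := by
    rw [← Finset.card_image_of_injective (B.filter (fun y => y + v ∉ B)) hinj]
    congr 1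
    ext z
    simp only [Finset.mem_sdiff, Finset.mem_image, Finset.mem_filter]
    constructor
    · rintro ⟨⟨y, hy, rfl⟩, hz⟩
      exact ⟨y, ⟨hy, hz⟩, rfl⟩
    · rintro ⟨y, ⟨hy, hz⟩, rfl⟩
      exact ⟨⟨y, hy, rfl⟩, hz⟩
  have h3 := pair_bath hm hφ h (B.image (fun y => y + v)) B
    (Finset.card_image_of_injective B hinj)
  rw [h1, h2] at h3
  have e : χ v * hat B χ + hat B χ = (χ v + 1) * hat B χ := by ring
  rw [e, norm_mul] at h3
  have h4 : ‖χ v + 1‖ = 2 * |Real.cos (ang φ v)| := by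
    rw [h.eq v]
    set t := ang φ v
    have h5 : (Complex.cos t + Complex.sin t * Complex.I) ^ 2 + 1 =
        2 * (Real.cos t : ℂ) * (Complex.cos t + Complex.sin t * Complex.I) := by
      push_cast
      have := Complex.cos_sq_add_sin_sq (t : ℂ)
      have h6 : (1:ℂ) = Complex.cos t ^ 2 + Complex.sin t ^ 2 := this.symm
      conv_lhs => rw [h6]
      ring_nf
      rw [Complex.I_sq]
      ring
    rw [h5, norm_mul, norm_mul, ← Complex.exp_mul_I, Complex.norm_exp_ofReal_mul_I,
      Complex.norm_real]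
    simp
  rw [h4] at h3
  unfold dlt
  push_cast
  linarith

/-- second half of the shift lemma -/
theorem shift2 {m : ℕ} (hm : 2 ≤ m) {χ : AddChar G ℂ} {φ : G →+ ZMod m}
    (hφ : Function.Surjective φ) (h : Std χ φ) (B : Finset G) (v : G) :
    |Real.cos (ang φ v) * (hat B χ).re + Real.sin (ang φ v) * (hat B χ).im| ≤
      (Nat.card φ.ker : ℝ) / Real.sin (Real.pi / m) *
      Real.sin (Real.pi * B.card / Fintype.card G) *
      Real.cos (Real.pi * ((dlt' B v : ℤ) : ℝ) / Fintype.card G) := by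
  have hinj : Function.Injective (fun y : G => v - y) := sub_right_injective
  have h1 : hat (B.image (fun y => v - y)) χ = χ v * (starRingEnd ℂ) (hat B χ) := by
    rw [hat_conj]
    unfold hat
    rw [Finset.sum_image fun a _ b _ h => hinj h, Finset.mul_sum]
    refine Finset.sum_congr rfl fun y _ => ?_
    rw [sub_eq_add_neg, AddChar.map_add_eq_mul]
  have h2 : ((B.image (fun y => v - y)) \ B).card = (B.filter (fun y => v - y ∉ B)).card := by
    rw [← Finset.card_image_of_injective (B.filter (fun y => v - y ∉ B)) hinj]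
    congr 1
    ext z
    simp only [Finset.mem_sdiff, Finset.mem_image, Finset.mem_filter]
    constructor
    · rintro ⟨⟨y, hy, rfl⟩, hz⟩
      exact ⟨y, ⟨hy, hz⟩, rfl⟩
    · rintro ⟨y, ⟨hy, hz⟩, rfl⟩
      exact ⟨⟨y, hy, rfl⟩, hz⟩
  have h3 := pair_bath hm hφ h (B.image (fun y => v - y)) B
    (Finset.card_image_of_injective B hinj)
  rw [h1, h2] at h3
  have h4 : ‖χ v * (starRingEnd ℂ) (hat B χ) + hat B χ‖ =
      2 * |Real.cos (ang φ v) * (hat B χ).re + Real.sin (ang φ v) * (hat B χ).im| := by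
    rw [h.eq v]
    set t := ang φ v
    set z := hat B χ
    have h5 : (Complex.cos t + Complex.sin t * Complex.I) ^ 2 * (starRingEnd ℂ) z + z =
        ((2 * (Real.cos t * z.re + Real.sin t * z.im) : ℝ) : ℂ) *
          (Complex.cos t + Complex.sin t * Complex.I) := by
      have h6 := Real.cos_sq_add_sin_sq t
      rw [← Complex.ofReal_cos, ← Complex.ofReal_sin]
      generalize Real.cos t = c at *
      generalize Real.sin t = s at *
      apply Complex.ext
      · simp [pow_two]
        linear_combination (-z.re) * h6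
      · simp [pow_two]
        linear_combination (-z.im) * h6
    rw [h5, norm_mul, ← Complex.exp_mul_I, Complex.norm_exp_ofReal_mul_I, Complex.norm_real]
    rw [Real.norm_eq_abs, abs_mul, mul_one]
    simp
  rw [h4] at h3
  unfold dlt'
  push_cast
  linarith

lemma dlt_le_half (B : Finset G) (v : G) : 2 * ((dlt B v : ℤ) : ℝ) ≤ Fintype.card G := by
  have hinj : Function.Injective (fun y : G => y + v) := add_left_injective v
  have h1 : ((B.filter (fun y => y + v ∉ B)).image (fun y => y + v)) ⊆ Bᶜ := by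
    intro z hz
    simp only [Finset.mem_image, Finset.mem_filter, Finset.mem_compl] at hz ⊢
    obtain ⟨y, ⟨_, hy⟩, rfl⟩ := hz
    exact hy
  have h2 := Finset.card_le_card h1
  rw [Finset.card_image_of_injective _ hinj, Finset.card_compl] at h2
  have h3 := Finset.card_le_card (Finset.filter_subset (fun y => y + v ∉ B) B)
  have h4 := Finset.card_le_univ B
  unfold dlt
  have : 2 * (B.filter (fun y => y + v ∉ B)).card ≤ Fintype.card G := by omega
  exact_mod_cast this

lemma dlt'_le_half (B : Finset G) (v : G) : 2 * ((dlt' B v : ℤ) : ℝ) ≤ Fintype.card G := by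
  have hinj : Function.Injective (fun y : G => v - y) := sub_right_injective
  have h1 : ((B.filter (fun y => v - y ∉ B)).image (fun y => v - y)) ⊆ Bᶜ := by
    intro z hz
    simp only [Finset.mem_image, Finset.mem_filter, Finset.mem_compl] at hz ⊢
    obtain ⟨y, ⟨_, hy⟩, rfl⟩ := hz
    exact hy
  have h2 := Finset.card_le_card h1
  rw [Finset.card_image_of_injective _ hinj, Finset.card_compl] at h2
  have h3 := Finset.card_le_card (Finset.filter_subset (fun y => v - y ∉ B) B)
  have h4 := Finset.card_le_univ B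
  unfold dlt'
  have : 2 * (B.filter (fun y => v - y ∉ B)).card ≤ Fintype.card G := by omega
  exact_mod_cast this

/-- concavity of the cosine -/
lemma cos_conc {a b : ℝ} (ha : 0 ≤ a) (ha' : a ≤ Real.pi / 2) (hb : 0 ≤ b)
    (hb' : b ≤ Real.pi / 2) : 2 * Real.cos a + Real.cos b ≤ 3 * Real.cos ((2 * a + b) / 3) := by
  have h := (strictConcaveOn_cos_Icc.concaveOn).2 (x := a) (y := b)
    ⟨by linarith [Real.pi_pos], ha'⟩ ⟨by linarith [Real.pi_pos], hb'⟩
    (show (0:ℝ) ≤ 2 / 3 by norm_num) (show (0:ℝ) ≤ 1 / 3 by norm_num) (by norm_num)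
  simp only [smul_eq_mul] at h
  have e : (2 / 3 : ℝ) * a + 1 / 3 * b = (2 * a + b) / 3 := by ring
  rw [e] at h
  linarith

/-- **shift lemma** -/
theorem shift {m : ℕ} (hm : 2 ≤ m) {χ : AddChar G ℂ} {φ : G →+ ZMod m}
    (hφ : Function.Surjective φ) (h : Std χ φ) (B : Finset G) (v : G) (hR : 0 ≤ (hat B χ).re)
    (ht : Real.sin (ang φ v) ^ 2 ≤ 4 * Real.cos (ang φ v) ^ 2) :
    (Real.cos (ang φ v) + √(4 * Real.cos (ang φ v) ^ 2 - Real.sin (ang φ v) ^ 2)) *
      (hat B χ).re ≤ 3 * ((Nat.card φ.ker : ℝ) / Real.sin (Real.pi / m) *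
      Real.sin (Real.pi * B.card / Fintype.card G) *
      Real.cos (Real.pi * (2 * ((dlt B v : ℤ) : ℝ) + ((dlt' B v : ℤ) : ℝ)) /
        (3 * Fintype.card G))) := by
  have : NeZero m := ⟨by omega⟩
  have hm0 : (0 : ℝ) < m := by positivity
  have hn0 : (0 : ℝ) < Fintype.card G := by exact_mod_cast Fintype.card_pos
  have hpi := Real.pi_pos
  have h1 := shift1 hm hφ h B v
  have h2 := shift2 hm hφ h B v
  set c := Real.cos (ang φ v) with hc
  set s := Real.sin (ang φ v) with hs
  set R := (hat B χ).re with hRdef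
  set I := (hat B χ).im with hIdef
  set K := (Nat.card φ.ker : ℝ) / Real.sin (Real.pi / m) *
      Real.sin (Real.pi * B.card / Fintype.card G) with hK
  have hc0 : 0 ≤ c := cos_ang_nonneg φ v
  have hK0 : 0 ≤ K := by
    rw [hK]
    apply mul_nonneg
    · apply div_nonneg (by positivity)
      apply Real.sin_nonneg_of_nonneg_of_le_pi (by positivity)
      rw [div_le_iff₀ hm0]
      have : (2:ℝ) ≤ m := by exact_mod_cast hm
      nlinarith
    · apply Real.sin_nonneg_of_nonneg_of_le_pi (by positivity)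
      rw [div_le_iff₀ hn0]
      have : (B.card : ℝ) ≤ Fintype.card G := by exact_mod_cast Finset.card_le_univ B
      nlinarith
  have hnorm : ‖hat B χ‖ ^ 2 = R ^ 2 + I ^ 2 := by
    rw [← Complex.normSq_eq_norm_sq, Complex.normSq_apply]; ring
  have hD : 0 ≤ 4 * c ^ 2 - s ^ 2 := by linarith
  have hsq : √(4 * c ^ 2 - s ^ 2) ^ 2 = 4 * c ^ 2 - s ^ 2 := Real.sq_sqrt hD
  have hs0 : 0 ≤ √(4 * c ^ 2 - s ^ 2) := Real.sqrt_nonneg _
  have h3 : √(4 * c ^ 2 - s ^ 2) * R + |s| * |I| ≤ 2 * c * ‖hat B χ‖ := by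
    apply le_of_sq_le_sq _ (by positivity)
    have e1 : (2 * c * ‖hat B χ‖) ^ 2 = 4 * c ^ 2 * (R ^ 2 + I ^ 2) := by rw [← hnorm]; ring
    rw [e1]
    have e2 : |I| ^ 2 = I ^ 2 := sq_abs I
    have e3 : |s| ^ 2 = s ^ 2 := sq_abs s
    have e4 : (√(4 * c ^ 2 - s ^ 2) * R + |s| * |I|) ^ 2 + (√(4 * c ^ 2 - s ^ 2) * |I| - |s| * R) ^ 2 =
        (√(4 * c ^ 2 - s ^ 2) ^ 2 + |s| ^ 2) * (R ^ 2 + |I| ^ 2) := by ring
    rw [hsq, e3, e2] at e4
    nlinarith [sq_nonneg (√(4 * c ^ 2 - s ^ 2) * |I| - |s| * R)]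
  have h4 : c * R - |s| * |I| ≤ |c * R + s * I| := by
    have h5 : |s| * |I| = |s * I| := (abs_mul s I).symm
    rw [h5]
    have := neg_abs_le (s * I)
    have := le_abs_self (c * R + s * I)
    linarith
  rw [abs_of_nonneg hc0] at h1
  have h6 : (c + √(4 * c ^ 2 - s ^ 2)) * R ≤
      K * (2 * Real.cos (Real.pi * ((dlt B v : ℤ) : ℝ) / Fintype.card G) +
        Real.cos (Real.pi * ((dlt' B v : ℤ) : ℝ) / Fintype.card G)) := by
    have e : (c + √(4 * c ^ 2 - s ^ 2)) * R =
      (√(4 * c ^ 2 - s ^ 2) * R + |s| * |I|) + (c * R - |s| * |I|) := by ring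
    rw [e]
    linarith
  refine h6.trans ?_
  have hd0 : (0 : ℝ) ≤ ((dlt B v : ℤ) : ℝ) := by
    unfold dlt; exact_mod_cast Nat.zero_le _
  have hd0' : (0 : ℝ) ≤ ((dlt' B v : ℤ) : ℝ) := by
    unfold dlt'; exact_mod_cast Nat.zero_le _
  have g1 := dlt_le_half B v
  have g2 := dlt'_le_half B v
  have hcc := cos_conc (a := Real.pi * ((dlt B v : ℤ) : ℝ) / Fintype.card G)
    (b := Real.pi * ((dlt' B v : ℤ) : ℝ) / Fintype.card G) (by positivity)
    (by rw [div_le_iff₀ hn0]; nlinarith) (by positivity) (by rw [div_le_iff₀ hn0]; nlinarith)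
  have e2 : (2 * (Real.pi * ((dlt B v : ℤ) : ℝ) / Fintype.card G) +
      Real.pi * ((dlt' B v : ℤ) : ℝ) / Fintype.card G) / 3 =
      Real.pi * (2 * ((dlt B v : ℤ) : ℝ) + ((dlt' B v : ℤ) : ℝ)) / (3 * Fintype.card G) := by
    field_simp
  rw [e2] at hcc
  calc K * _ ≤ K * _ := mul_le_mul_of_nonneg_left hcc hK0
    _ = _ := by ring

end

end Pool.Agent.SCH
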