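import Mathlib
import Pool.Agent.Lib_helper26.SCH.Skel
import Pool.Agent.Lib_helper42.RS.Main

/-!
# Pollard's theorem in `ZMod p` in the form needed for slicing
-/

set_option autoImplicit false
set_option linter.unusedSectionVars false

namespace Pool.Agent.SCH

open Finset Pool.Agent.GL Pool.Agent.Lib_helper42.RS

section
variable {p : ℕ} [hp : Fact p.Prime]

lemma per_top {X : Finset (ZMod p)} {H : AddSubgroup (ZMod p)} (hH : H = ⊤) (h : Per H X) :
    X = ∅ ∨ X = univ := by
  subst hH
  by_cases hX : X = ∅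
  · exact Or.inl hX
  · right
    obtain ⟨x, hx⟩ := Finset.nonempty_iff_ne_empty.mpr hX
    ext y
    simp only [Finset.mem_univ, iff_true]
    have := (h x (y - x) (AddSubgroup.mem_top _)).mpr hx
    rwa [add_sub_cancel] at this

lemma card_zmod_int : ((univ : Finset (ZMod p)).card : ℤ) = p := by
  rw [Finset.card_univ, ZMod.card]

/-- Pollard's bound for `N(X,U;X)` in `ZMod p` -/
theorem zp_low (X U : Finset (ZMod p)) (h0 : (0 : ZMod p) ∉ U) :
    (2 * (X.card : ℤ) + U.card - p) ^ 2 - 1 ≤ 4 * N X U (ng X) ∨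
    ((U.card : ℤ) ≤ 2 * X.card - p ∧ (U.card : ℤ) * (2 * X.card - p) ≤ N X U (ng X)) ∨
    2 * (X.card : ℤ) + U.card - p ≤ 0 := by
  have hp1 : 1 < p := hp.out.one_lt
  have hcX : ((Xᶜ : Finset (ZMod p)).card : ℤ) = p - X.card := by
    rw [card_compl_int, ZMod.card]
  have hng : ((ng X).card : ℤ) = X.card := by
    have := card_ng X
    exact_mod_cast this
  have hC : (((ng X)ᶜ : Finset (ZMod p)).card : ℤ) = p - X.card := by
    rw [card_compl_int, ZMod.card, hng]
  have hmiss : miss X U (ng X)ᶜ = N X U (ng X) := by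
    unfold miss N
    rw [compl_compl]
  have hdl : dl X U (ng X)ᶜ = (2 * (X.card : ℤ) + U.card - p) ^ 2 - 4 * N X U (ng X) := by
    rw [dl_eq_miss, hmiss, hC]; ring
  have hUlt : (U.card : ℤ) < p := by
    have h1 : U.card < (univ : Finset (ZMod p)).card := by
      apply Finset.card_lt_card
      rw [Finset.ssubset_univ_iff]
      intro h; rw [h] at h0; exact h0 (Finset.mem_univ _)
    rw [← card_zmod_int (p := p)]
    exact_mod_cast h1
  rcases good_all (ZMod p) X U (ng X)ᶜ with h | ⟨H, X', Y', Z', hO, hr0, hr⟩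
  · left; rw [hdl] at h; linarith
  · obtain ⟨hX', hY', hZ', k, hk⟩ := hO
    have hdvd : Nat.card H ∣ p := by
      have := AddSubgroup.card_addSubgroup_dvd_card H
      rwa [Nat.card_zmod] at this
    rcases (Nat.dvd_prime hp.out).mp hdvd with h1 | h1
    · left
      have hrle : rho H X U (ng X)ᶜ X' Y' Z' ≤ 1 := by
        unfold rho; rw [h1]
        have := ds3_nonneg X U (ng X)ᶜ X' Y' Z'
        push_cast; linarith
      have : (rho H X U (ng X)ᶜ X' Y' Z') ^ 2 ≤ 1 := by nlinarith
      rw [hdl] at hr; linarith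
    · right
      have hH : H = ⊤ := by
        apply AddSubgroup.eq_top_of_card_eq
        rw [h1, Nat.card_eq_fintype_card, ZMod.card]
      have eX0 := ds_empty X
      have eX1 := ds_univ X
      have eU0 := ds_empty U
      have eU1 := ds_univ U
      have eC0 := ds_empty (ng X)ᶜ
      have eC1 := ds_univ (ng X)ᶜ
      rw [ZMod.card] at eX1 eU1 eC1
      rw [hC] at eC0 eC1
      have hr' : rho H X U (ng X)ᶜ X' Y' Z' = (p:ℤ) - ds3 X U (ng X)ᶜ X' Y' Z' := by
        unfold rho; rw [h1]
      rw [hr'] at hr0 hr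
      rw [h1] at hk
      have hpz : (0:ℤ) < p := by exact_mod_cast hp.out.pos
      rw [hdl] at hr
      rcases per_top hH hX' with rfl | rfl <;> rcases per_top hH hY' with rfl | rfl <;>
        rcases per_top hH hZ' with rfl | rfl <;>
        simp only [ds3, Finset.card_empty, card_zmod_int, Nat.cast_zero] at hk hr0 hr
      · exfalso
        have : (2 * k + 1) * (p:ℤ) = 0 := by linarith
        rcases mul_eq_zero.mp this with h | h <;> omega
      · right; rw [eX0, eU0, eC1] at hr0; linarith
      · exfalso; rw [eX0, eU1, eC0] at hr0; linarith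
      · exfalso
        have : (2 * k + 1 - 2) * (p:ℤ) = 0 := by linarith
        rcases mul_eq_zero.mp this with h | h <;> omega
      · left
        rw [eX1, eU0, eC0] at hr0 hr
        refine ⟨by linarith, ?_⟩
        nlinarith
      · exfalso
        have : (2 * k + 1 - 2) * (p:ℤ) = 0 := by linarith
        rcases mul_eq_zero.mp this with h | h <;> omega
      · exfalso
        have : (2 * k + 1 - 2) * (p:ℤ) = 0 := by linarith
        rcases mul_eq_zero.mp this with h | h <;> omega
      · exfalso; rw [eX1, eU1, eC1] at hr0; linarith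

end

end Pool.Agent.SCH
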