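import Mathlib
import Pool.Agent.Lib_helper26.SCH.Zp
import Pool.Agent.Lib_helper28.GL.Wit

/-!
# Groups of prime exponent: slicing over lines
-/

set_option autoImplicit false
set_option linter.unusedSectionVars false

namespace Pool.Agent.SCH

open Finset Pool.Agent.GL Pool.Agent.Lib_helper42.RS

universe u

/-! ### numerical inequalities -/

/-- even case, one coset -/
lemma num_even {p k T X U q M x u : ℤ} (hT : T = 3 * k - p) (hX : X = x - k) (hU : U = u - k)
    (hq : q = 2 * x + u - p) (hM : 0 ≤ M) (hev : ∃ t, T = 2 * t) (hT0 : 0 ≤ T)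
    (hk : k + 2 ≤ p) (h1 : p - 2 * k - 1 ≤ u) (h2 : 2 * k - p + 1 ≤ u)
    (h : q ^ 2 - 1 ≤ 4 * M ∨ (u ≤ 2 * x - p ∧ u * (2 * x - p) ≤ M) ∨ q ≤ 0) :
    T ^ 2 + 4 * (T + 1) * X + 2 * T * U + 4 * X * U ≤ 4 * M := by
  have hXX : 0 ≤ X * (X - 1) := by
    rcases le_or_gt X 0 with h | h
    · nlinarith
    · nlinarith
  have hqe : q = T + 2 * X + U := by rw [hq, hT, hX, hU]; ring
  have hid : q ^ 2 - (T ^ 2 + 4 * (T + 1) * X + 2 * T * U + 4 * X * U) =
      4 * (X * (X - 1)) + U ^ 2 := by rw [hqe]; ring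
  rcases h with h | ⟨ha, hb⟩ | h
  · -- quadratic region
    rcases Int.even_or_odd U with ⟨v, hv⟩ | ⟨v, hv⟩
    · obtain ⟨t, ht⟩ := hev
      have hq2 : q = 2 * (t + X + v) := by rw [hqe, ht, hv]; ring
      have h4 : (2 * (t + X + v)) ^ 2 - 1 ≤ 4 * M := by rw [← hq2]; exact h
      have h5 : (2 * (t + X + v)) ^ 2 ≤ 4 * M := by
        have : (2 * (t + X + v)) ^ 2 = 4 * (t + X + v) ^ 2 := by ring
        rw [this] at h4 ⊢
        omega
      rw [← hq2] at h5
      nlinarith [sq_nonneg U]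
    · have : 1 ≤ U ^ 2 := by
        have : U ≠ 0 := by omega
        have := sq_nonneg U
        rcases lt_or_gt_of_ne ‹U ≠ 0› with h' | h'
        · nlinarith
        · nlinarith
      nlinarith
  · -- near full region
    set V := U + (p - k) with hV
    have hV1 : 1 ≤ V := by rw [hV, hU]; linarith
    have h2X : V ≤ 2 * X := by rw [hV, hU, hX]; linarith
    have hM2 : q ^ 2 - (2 * x - p - u) ^ 2 = 4 * (u * (2 * x - p)) := by rw [hq]; ring
    have hm : 2 * x - p - u = 2 * X - V := by rw [hV, hU, hX]; ring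
    rw [hm] at hM2
    have hkey : 0 ≤ 4 * (X * (X - 1)) + U ^ 2 - (2 * X - V) ^ 2 := by
      have e : 4 * (X * (X - 1)) + U ^ 2 - (2 * X - V) ^ 2 =
          2 * ((2 * X) * (V - 1)) - V ^ 2 + U ^ 2 := by ring
      rw [e]
      have h3 : V * (V - 1) ≤ (2 * X) * (V - 1) :=
        mul_le_mul_of_nonneg_right h2X (by linarith)
      rcases eq_or_lt_of_le hV1 with hv | hv
      · have hU1 : U ≤ -1 := by rw [← hv] at hV; linarith
        rw [← hv] at h3 ⊢
        nlinarith
      · nlinarith [sq_nonneg U]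
    nlinarith
  · -- empty region
    have hW : U + T + 1 ≥ 0 := by rw [hU, hT]; linarith
    have h3 : 2 * X ≤ -(T + U) := by linarith
    have h4 : 2 * ((2 * X) * (T + 1 + U)) ≤ 2 * (-(T + U) * (T + 1 + U)) := by
      have := mul_le_mul_of_nonneg_right h3 (show 0 ≤ T + 1 + U by linarith)
      linarith
    rcases eq_or_lt_of_le (show -1 ≤ T + U by linarith) with hv | hv
    · have hU1 : U = -T - 1 := by linarith
      subst hU1
      nlinarith
    · nlinarith [sq_nonneg U]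

/-- odd case, one coset -/
lemma num_odd {p k T X U q M x u : ℤ} (hT : T = 3 * k - p) (hX : X = x - k) (hU : U = u - k)
    (hq : q = 2 * x + u - p) (hM : 0 ≤ M) (hev : ∃ t, T = 2 * t + 1) (hT0 : -1 ≤ T)
    (hk : k + 2 ≤ p) (h1 : p - 2 * k - 1 ≤ u) (h2 : 2 * k - p + 1 ≤ u)
    (h : q ^ 2 - 1 ≤ 4 * M ∨ (u ≤ 2 * x - p ∧ u * (2 * x - p) ≤ M) ∨ q ≤ 0) :
    T ^ 2 - 1 + 4 * (T + 1) * X + 2 * (T + 1) * U + 4 * X * U ≤ 4 * M := by
  have hXX : 0 ≤ X * (X - 1) := by
    rcases le_or_gt X 0 with h | h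
    · nlinarith
    · nlinarith
  have hqe : q = T + 2 * X + U := by rw [hq, hT, hX, hU]; ring
  have hid : q ^ 2 - (T ^ 2 - 1 + 4 * (T + 1) * X + 2 * (T + 1) * U + 4 * X * U) =
      4 * (X * (X - 1)) + (U - 1) ^ 2 := by rw [hqe]; ring
  rcases h with h | ⟨ha, hb⟩ | h
  · -- quadratic region
    rcases Int.even_or_odd U with ⟨v, hv⟩ | ⟨v, hv⟩
    · have : 1 ≤ (U - 1) ^ 2 := by
        rcases lt_or_gt_of_ne (show U - 1 ≠ 0 by omega) with h' | h'
        · nlinarith
        · nlinarith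
      nlinarith
    · obtain ⟨t, ht⟩ := hev
      have hq2 : q = 2 * (t + X + v + 1) := by rw [hqe, ht, hv]; ring
      have h4 : (2 * (t + X + v + 1)) ^ 2 - 1 ≤ 4 * M := by rw [← hq2]; exact h
      have h5 : (2 * (t + X + v + 1)) ^ 2 ≤ 4 * M := by
        have : (2 * (t + X + v + 1)) ^ 2 = 4 * (t + X + v + 1) ^ 2 := by ring
        rw [this] at h4 ⊢
        omega
      rw [← hq2] at h5
      nlinarith [sq_nonneg (U - 1)]
  · -- near full region
    set V := U + (p - k) with hV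
    have hV1 : 1 ≤ V := by rw [hV, hU]; linarith
    have h2X : V ≤ 2 * X := by rw [hV, hU, hX]; linarith
    have hM2 : q ^ 2 - (2 * x - p - u) ^ 2 = 4 * (u * (2 * x - p)) := by rw [hq]; ring
    have hm : 2 * x - p - u = 2 * X - V := by rw [hV, hU, hX]; ring
    rw [hm] at hM2
    have hkey : 0 ≤ 4 * (X * (X - 1)) + (U - 1) ^ 2 - (2 * X - V) ^ 2 := by
      have e : 4 * (X * (X - 1)) + (U - 1) ^ 2 - (2 * X - V) ^ 2 =
          2 * ((2 * X) * (V - 1)) - V ^ 2 + (U - 1) ^ 2 := by ring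
      rw [e]
      have h3 : V * (V - 1) ≤ (2 * X) * (V - 1) :=
        mul_le_mul_of_nonneg_right h2X (by linarith)
      rcases eq_or_lt_of_le hV1 with hv | hv
      · have hU1 : U ≤ -1 := by rw [← hv] at hV; linarith
        rw [← hv] at h3 ⊢
        nlinarith
      · nlinarith [sq_nonneg (U - 1)]
    nlinarith
  · -- empty region
    have hW : U + T + 1 ≥ 0 := by rw [hU, hT]; linarith
    have h3 : 2 * X ≤ -(T + U) := by linarith
    have h4 : 2 * ((2 * X) * (T + 1 + U)) ≤ 2 * (-(T + U) * (T + 1 + U)) := by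
      have := mul_le_mul_of_nonneg_right h3 (show 0 ≤ T + 1 + U by linarith)
      linarith
    rcases eq_or_lt_of_le (show -1 ≤ T + U by linarith) with hv | hv
    · have hU1 : U = -T - 1 := by linarith
      subst hU1
      nlinarith
    · nlinarith [sq_nonneg (U - 1)]

end Pool.Agent.SCH
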