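import Mathlib
import Pool.Agent.Lib_helper26.SCH.Slice
import Pool.Agent.Lib_helper26.SCH.E3

/-!
# Groups of prime exponent: slicing over lines, the sums
-/

set_option autoImplicit false
set_option linter.unusedSectionVars false

namespace Pool.Agent.SCH

open Finset Pool.Agent.GL Pool.Agent.Lib_helper42.RS

universe u

lemma N_ng {K : Type*} [AddCommGroup K] [Fintype K] [DecidableEq K] (X U : Finset K) :
    N X U (ng X) = ∑ t, ∑ u, ind X t * ind U u * ind X (t + u) := by
  unfold N tri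
  refine Finset.sum_congr rfl fun t _ => Finset.sum_congr rfl fun u _ => ?_
  congr 1
  unfold ind
  simp

/-- the number of `z` in `A` with `z + y` in `A` -/
def rr {G : Type u} [AddCommGroup G] [Fintype G] [DecidableEq G] (A : Finset G) (y : G) : ℤ :=
  ∑ z, ind A z * ind A (z + y)

section
variable {G : Type u} [AddCommGroup G] [Fintype G] [DecidableEq G]

lemma rr_nonneg (A : Finset G) (y : G) : 0 ≤ rr A y :=
  Finset.sum_nonneg fun _ _ => mul_nonneg (ind_nonneg _ _) (ind_nonneg _ _)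

lemma rr_low (A : Finset G) (y : G) : 2 * (A.card : ℤ) - Fintype.card G ≤ rr A y := by
  have h1 : ∑ z, ind A (z + y) = (A.card : ℤ) := by rw [sum_shift, sum_ind]
  have h2 : ∑ z : G, (ind A z + ind A (z + y) - 1) ≤ rr A y := by
    refine Finset.sum_le_sum fun z _ => ?_
    unfold ind
    split_ifs <;> norm_num
  rw [Finset.sum_sub_distrib, Finset.sum_add_distrib, h1, sum_ind] at h2
  simp only [Finset.sum_const, Finset.card_univ, nsmul_eq_mul, mul_one] at h2
  linarith

lemma schur_rr (A : Finset G) : (schur A : ℤ) = ∑ y, ind A y * rr A y := by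
  rw [schur_eq_sum]
  have h1 : ∀ x : G, ∑ y ∈ A, ind A (x + y) = ∑ y, ind A y * ind A (x + y) := by
    intro x
    rw [sum_ind_mul]
  have h2 : ∑ x ∈ A, ∑ y ∈ A, ind A (x + y) = ∑ x, ind A x * ∑ y ∈ A, ind A (x + y) := by
    rw [sum_ind_mul]
  rw [h2]
  simp only [h1, Finset.mul_sum, rr]
  rw [Finset.sum_comm]
  refine Finset.sum_congr rfl fun y _ => Finset.sum_congr rfl fun x _ => ?_
  ring

variable {p : ℕ} [hp : Fact p.Prime] [Module (ZMod p) G]

/-- the slice of `A` along the line through `g` in the direction `x` -/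
def Xg (A : Finset G) (x g : G) : Finset (ZMod p) := univ.filter (fun t => g + t • x ∈ A)

lemma ind_Xg (A : Finset G) (x g : G) (t : ZMod p) : ind (Xg A x g) t = ind A (g + t • x) := by
  unfold ind Xg
  simp

lemma ind_Xg0 (A : Finset G) (x : G) (t : ZMod p) : ind (Xg A x 0) t = ind A (t • x) := by
  rw [ind_Xg, zero_add]

/-- the contribution of a line -/
def SS (p : ℕ) [Fact p.Prime] [Module (ZMod p) G] (A : Finset G) (x : G) : ℤ :=
  ∑ t : ZMod p, ind A (t • x) * rr A (t • x)

lemma SS_nonneg (A : Finset G) (x : G) : 0 ≤ SS p A x :=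
  Finset.sum_nonneg fun _ _ => mul_nonneg (ind_nonneg _ _) (rr_nonneg _ _)

lemma card_Xg (A : Finset G) (x g : G) :
    ((Xg (p := p) A x g).card : ℤ) = ∑ t : ZMod p, ind A (g + t • x) := by
  rw [← sum_ind]
  exact Finset.sum_congr rfl fun t _ => ind_Xg A x g t

lemma sum_card_Xg (A : Finset G) (x : G) :
    ∑ g, ((Xg (p := p) A x g).card : ℤ) = p * A.card := by
  simp only [card_Xg]
  rw [Finset.sum_comm]
  have : ∀ t : ZMod p, ∑ g, ind A (g + t • x) = (A.card : ℤ) := by
    intro t; rw [sum_shift, sum_ind]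
  simp only [this, Finset.sum_const, Finset.card_univ, ZMod.card, nsmul_eq_mul]

lemma sum_slice (A : Finset G) (x : G) :
    ∑ g, N (Xg (p := p) A x g) (Xg A x 0) (ng (Xg A x g)) = p * SS p A x := by
  simp only [N_ng, ind_Xg, zero_add]
  rw [Finset.sum_comm]
  have h : ∀ t : ZMod p, ∑ g, ∑ u : ZMod p, ind A (g + t • x) * ind A (u • x) *
      ind A (g + (t + u) • x) = SS p A x := by
    intro t
    rw [Finset.sum_comm]
    unfold SS rr
    refine Finset.sum_congr rfl fun u _ => ?_
    rw [Finset.mul_sum, ← sum_shift (fun z => ind A (u • x) * (ind A z * ind A (z + u • x))) (t • x)]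
    refine Finset.sum_congr rfl fun g _ => ?_
    rw [add_smul, ← add_assoc]
    ring
  simp only [h, Finset.sum_const, Finset.card_univ, ZMod.card, nsmul_eq_mul]

lemma SS_triv (A : Finset G) (x : G) :
    ((Xg (p := p) A x 0).card : ℤ) * (2 * A.card - Fintype.card G) ≤ SS p A x := by
  rw [card_Xg, Finset.sum_mul]
  unfold SS
  refine Finset.sum_le_sum fun t _ => ?_
  rw [zero_add]
  exact mul_le_mul_of_nonneg_left (rr_low A _) (ind_nonneg _ _)

/-- the bound for one line, even case -/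
lemma line_even {A : Finset G} (h0 : (0 : G) ∉ A) (x : G) {h k s T : ℤ}
    (hn : (Fintype.card G : ℤ) = p * h) (ha : (A.card : ℤ) = k * h + s) (hs : 0 ≤ s)
    (hsh : s ≤ h) (hT : T = 3 * k - p) (hev : ∃ t, T = 2 * t) (hT0 : 0 ≤ T) (hk : k + 2 ≤ p) :
    (h * T ^ 2 + 4 * s * (T + 1)) + (2 * h * T + 4 * s) * (((Xg (p := p) A x 0).card : ℤ) - k) ≤
      4 * SS p A x := by
  set u : ℤ := ((Xg (p := p) A x 0).card : ℤ) with hu
  have hp0 : (0:ℤ) < p := by exact_mod_cast hp.out.pos
  by_cases c1 : u ≤ p - 2 * k - 2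
  · have h1 : 0 ≤ SS p A x := SS_nonneg A x
    have h2 : u - k ≤ -T - 2 := by rw [hT]; linarith
    have h3 : (2 * h * T + 4 * s) * (u - k) ≤ (2 * h * T + 4 * s) * (-T - 2) := by
      apply mul_le_mul_of_nonneg_left h2
      have := mul_nonneg (show (0:ℤ) ≤ h by linarith) hT0
      linarith
    have h4 : 0 ≤ h * T := mul_nonneg (by linarith) hT0
    nlinarith [mul_nonneg h4 hT0]
  by_cases c2 : u ≤ 2 * k - p
  · have h1 := SS_triv (p := p) A x
    rw [← hu, hn, ha] at h1
    have hid : 4 * (u * (2 * (k * h + s) - p * h)) -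
        ((h * T ^ 2 + 4 * s * (T + 1)) + (2 * h * T + 4 * s) * (u - k)) =
        h * ((p - k) * ((p - k) - 2 * (u - k + (p - k)))) + 4 * s * (u - k + (p - k) - 1) := by
      rw [hT]; ring
    set V := u - k + (p - k) with hV
    have hV0 : V ≤ 0 := by rw [hV]; linarith
    have h5 : 4 * (1 - V) ≤ (p - k) * ((p - k) - 2 * V) := by nlinarith
    have h6 : h * (4 * (1 - V)) ≤ h * ((p - k) * ((p - k) - 2 * V)) :=
      mul_le_mul_of_nonneg_left h5 (by linarith)
    have h7 : s * (4 * (1 - V)) ≤ h * (4 * (1 - V)) :=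
      mul_le_mul_of_nonneg_right hsh (by linarith)
    linarith
  · push Not at c1 c2
    have h0U : (0 : ZMod p) ∉ Xg A x 0 := by
      intro hc
      unfold Xg at hc
      simp only [Finset.mem_filter, Finset.mem_univ, true_and, zero_smul, add_zero] at hc
      exact h0 hc
    have key : ∀ g : G, T ^ 2 + 4 * (T + 1) * (((Xg (p := p) A x g).card : ℤ) - k) +
        2 * T * (u - k) + 4 * (((Xg (p := p) A x g).card : ℤ) - k) * (u - k) ≤
        4 * N (Xg (p := p) A x g) (Xg A x 0) (ng (Xg A x g)) := by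
      intro g
      exact num_even hT rfl rfl rfl (N_nonneg _ _ _) hev hT0 hk (by linarith) (by linarith)
        (zp_low _ _ h0U)
    have hsum := Finset.sum_le_sum (s := univ) fun g _ => key g
    rw [← Finset.mul_sum, sum_slice] at hsum
    have hL : ∑ g : G, (T ^ 2 + 4 * (T + 1) * (((Xg (p := p) A x g).card : ℤ) - k) +
        2 * T * (u - k) + 4 * (((Xg (p := p) A x g).card : ℤ) - k) * (u - k)) =
        p * ((h * T ^ 2 + 4 * s * (T + 1)) + (2 * h * T + 4 * s) * (u - k)) := by
      have e : ∀ g : G, T ^ 2 + 4 * (T + 1) * (((Xg (p := p) A x g).card : ℤ) - k) +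
        2 * T * (u - k) + 4 * (((Xg (p := p) A x g).card : ℤ) - k) * (u - k) =
        (T ^ 2 + 2 * T * (u - k) - 4 * k * (T + 1 + (u - k))) +
          (4 * (T + 1 + (u - k))) * ((Xg (p := p) A x g).card : ℤ) := by intro g; ring
      simp only [e]
      rw [Finset.sum_add_distrib, ← Finset.mul_sum, sum_card_Xg, Finset.sum_const,
        Finset.card_univ, nsmul_eq_mul, hn, ha]
      ring
    rw [hL] at hsum
    have : p * ((h * T ^ 2 + 4 * s * (T + 1)) + (2 * h * T + 4 * s) * (u - k)) ≤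
        (p:ℤ) * (4 * SS p A x) := by linarith
    exact le_of_mul_le_mul_left this hp0

/-- the bound for one line, odd case -/
lemma line_odd {A : Finset G} (h0 : (0 : G) ∉ A) (x : G) {h k s T : ℤ}
    (hn : (Fintype.card G : ℤ) = p * h) (ha : (A.card : ℤ) = k * h + s) (hs : 0 ≤ s)
    (hsh : s ≤ h) (hT : T = 3 * k - p) (hev : ∃ t, T = 2 * t + 1) (hT0 : -1 ≤ T)
    (hk : k + 2 ≤ p) :
    (h * (T ^ 2 - 1) + 4 * s * (T + 1)) +
      (2 * h * (T + 1) + 4 * s) * (((Xg (p := p) A x 0).card : ℤ) - k) ≤ 4 * SS p A x := by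
  set u : ℤ := ((Xg (p := p) A x 0).card : ℤ) with hu
  have hp0 : (0:ℤ) < p := by exact_mod_cast hp.out.pos
  by_cases c1 : u ≤ p - 2 * k - 2
  · have h1 : 0 ≤ SS p A x := SS_nonneg A x
    have h2 : u - k ≤ -T - 2 := by rw [hT]; linarith
    have h4 : 0 ≤ h * (T + 1) := mul_nonneg (by linarith) (by linarith)
    have h3 : (2 * h * (T + 1) + 4 * s) * (u - k) ≤ (2 * h * (T + 1) + 4 * s) * (-T - 2) := by
      apply mul_le_mul_of_nonneg_left h2
      linarith
    nlinarith [mul_nonneg h4 (show (0:ℤ) ≤ T + 1 by linarith)]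
  by_cases c2 : u ≤ 2 * k - p
  · have h1 := SS_triv (p := p) A x
    rw [← hu, hn, ha] at h1
    have hid : 4 * (u * (2 * (k * h + s) - p * h)) -
        ((h * (T ^ 2 - 1) + 4 * s * (T + 1)) + (2 * h * (T + 1) + 4 * s) * (u - k)) =
        h * ((p - k) * ((p - k) - 2 * (u - k + (p - k)))) + 4 * s * (u - k + (p - k) - 1) +
          h * (1 - 2 * (u - k)) := by
      rw [hT]; ring
    set V := u - k + (p - k) with hV
    have hV0 : V ≤ 0 := by rw [hV]; linarith
    have h5 : 4 * (1 - V) ≤ (p - k) * ((p - k) - 2 * V) := by nlinarith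
    have h6 : h * (4 * (1 - V)) ≤ h * ((p - k) * ((p - k) - 2 * V)) :=
      mul_le_mul_of_nonneg_left h5 (by linarith)
    have h7 : s * (4 * (1 - V)) ≤ h * (4 * (1 - V)) :=
      mul_le_mul_of_nonneg_right hsh (by linarith)
    have h8 : 0 ≤ h * (1 - 2 * (u - k)) := mul_nonneg (by linarith) (by rw [hV] at hV0; linarith)
    linarith
  · push Not at c1 c2
    have h0U : (0 : ZMod p) ∉ Xg A x 0 := by
      intro hc
      unfold Xg at hc
      simp only [Finset.mem_filter, Finset.mem_univ, true_and, zero_smul, add_zero] at hc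
      exact h0 hc
    have key : ∀ g : G, T ^ 2 - 1 + 4 * (T + 1) * (((Xg (p := p) A x g).card : ℤ) - k) +
        2 * (T + 1) * (u - k) + 4 * (((Xg (p := p) A x g).card : ℤ) - k) * (u - k) ≤
        4 * N (Xg (p := p) A x g) (Xg A x 0) (ng (Xg A x g)) := by
      intro g
      exact num_odd hT rfl rfl rfl (N_nonneg _ _ _) hev hT0 hk (by linarith) (by linarith)
        (zp_low _ _ h0U)
    have hsum := Finset.sum_le_sum (s := univ) fun g _ => key g
    rw [← Finset.mul_sum, sum_slice] at hsum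
    have hL : ∑ g : G, (T ^ 2 - 1 + 4 * (T + 1) * (((Xg (p := p) A x g).card : ℤ) - k) +
        2 * (T + 1) * (u - k) + 4 * (((Xg (p := p) A x g).card : ℤ) - k) * (u - k)) =
        p * ((h * (T ^ 2 - 1) + 4 * s * (T + 1)) + (2 * h * (T + 1) + 4 * s) * (u - k)) := by
      have e : ∀ g : G, T ^ 2 - 1 + 4 * (T + 1) * (((Xg (p := p) A x g).card : ℤ) - k) +
        2 * (T + 1) * (u - k) + 4 * (((Xg (p := p) A x g).card : ℤ) - k) * (u - k) =
        (T ^ 2 - 1 + 2 * (T + 1) * (u - k) - 4 * k * (T + 1 + (u - k))) +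
          (4 * (T + 1 + (u - k))) * ((Xg (p := p) A x g).card : ℤ) := by intro g; ring
      simp only [e]
      rw [Finset.sum_add_distrib, ← Finset.mul_sum, sum_card_Xg, Finset.sum_const,
        Finset.card_univ, nsmul_eq_mul, hn, ha]
      ring
    rw [hL] at hsum
    have : p * ((h * (T ^ 2 - 1) + 4 * s * (T + 1)) + (2 * h * (T + 1) + 4 * s) * (u - k)) ≤
        (p:ℤ) * (4 * SS p A x) := by linarith
    exact le_of_mul_le_mul_left this hp0

/-- summation over all directions outside `H` -/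
lemma sum_dir (H : AddSubgroup G) [DecidablePred (· ∈ H)] (F : G → ℤ)
    (hF : ∀ y ∈ H, F y = 0) :
    ∑ x ∈ univ.filter (fun x => x ∉ H), ∑ t : ZMod p, F (t • x) = (p - 1) * ∑ y, F y := by
  have h1 : ∑ x ∈ univ.filter (fun x => x ∉ H), ∑ t : ZMod p, F (t • x) =
      ∑ x, ∑ t : ZMod p, F (t • x) := by
    apply Finset.sum_subset (Finset.filter_subset _ _)
    intro x _ hx
    simp only [Finset.mem_filter, Finset.mem_univ, true_and, not_not] at hx
    exact Finset.sum_eq_zero fun t _ => hF _ (ZMod.smul_mem hx t)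
  rw [h1, Finset.sum_comm, ← Finset.add_sum_erase univ _ (Finset.mem_univ (0 : ZMod p))]
  have h2 : ∑ x : G, F ((0 : ZMod p) • x) = 0 := by
    refine Finset.sum_eq_zero fun x _ => ?_
    rw [zero_smul]; exact hF 0 H.zero_mem
  have h3 : ∀ t ∈ (univ : Finset (ZMod p)).erase 0, ∑ x : G, F (t • x) = ∑ y, F y := by
    intro t ht
    have ht0 : t ≠ 0 := (Finset.mem_erase.mp ht).1
    refine Function.Bijective.sum_comp (e := fun x : G => t • x) ?_ F
    refine ⟨fun a b hab => ?_, fun b => ⟨t⁻¹ • b, ?_⟩⟩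
    · have : t⁻¹ • (t • a) = t⁻¹ • (t • b) := by simp only at hab; rw [hab]
      rwa [smul_smul, smul_smul, inv_mul_cancel₀ ht0, one_smul, one_smul] at this
    · simp only
      rw [smul_smul, mul_inv_cancel₀ ht0, one_smul]
  rw [h2, zero_add, Finset.sum_congr rfl h3, Finset.sum_const, Finset.card_erase_of_mem
    (Finset.mem_univ _), Finset.card_univ, ZMod.card, nsmul_eq_mul,
    Nat.cast_sub hp.out.one_lt.le, Nat.cast_one]

end

end Pool.Agent.SCH
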