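import Mathlib
import Pool.Agent.Lib_helper26.SCH.Slice2

/-!
# Groups of prime exponent: the bound when a hyperplane is inside `B`
-/

set_option autoImplicit false
set_option linter.unusedSectionVars false

namespace Pool.Agent.SCH

open Finset Pool.Agent.GL Pool.Agent.Lib_helper42.RS

universe u

lemma Alive.mono {G : Type u} [AddCommGroup G] {H : AddSubgroup G} {t t' : ℕ} (h : Alive H t)
    (ht : t' ≤ t) : Alive H t' := by
  obtain ⟨g, hg⟩ := h
  exact ⟨g, fun i h0 h1 => hg i h0 (lt_of_lt_of_le h1 ht)⟩

section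
variable {G : Type u} [AddCommGroup G] [Fintype G] [DecidableEq G]
variable {p : ℕ} [hp : Fact p.Prime] [Module (ZMod p) G]

lemma alive_prime {H : AddSubgroup G} (hH : H ≠ ⊤) : Alive H p := by
  obtain ⟨g, hg⟩ : ∃ g, g ∉ H := by
    by_contra hc
    push Not at hc
    exact hH (AddSubgroup.eq_top_iff' H |>.2 hc)
  refine ⟨g, fun i h0 h1 hi => hg ?_⟩
  have hi0 : (i : ZMod p) ≠ 0 := by
    intro h
    rw [ZMod.natCast_eq_zero_iff] at h
    exact absurd (Nat.le_of_dvd h0 h) (not_le.mpr h1)
  have h2 := ZMod.smul_mem (n := p) hi ((i : ZMod p)⁻¹)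
  rwa [← Nat.cast_smul_eq_nsmul (ZMod p) i g, smul_smul, inv_mul_cancel₀ hi0, one_smul] at h2

/-- the two lower bounds for the number of Schur triples of `A`, when `A` avoids the subgroup `H`
of index `p` -/
theorem slice_low (H : AddSubgroup G) {A : Finset G} (hA : ∀ x ∈ H, x ∉ A) {h k s T : ℤ}
    (hh : (Nat.card H : ℤ) = h) (hn : (Fintype.card G : ℤ) = p * h)
    (ha : (A.card : ℤ) = k * h + s) (hs : 0 ≤ s) (hsh : s ≤ h) (hT : T = 3 * k - p)
    (hT0 : -1 ≤ T) (hk : k + 2 ≤ p) :
    ((∃ t, T = 2 * t) → h ^ 2 * T ^ 2 + 6 * h * s * T + 4 * h * s + 4 * s ^ 2 ≤ 4 * schur A) ∧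
    ((∃ t, T = 2 * t + 1) → h ^ 2 * (T ^ 2 - 1) + 6 * h * s * (T + 1) + 4 * s ^ 2 ≤ 4 * schur A) := by
  classical
  have h0 : (0 : G) ∉ A := hA 0 H.zero_mem
  have hp1 : (0:ℤ) < p - 1 := by
    have := hp.out.one_lt
    have : (1:ℤ) < p := by exact_mod_cast this
    linarith
  have hcard : (((univ : Finset G).filter (fun x => x ∉ H)).card : ℤ) = (p - 1) * h := by
    have h1 := Finset.card_filter_add_card_filter_not (s := (univ : Finset G)) (fun x => x ∈ H)
    have h2 : ((univ : Finset G).filter (fun x => x ∈ H)).card = Nat.card H := by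
      rw [Nat.card_eq_fintype_card, Fintype.card_subtype]
    rw [h2, Finset.card_univ] at h1
    have h3 : (Nat.card H : ℤ) + (((univ : Finset G).filter (fun x => x ∉ H)).card : ℤ) =
        Fintype.card G := by exact_mod_cast h1
    rw [hh, hn] at h3
    linarith
  have hU : ∑ x ∈ univ.filter (fun x => x ∉ H), ((Xg (p := p) A x 0).card : ℤ) =
      (p - 1) * A.card := by
    rw [← sum_ind A, ← sum_dir (p := p) H (fun y => ind A y)
      (fun y hy => ind_not_mem (hA y hy))]
    refine Finset.sum_congr rfl fun x _ => ?_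
    rw [card_Xg]
    simp only [zero_add]
  have hS : ∑ x ∈ univ.filter (fun x => x ∉ H), SS p A x = (p - 1) * schur A := by
    rw [schur_rr, ← sum_dir (p := p) H (fun y => ind A y * rr A y)
      (fun y hy => by rw [ind_not_mem (hA y hy), zero_mul])]
    rfl
  have agg : ∀ c d : ℤ, (∀ x : G, c + d * (((Xg (p := p) A x 0).card : ℤ) - k) ≤
      4 * SS p A x) → h * c + d * s ≤ 4 * schur A := by
    intro c d hcd
    have h1 := Finset.sum_le_sum (s := univ.filter (fun x => x ∉ H)) fun x _ => hcd x
    rw [← Finset.mul_sum, hS] at h1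
    have h2 : ∑ x ∈ univ.filter (fun x => x ∉ H),
        (c + d * (((Xg (p := p) A x 0).card : ℤ) - k)) = (p - 1) * (h * c + d * s) := by
      rw [Finset.sum_add_distrib, ← Finset.mul_sum, Finset.sum_sub_distrib, hU, Finset.sum_const,
        Finset.sum_const, nsmul_eq_mul, nsmul_eq_mul, hcard, ha]
      ring
    rw [h2] at h1
    have h3 : ((p:ℤ) - 1) * (h * c + d * s) ≤ (p - 1) * (4 * schur A) := by linarith
    exact le_of_mul_le_mul_left h3 hp1
  constructor
  · intro hev
    have hT1 : 0 ≤ T := by obtain ⟨t, ht⟩ := hev; omega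
    have := agg _ _ fun x => line_even (p := p) h0 x hn ha hs hsh hT hev hT1 hk
    linarith
  · intro hodd
    have := agg _ _ fun x => line_odd (p := p) h0 x hn ha hs hsh hT hodd hT0 hk
    linarith

/-- **prime exponent, a hyperplane inside `B`** -/
theorem slice_Bd (H : AddSubgroup G) (hH : Fintype.card G = p * Nat.card H) {B : Finset G}
    (hB : ∀ x ∈ H, x ∈ B) {k s : ℕ} (hks : Fintype.card G = B.card + k * Nat.card H + s)
    (hsh : s < Nat.card H) (hT : p ≤ 3 * k + 1) : Bd G B.card (FF B) := by
  have hp1 := hp.out.one_lt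
  have hHpos : 0 < Nat.card H := Nat.card_pos
  have hHtop : H ≠ ⊤ := by
    intro h
    rw [h, AddSubgroup.card_top, Nat.card_eq_fintype_card] at hH
    have : 0 < Fintype.card G := Fintype.card_pos
    nlinarith
  have hHB : Nat.card H ≤ B.card := by
    classical
    have h2 : ((univ : Finset G).filter (fun x => x ∈ H)).card = Nat.card H := by
      rw [Nat.card_eq_fintype_card, Fintype.card_subtype]
    rw [← h2]
    apply Finset.card_le_card
    intro x hx
    simp only [Finset.mem_filter, Finset.mem_univ, true_and] at hx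
    exact hB x hx
  have hcomp : (((Bᶜ : Finset G)).card : ℤ) = Fintype.card G - B.card := card_compl_int B
  have hksz : (Fintype.card G : ℤ) = B.card + k * Nat.card H + s := by exact_mod_cast hks
  have hHz : (Fintype.card G : ℤ) = p * Nat.card H := by exact_mod_cast hH
  by_cases hk : k + 2 ≤ p
  · have hlow := slice_low (p := p) H (A := Bᶜ) (h := Nat.card H) (k := k) (s := s)
      (T := 3 * k - p) (fun x hx => by simpa using hB x hx) rfl hHz
      (by rw [hcomp]; linarith) (by positivity) (by exact_mod_cast hsh.le) rfl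
      (by have : (p:ℤ) ≤ 3 * k + 1 := by exact_mod_cast hT
          linarith) (by exact_mod_cast hk)
    have hF := four_schur_compl B
    rw [hcomp] at hF
    rcases Nat.even_or_odd' (p - k) with ⟨j, hj | hj⟩
    · -- even case: `b = (2 (j-1) + 1) h + (h - s)`
      have hj1 : 1 ≤ j := by omega
      have hl := hlow.1 ⟨k - j, by
        have : (p:ℤ) - k = 2 * j := by
          have : ((p - k : ℕ) : ℤ) = 2 * j := by exact_mod_cast hj
          rwa [Nat.cast_sub (by omega)] at this
        linarith⟩
      have hpk : (p:ℤ) = k + 2 * j := by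
        have : ((p - k : ℕ) : ℤ) = 2 * j := by exact_mod_cast hj
        rw [Nat.cast_sub (by omega)] at this
        linarith
      refine ⟨_, Or.inr ⟨H, j - 1, Nat.card H - s, Nat.sub_le _ _, rfl, Or.inr ⟨?_, ?_⟩⟩, ?_⟩
      · zify [hsh.le, hj1]
        have e : (B.card : ℤ) = p * Nat.card H - k * Nat.card H - s := by linarith
        rw [e, hpk]; ring
      · exact Alive.mono (alive_prime (p := p) hHtop) (by omega)
      · rw [Nat.cast_sub hsh.le]
        have e : 3 * ((Fintype.card G : ℤ) - B.card) - Fintype.card G =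
            (3 * k - p) * Nat.card H + 3 * s := by
          rw [show (Fintype.card G : ℤ) - B.card = k * Nat.card H + s by linarith, hHz]; ring
        rw [e] at hF
        nlinarith
    · -- odd case
      have hl := hlow.2 ⟨k - j - 1, by
        have : (p:ℤ) - k = 2 * j + 1 := by
          have : ((p - k : ℕ) : ℤ) = 2 * j + 1 := by exact_mod_cast hj
          rwa [Nat.cast_sub (by omega)] at this
        linarith⟩
      have hpk : (p:ℤ) = k + 2 * j + 1 := by
        have : ((p - k : ℕ) : ℤ) = 2 * j + 1 := by exact_mod_cast hj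
        rw [Nat.cast_sub (by omega)] at this
        linarith
      refine ⟨_, Or.inr ⟨H, j, s, hsh.le, rfl, Or.inl ⟨?_, ?_⟩⟩, ?_⟩
      · zify
        have e : (B.card : ℤ) = p * Nat.card H - k * Nat.card H - s := by linarith
        rw [e, hpk]; ring
      · exact Alive.mono (alive_prime (p := p) hHtop) (by omega)
      · have e : 3 * ((Fintype.card G : ℤ) - B.card) - Fintype.card G =
            (3 * k - p) * Nat.card H + 3 * s := by
          rw [show (Fintype.card G : ℤ) - B.card = k * Nat.card H + s by linarith, hHz]; ring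
        rw [e] at hF
        nlinarith
  · -- `B = H`
    push Not at hk
    have hb : B.card = Nat.card H := by
      have h1 : Fintype.card G = B.card + k * Nat.card H + s := hks
      have h2 : (p - 1) * Nat.card H ≤ k * Nat.card H := Nat.mul_le_mul_right _ (by omega)
      have h3 : (p - 1) * Nat.card H = p * Nat.card H - Nat.card H := by
        rw [Nat.sub_mul, one_mul]
      omega
    refine ⟨_, Or.inr ⟨H, 0, 0, Nat.zero_le _, rfl, Or.inl ⟨by omega, 0, ?_⟩⟩, ?_⟩
    · intro i h1 h2; omega
    · have := FF_le_sq B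
      rw [hb] at this
      push_cast
      nlinarith

end

end Pool.Agent.SCH
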