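import Mathlib
import Pool.Agent.Lib_helper26.SCH.Triv
import Pool.Agent.Lib_helper28.GL.Glue

/-!
# Surjections onto `ZMod q` and the witnesses they give
-/

set_option autoImplicit false
set_option linter.unusedSectionVars false

namespace Pool.Agent.SCH

open Finset Pool.Agent.GL Pool.Agent.Lib_helper42.RS

universe u

/-- an element of order `q` gives a surjection onto `ZMod q` -/
theorem exists_surj_of_order {G : Type u} [AddCommGroup G] [Finite G] (g : G) :
    ∃ φ : G →+ ZMod (addOrderOf g), Function.Surjective φ := by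
  classical
  set q := addOrderOf g with hq
  have hq0 : 0 < q := addOrderOf_pos g
  have : NeZero q := ⟨hq0.ne'⟩
  have : HasEnoughRootsOfUnity ℂ (Monoid.exponent (Multiplicative G)) := by
    have : NeZero (Monoid.exponent (Multiplicative G)) :=
      ⟨Monoid.exponent_ne_zero_of_finite⟩
    infer_instance
  obtain ⟨E⟩ := CommGroup.monoidHom_mulEquiv_of_hasEnoughRootsOfUnity (Multiplicative G) ℂ
  set f : Multiplicative G →* ℂˣ := E.symm (Multiplicative.ofAdd g) with hf
  have hof : orderOf f = q := by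
    rw [hf, MulEquiv.orderOf_eq, orderOf_ofAdd_eq_addOrderOf]
  have hfin : Finite f.range := Finite.of_surjective f.rangeRestrict f.rangeRestrict_surjective
  have hcyc : IsCyclic f.range := inferInstance
  have hcard : Nat.card f.range = q := by
    rw [← IsCyclic.exponent_eq_card, ← hof]
    apply Nat.dvd_antisymm
    · apply Monoid.exponent_dvd_of_forall_pow_eq_one
      rintro ⟨y, x, rfl⟩
      apply Subtype.ext
      have h1 : (f ^ orderOf f) x = 1 := by rw [pow_orderOf_eq_one]; rfl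
      rw [MonoidHom.pow_apply] at h1
      exact h1
    · apply orderOf_dvd_of_pow_eq_one
      refine MonoidHom.ext fun x => Units.ext ?_
      have h1 := Monoid.pow_exponent_eq_one (⟨f x, x, rfl⟩ : f.range)
      have h2 := congrArg (Subtype.val) h1
      simp only [SubmonoidClass.coe_pow, OneMemClass.coe_one] at h2
      rw [MonoidHom.pow_apply]
      exact congrArg Units.val h2
  let e : Multiplicative (ZMod q) ≃* f.range := hcard ▸ zmodCyclicMulEquiv hcyc
  let φ₀ : G →+ ZMod q :=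
    AddMonoidHom.toMultiplicative.symm ((e.symm : f.range →* Multiplicative (ZMod q)).comp
      f.rangeRestrict)
  refine ⟨φ₀, ?_⟩
  intro y
  obtain ⟨x, hx⟩ := f.rangeRestrict_surjective (e (Multiplicative.ofAdd y))
  refine ⟨Multiplicative.toAdd x, ?_⟩
  show Multiplicative.toAdd (e.symm (f.rangeRestrict x)) = y
  rw [hx, MulEquiv.symm_apply_apply]
  rfl

section
variable {G : Type u} [AddCommGroup G] [Fintype G] [DecidableEq G]

lemma ker_alive {q : ℕ} [NeZero q] (ψ : G →+ ZMod q) (hψ : Function.Surjective ψ) :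
    Alive ψ.ker q := by
  obtain ⟨g, hg⟩ := hψ 1
  refine ⟨g, fun i h0 h1 hi => ?_⟩
  rw [AddMonoidHom.mem_ker, map_nsmul, hg, nsmul_one, ZMod.natCast_eq_zero_iff] at hi
  exact absurd (Nat.le_of_dvd h0 hi) (not_le.mpr h1)

/-- the witness given by `ker ψ`: below an odd multiple -/
lemma wit_below {q : ℕ} [NeZero q] (ψ : G →+ ZMod q) (hψ : Function.Surjective ψ) {b j s : ℕ}
    (hb : b + s = (2 * j + 1) * Nat.card ψ.ker) (hs : s ≤ Nat.card ψ.ker) (hj : 3 * j + 1 ≤ q) :
    ((Nat.card ψ.ker : ℤ) - s) * ((Nat.card ψ.ker : ℤ) - 5 * s) ≤ fG G b := by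
  apply le_fG
  refine Or.inr ⟨ψ.ker, j, s, hs, rfl, Or.inl ⟨hb, ?_⟩⟩
  obtain ⟨g, hg⟩ := ker_alive ψ hψ
  exact ⟨g, fun i h0 h1 => hg i h0 (lt_of_lt_of_le h1 hj)⟩

/-- the witness given by `ker ψ`: above an odd multiple -/
lemma wit_above {q : ℕ} [NeZero q] (ψ : G →+ ZMod q) (hψ : Function.Surjective ψ) {b j s : ℕ}
    (hb : b = (2 * j + 1) * Nat.card ψ.ker + s) (hs : s ≤ Nat.card ψ.ker) (hj : 3 * j + 2 ≤ q) :
    ((Nat.card ψ.ker : ℤ) - s) * ((Nat.card ψ.ker : ℤ) - 5 * s) ≤ fG G b := by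
  apply le_fG
  refine Or.inr ⟨ψ.ker, j, s, hs, rfl, Or.inr ⟨hb, ?_⟩⟩
  obtain ⟨g, hg⟩ := ker_alive ψ hψ
  exact ⟨g, fun i h0 h1 => hg i h0 (lt_of_lt_of_le h1 hj)⟩

/-- position of `b` relative to the odd multiples of `h` -/
lemma exists_pos {h : ℕ} (hh : 0 < h) (b : ℕ) :
    ∃ j s : ℕ, s ≤ h ∧ ((b + s = (2 * j + 1) * h ∧ 2 * j * h ≤ b) ∨
      (b = (2 * j + 1) * h + s ∧ b < (2 * j + 2) * h)) := by
  have h1 := Nat.div_add_mod b (2 * h)
  have h2 := Nat.mod_lt b (show 0 < 2 * h by omega)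
  set j := b / (2 * h) with hj
  set r := b % (2 * h) with hr
  rcases le_or_gt r h with hc | hc
  · refine ⟨j, h - r, by omega, Or.inl ⟨?_, ?_⟩⟩
    · have : b = 2 * h * j + r := by omega
      rw [this]
      have e : (2 * j + 1) * h = 2 * h * j + h := by ring
      rw [e]; omega
    · have : 2 * j * h = 2 * h * j := by ring
      omega
  · refine ⟨j, r - h, by omega, Or.inr ⟨?_, ?_⟩⟩
    · have e : (2 * j + 1) * h = 2 * h * j + h := by ring
      rw [e]; omega
    · have e : (2 * j + 2) * h = 2 * h * j + 2 * h := by ring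
      rw [e]; omega

/-- **lower bound of `f_G`** from a surjection onto `ZMod q`, for `3 b < 2 n` -/
theorem fG_ge_q {q : ℕ} [NeZero q] (ψ : G →+ ZMod q) (hψ : Function.Surjective ψ) {b : ℕ}
    (hb : 3 * b < 2 * Fintype.card G) : -4 * (Nat.card ψ.ker : ℤ) ^ 2 ≤ 5 * fG G b := by
  have hh : 0 < Nat.card ψ.ker := Nat.card_pos
  have hn := card_ker_mul ψ hψ
  obtain ⟨j, s, hs, h | h⟩ := exists_pos hh b
  · have hj : 3 * j + 1 ≤ q := by
      by_contra hc
      have h3 : q * Nat.card ψ.ker ≤ 3 * j * Nat.card ψ.ker := Nat.mul_le_mul_right _ (by omega)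
      rw [← hn] at h3
      have h4 : 3 * (2 * j * Nat.card ψ.ker) ≤ 3 * b := Nat.mul_le_mul_left 3 h.2
      have h5 : 3 * (2 * j * Nat.card ψ.ker) = 2 * (3 * j * Nat.card ψ.ker) := by ring
      omega
    have := wit_below ψ hψ h.1 hs hj
    nlinarith [sq_nonneg ((5:ℤ) * s - 3 * (Nat.card ψ.ker : ℤ))]
  · have hj : 3 * j + 2 ≤ q := by
      by_contra hc
      have h3 : 2 * (q * Nat.card ψ.ker) ≤ 2 * ((3 * j + 1) * Nat.card ψ.ker) :=
        Nat.mul_le_mul_left 2 (Nat.mul_le_mul_right _ (by omega))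
      rw [← hn] at h3
      have h4 : 3 * ((2 * j + 1) * Nat.card ψ.ker) ≤ 3 * b := by rw [h.1]; omega
      have h5 : 3 * ((2 * j + 1) * Nat.card ψ.ker) =
          2 * ((3 * j + 1) * Nat.card ψ.ker) + Nat.card ψ.ker := by ring
      omega
    have := wit_above ψ hψ h.1 hs hj
    nlinarith [sq_nonneg ((5:ℤ) * s - 3 * (Nat.card ψ.ker : ℤ))]

end

end Pool.Agent.SCH
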