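import Mathlib
import Pool.Agent.Lib_helper26.SCH.Quo
import Pool.Agent.Lib_helper13.PL.FOU2

/-!
# Even order and `β ≥ 9/20`
-/

set_option autoImplicit false
set_option linter.unusedSectionVars false

namespace Pool.Agent.SCH

open Finset Pool.Agent.GL Pool.Agent.Lib_helper42.RS Pool.Agent.Lib_helper13.PL

universe u

section
variable {G : Type u} [AddCommGroup G] [Fintype G] [DecidableEq G]

/-- Parseval for a character of order at least three -/
lemma two_re_sq {m : ℕ} (hm : 3 ≤ m) {χ : AddChar G ℂ} {φ : G →+ ZMod m}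
    (hφ : Function.Surjective φ) (hstd : Std χ φ) (B : Finset G) :
    2 * (hat B χ).re ^ 2 + (B.card : ℝ) ^ 2 ≤ (Fintype.card G : ℝ) * B.card := by
  have hm0 : (0 : ℝ) < m := by positivity
  -- a point where `χ` is not real
  obtain ⟨g, hg⟩ := hφ 1
  have him : (χ g).im ≠ 0 := by
    have : Fact (1 < m) := ⟨by omega⟩
    have h1 : ((1 : ZMod m)).valMinAbs = 1 := by
      have h2 : ((1 : ℕ) : ZMod m).valMinAbs = ((1 : ℕ) : ℤ) :=
        ZMod.valMinAbs_natCast_of_le_half (by omega)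
      simpa using h2
    rw [hstd g, hg, h1, Complex.exp_ofReal_mul_I_im]
    apply ne_of_gt
    apply Real.sin_pos_of_pos_of_lt_pi
    · have := Real.pi_pos; positivity
    · rw [div_lt_iff₀ hm0]
      have h3 : (3 : ℝ) ≤ m := by exact_mod_cast hm
      push_cast
      nlinarith [Real.pi_pos]
  have hconj : ∀ ψ : AddChar G ℂ, hat B (-ψ) = (starRingEnd ℂ) (hat B ψ) := by
    intro ψ
    unfold hat
    rw [map_sum]
    refine Finset.sum_congr rfl fun x _ => ?_
    rw [AddChar.neg_apply, AddChar.map_neg_eq_conj]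
  have h0 : (0 : AddChar G ℂ) ≠ χ := by
    intro h
    apply him
    rw [← h]
    simp
  have h1 : (0 : AddChar G ℂ) ≠ -χ := by
    intro h
    exact h0 (by rw [← neg_neg χ, ← h, neg_zero])
  have h2 : χ ≠ -χ := by
    intro h
    apply him
    have h3 : χ g = (starRingEnd ℂ) (χ g) := by
      conv_lhs => rw [h]
      rw [AddChar.neg_apply, AddChar.map_neg_eq_conj]
    have h4 := congrArg Complex.im h3
    rw [Complex.conj_im] at h4
    linarith
  have hsum : ∑ ψ ∈ ({0, χ, -χ} : Finset (AddChar G ℂ)), Complex.normSq (hat B ψ) ≤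
      ∑ ψ : AddChar G ℂ, Complex.normSq (hat B ψ) :=
    Finset.sum_le_sum_of_subset_of_nonneg (Finset.subset_univ _) fun _ _ _ =>
      Complex.normSq_nonneg _
  rw [parseval B, Finset.sum_insert (by simp [h0, h1]), Finset.sum_insert (by simp [h2]),
    Finset.sum_singleton, hconj, Complex.normSq_conj, hat_zero] at hsum
  have h5 : (hat B χ).re ^ 2 ≤ Complex.normSq (hat B χ) := by
    rw [Complex.normSq_apply]
    nlinarith [mul_self_nonneg (hat B χ).im]
  have h6 : Complex.normSq ((B.card : ℂ)) = (B.card : ℝ) ^ 2 := by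
    rw [Complex.normSq_natCast]; ring
  rw [h6] at hsum
  linarith

/-- even order, `9/20 < β < 1/2`, `m ≥ 3` : contradiction -/
theorem even_case {m : ℕ} (hm : 3 ≤ m) {B : Finset G} {χ : AddChar G ℂ} {φ : G →+ ZMod m}
    (hφ : Function.Surjective φ) (hstd : Std χ φ) (hbig : fG G B.card < GL.FF B)
    (hfou : (Fintype.card G : ℝ) * (((GL.FF B : ℤ) : ℝ) + 3 * (B.card : ℝ) ^ 2) ≤
      4 * (B.card : ℝ) ^ 3 +
        4 * (hat B χ).re * ((Fintype.card G : ℝ) * B.card - (B.card : ℝ) ^ 2))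
    (htriv : ∀ (q : ℕ) [NeZero q] (ψ : G →+ ZMod q), Function.Surjective ψ →
      q * B.card + ((q + 1) / 3) * Fintype.card G < q * Fintype.card G)
    (h2 : 2 ∣ Fintype.card G) (hb : 9 * Fintype.card G < 20 * B.card) : False := by
  have : Fact (Nat.Prime 2) := ⟨Nat.prime_two⟩
  obtain ⟨w, hw⟩ := exists_prime_addOrderOf_dvd_card 2 (G := G) h2
  obtain ⟨ψ, hψ⟩ := exists_surj_of_order w
  have hne : NeZero (addOrderOf w) := ⟨by rw [hw]; norm_num⟩
  have h3 := htriv (addOrderOf w) ψ hψ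
  rw [hw] at h3
  have h3' : 2 * B.card < Fintype.card G := by norm_num at h3; omega
  have e0 : addOrderOf w * Nat.card ψ.ker = 2 * Nat.card ψ.ker :=
    congrArg (fun t => t * Nat.card ψ.ker) hw
  have h4 := (card_ker_mul ψ hψ).trans e0
  have h5 := wit_below ψ hψ (b := B.card) (j := 0) (s := Nat.card ψ.ker - B.card) (by omega)
    (by omega) (by omega)
  have h6 := two_re_sq hm hφ hstd B
  have hsub : B.card ≤ Nat.card ψ.ker := by omega
  rw [Nat.cast_sub hsub] at h5
  have h7 : (((Nat.card ψ.ker : ℤ) - ((Nat.card ψ.ker : ℤ) - (B.card : ℤ))) *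
      ((Nat.card ψ.ker : ℤ) - 5 * ((Nat.card ψ.ker : ℤ) - (B.card : ℤ)))) ≤ GL.FF B := by
    linarith
  have h8 : ((((Nat.card ψ.ker : ℤ) - ((Nat.card ψ.ker : ℤ) - (B.card : ℤ))) *
      ((Nat.card ψ.ker : ℤ) - 5 * ((Nat.card ψ.ker : ℤ) - (B.card : ℤ))) : ℤ) : ℝ) ≤
      ((GL.FF B : ℤ) : ℝ) := by exact_mod_cast h7
  push_cast at h8
  have h4R : (Fintype.card G : ℝ) = 2 * (Nat.card ψ.ker : ℝ) := by exact_mod_cast h4
  have hbR : 9 * (Fintype.card G : ℝ) < 20 * (B.card : ℝ) := by exact_mod_cast hb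
  have h3R : 2 * (B.card : ℝ) < (Fintype.card G : ℝ) := by exact_mod_cast h3'
  rw [h4R] at h6 hfou hbR h3R
  have hh0 : (0 : ℝ) < (Nat.card ψ.ker : ℝ) := by exact_mod_cast Nat.card_pos
  generalize (Nat.card ψ.ker : ℝ) = h at *
  generalize (B.card : ℝ) = b at *
  generalize ((GL.FF B : ℤ) : ℝ) = F at *
  generalize (hat B χ).re = r at *
  -- `F ≥ b (5 b - 4 h)`
  have hF : b * (5 * b - 4 * h) ≤ F := by linarith
  have hb0 : 0 < b := by linarith
  have h9 : 2 * h * (b * (5 * b - 4 * h) + 3 * b ^ 2) ≤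
      4 * b ^ 3 + 4 * r * (b * (2 * h - b)) := by
    have : 2 * h * (b * (5 * b - 4 * h) + 3 * b ^ 2) ≤ 2 * h * (F + 3 * b ^ 2) :=
      mul_le_mul_of_nonneg_left (by linarith) (by linarith)
    linarith
  have h10 : b * (2 * h * (8 * b - 4 * h) - 4 * b ^ 2 - 4 * r * (2 * h - b)) ≤ 0 := by nlinarith
  have h11 : 2 * h * (8 * b - 4 * h) - 4 * b ^ 2 - 4 * r * (2 * h - b) ≤ 0 := by
    by_contra hc
    push Not at hc
    have := mul_pos hb0 hc
    linarith
  -- `r ≤ 71/100 h`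
  have hr : r ≤ 71 / 100 * h := by
    have : r ^ 2 ≤ (71 / 100 * h) ^ 2 := by nlinarith [sq_nonneg (b - h)]
    exact le_of_sq_le_sq this (by positivity)
  nlinarith [mul_le_mul_of_nonneg_right hr (show (0:ℝ) ≤ 4 * (2 * h - b) by linarith)]

end

end Pool.Agent.SCH
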