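import Mathlib
import Pool.Agent.Lib_helper26.SCH.Quo
import Pool.Agent.Lib_helper13.PL.FOU2

/-!
# The case `m = 3`
-/

set_option autoImplicit false
set_option linter.unusedSectionVars false

namespace Pool.Agent.SCH

open Finset Pool.Agent.GL Pool.Agent.Lib_helper42.RS Pool.Agent.Lib_helper13.PL

universe u

/-- elements of order `6` resp. of an order `q ≥ 9` divisible by `3` -/
lemma exists_order_q {G : Type u} [AddCommGroup G] [Fintype G]
    (h3 : 3 ∣ Fintype.card G) (hexp : ¬ ∀ g : G, g + g + g = 0) :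
    ((∃ w : G, addOrderOf w = 2) ∧ ∃ g : G, addOrderOf g = 6) ∨
      ∃ (g : G) (k : ℕ), addOrderOf g = 3 * k ∧ 3 ≤ k := by
  have : Fact (Nat.Prime 3) := ⟨Nat.prime_three⟩
  have : Fact (Nat.Prime 2) := ⟨Nat.prime_two⟩
  obtain ⟨t, ht⟩ := exists_prime_addOrderOf_dvd_card 3 (G := G) h3
  by_cases h2 : 2 ∣ Fintype.card G
  · left
    obtain ⟨w, hw⟩ := exists_prime_addOrderOf_dvd_card 2 (G := G) h2
    refine ⟨⟨w, hw⟩, w + t, ?_⟩
    rw [(AddCommute.all w t).addOrderOf_add_eq_mul_addOrderOf_of_coprime (by rw [hw, ht]; decide),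
      hw, ht]
  · right
    push Not at hexp
    obtain ⟨g, hg⟩ := hexp
    have hdvd : addOrderOf g ∣ Fintype.card G := addOrderOf_dvd_card
    have hpos : 0 < addOrderOf g := addOrderOf_pos g
    have hodd : ¬ 2 ∣ addOrderOf g := fun h => h2 (h.trans hdvd)
    have hne : ¬ addOrderOf g ∣ 3 := by
      intro h
      apply hg
      have h4 : 3 • g = 0 := addOrderOf_dvd_iff_nsmul_eq_zero.mp h
      rw [show (3:ℕ) = 1 + 1 + 1 from rfl, add_smul, add_smul, one_smul] at h4
      exact h4
    by_cases h3g : 3 ∣ addOrderOf g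
    · obtain ⟨k, hk⟩ := h3g
      refine ⟨g, k, hk, ?_⟩
      by_contra hc
      have : k = 0 ∨ k = 1 ∨ k = 2 := by omega
      rcases this with rfl | rfl | rfl
      · omega
      · exact hne (by rw [hk])
      · exact hodd ⟨3, by rw [hk]⟩
    · have hco : Nat.Coprime (addOrderOf g) (addOrderOf t) := by
        rw [ht, Nat.coprime_comm, Nat.Prime.coprime_iff_not_dvd Nat.prime_three]
        exact h3g
      refine ⟨g + t, addOrderOf g, ?_, ?_⟩
      · rw [(AddCommute.all g t).addOrderOf_add_eq_mul_addOrderOf_of_coprime hco, ht, mul_comm]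
      · by_contra hc
        have : addOrderOf g = 1 ∨ addOrderOf g = 2 := by omega
        rcases this with h | h
        · exact hne (by rw [h]; exact one_dvd _)
        · exact hodd (by rw [h])

section
variable {G : Type u} [AddCommGroup G] [Fintype G] [DecidableEq G]

/-- the real part for `m = 3` -/
lemma re_three {χ : AddChar G ℂ} {φ : G →+ ZMod 3} (h : Std χ φ) (B : Finset G) :
    (hat B χ).re = (3 * ((B.filter (fun x => φ x = 0)).card : ℝ) - B.card) / 2 := by
  rw [hat_re_eq B h]
  have hc : Real.cos (2 * Real.pi / 3) = -(1 / 2) := by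
    have : 2 * Real.pi / 3 = Real.pi - Real.pi / 3 := by ring
    rw [this, Real.cos_pi_sub, Real.cos_pi_div_three]
  have e : ∀ x ∈ B, Real.cos (2 * Real.pi * (φ x).valMinAbs / (3 : ℕ)) =
      (3 / 2) * (if φ x = 0 then 1 else 0) - 1 / 2 := by
    intro x _
    have h2 : φ x = 0 ∨ φ x = 1 ∨ φ x = 2 := by
      generalize φ x = z
      revert z; decide
    rcases h2 with h0 | h1 | h1
    · rw [h0, if_pos rfl]
      simp
      norm_num
    · rw [h1, if_neg (by decide)]
      have : ((1 : ZMod 3)).valMinAbs = 1 := by decide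
      rw [this]
      push_cast
      rw [show 2 * Real.pi * 1 / 3 = 2 * Real.pi / 3 by ring, hc]
      norm_num
    · rw [h1, if_neg (by decide)]
      have : ((2 : ZMod 3)).valMinAbs = -1 := by decide
      rw [this]
      push_cast
      rw [show 2 * Real.pi * (-1) / 3 = -(2 * Real.pi / 3) by ring, Real.cos_neg, hc]
      norm_num
  rw [Finset.sum_congr rfl e, Finset.sum_sub_distrib, ← Finset.mul_sum, ← Finset.sum_filter]
  simp
  ring

/-- the case `m = 3` : contradiction -/
theorem m3_case {B : Finset G} {χ : AddChar G ℂ} {φ : G →+ ZMod 3}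
    (hφ : Function.Surjective φ) (hstd : Std χ φ) (hbig : fG G B.card < GL.FF B)
    (hfou : (Fintype.card G : ℝ) * (((GL.FF B : ℤ) : ℝ) + 3 * (B.card : ℝ) ^ 2) ≤
      4 * (B.card : ℝ) ^ 3 +
        4 * (hat B χ).re * ((Fintype.card G : ℝ) * B.card - (B.card : ℝ) ^ 2))
    (hglue : 7 * (B.filter (fun x => φ x = 0)).card < 4 * B.card)
    (hth : -(B.card : ℤ) ^ 2 ≤ 3 * GL.FF B)
    (htriv : ∀ (q : ℕ) [NeZero q] (ψ : G →+ ZMod q), Function.Surjective ψ →
      q * B.card + ((q + 1) / 3) * Fintype.card G < q * Fintype.card G)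
    (hexpo : ¬ ((∀ g : G, g + g + g = 0) ∧ Fintype.card G ≤ 3 * B.card)) : False := by
  rw [re_three hstd] at hfou
  have hn0 : (0 : ℝ) < Fintype.card G := by exact_mod_cast Fintype.card_pos
  have hb0 : 0 < B.card := by omega
  have hbR : (0 : ℝ) < B.card := by exact_mod_cast hb0
  have hcn : 3 * (B.filter (fun x => φ x = 0)).card ≤ Fintype.card G := by
    have h1 := fibre_card φ hφ 0
    have h2 := card_ker_mul φ hφ
    have h3 := Finset.card_le_card (Finset.filter_subset_filter (fun x => φ x = 0)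
      (Finset.subset_univ B))
    rw [h1] at h3; omega
  have h3b : 3 * B.card < 2 * Fintype.card G := by
    have := htriv 3 φ hφ
    norm_num at this
    omega
  have hthR : -(B.card : ℝ) ^ 2 ≤ 3 * ((GL.FF B : ℤ) : ℝ) := by exact_mod_cast hth
  have hglueR : 7 * ((B.filter (fun x => φ x = 0)).card : ℝ) < 4 * B.card := by
    exact_mod_cast hglue
  have hcnR : 3 * ((B.filter (fun x => φ x = 0)).card : ℝ) ≤ Fintype.card G := by
    exact_mod_cast hcn
  have h3bR : 3 * (B.card : ℝ) < 2 * Fintype.card G := by exact_mod_cast h3b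
  have hdvd3 : 3 ∣ Fintype.card G := ⟨_, card_ker_mul φ hφ⟩
  set b : ℝ := (B.card : ℝ) with hb
  set n : ℝ := (Fintype.card G : ℝ) with hn
  set c : ℝ := ((B.filter (fun x => φ x = 0)).card : ℝ) with hc
  set F : ℝ := ((GL.FF B : ℤ) : ℝ) with hF
  have hnb : 0 < n - b := by linarith
  -- the two inequalities for `F`
  have hA : 7 * (n * F) ≤ b ^ 2 * (18 * b - 11 * n) := by
    have h1 : (3 * c - b) * (b * (n - b)) ≤ (5 / 7 * b) * (b * (n - b)) := by
      apply mul_le_mul_of_nonneg_right (by linarith) (by positivity)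
    nlinarith
  have hA' : n * F ≤ -(b * (2 * b - n) * (2 * n - 3 * b)) := by
    have h1 : (3 * c - b) * (b * (n - b)) ≤ (n - b) * (b * (n - b)) := by
      apply mul_le_mul_of_nonneg_right (by linarith) (by positivity)
    nlinarith
  -- `b > 13/27 n`
  have hbig2 : 26 * n ≤ 54 * b := by
    have h1 : 7 * (n * (-(b ^ 2) / 3)) ≤ 7 * (n * F) := by
      have : n * (-(b ^ 2) / 3) ≤ n * F := mul_le_mul_of_nonneg_left (by linarith) hn0.le
      linarith
    have h2 : 0 ≤ b ^ 2 * (54 * b - 26 * n) := by nlinarith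
    have h3 : 0 ≤ 54 * b - 26 * n := by
      by_contra hcc
      push Not at hcc
      have := mul_neg_of_pos_of_neg (show (0:ℝ) < b ^ 2 by positivity) hcc
      linarith
    linarith
  have hexpo' : ¬ ∀ g : G, g + g + g = 0 := by
    intro h
    apply hexpo
    refine ⟨h, ?_⟩
    have : n ≤ 3 * b := by linarith
    rw [hn, hb] at this
    exact_mod_cast this
  have hFG : ∀ (q : ℕ) [NeZero q] (ψ : G →+ ZMod q), Function.Surjective ψ → ∀ h : ℝ,
      (Nat.card ψ.ker : ℝ) = h → -4 * h ^ 2 ≤ 5 * F := by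
    intro q _ ψ hψ h hh
    have h1 := fG_ge_q ψ hψ h3b
    have h2 : (-4 * (Nat.card ψ.ker : ℤ) ^ 2) ≤ 5 * GL.FF B := by linarith
    rw [← hh, hF]
    exact_mod_cast h2
  rcases exists_order_q hdvd3 hexpo' with ⟨⟨w, hw⟩, g, hg⟩ | ⟨g, k, hg, hk⟩
  · -- even order
    obtain ⟨ψ2, hψ2⟩ := exists_surj_of_order w
    have : NeZero (addOrderOf w) := ⟨by rw [hw]; norm_num⟩
    have h2 := htriv (addOrderOf w) ψ2 hψ2
    rw [hw] at h2
    have h2' : 2 * B.card < Fintype.card G := by norm_num at h2; omega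
    have h2R : 2 * b < n := by rw [hb, hn]; exact_mod_cast h2'
    obtain ⟨ψ, hψ⟩ := exists_surj_of_order g
    have : NeZero (addOrderOf g) := ⟨by rw [hg]; norm_num⟩
    have h3 := hFG (addOrderOf g) ψ hψ _ rfl
    have h4 : n = 6 * (Nat.card ψ.ker : ℝ) := by
      have e0 : addOrderOf g * Nat.card ψ.ker = 6 * Nat.card ψ.ker :=
        congrArg (fun t => t * Nat.card ψ.ker) hg
      have := (card_ker_mul ψ hψ).trans e0
      rw [hn]; exact_mod_cast this
    generalize (Nat.card ψ.ker : ℝ) = h at h3 h4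
    have hh : h = n / 6 := by linarith
    rw [hh] at h3
    have h5 : b ^ 2 * (18 * b - 11 * n) ≤ b ^ 2 * (-2 * n) :=
      mul_le_mul_of_nonneg_left (show 18 * b - 11 * n ≤ -2 * n by linarith) (sq_nonneg b)
    have h6 : n * (-(n ^ 2) / 45) ≤ n * F := mul_le_mul_of_nonneg_left (by nlinarith) hn0.le
    have h7 : (26 * n / 54) ^ 2 ≤ b ^ 2 :=
      pow_le_pow_left₀ (show (0:ℝ) ≤ 26 * n / 54 by linarith) (by linarith) 2
    have h8 : n * (26 * n / 54) ^ 2 ≤ n * b ^ 2 := mul_le_mul_of_nonneg_left h7 hn0.le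
    have h9 : 0 < n ^ 3 := by positivity
    nlinarith
  · obtain ⟨ψ, hψ⟩ := exists_surj_of_order g
    have hq : NeZero (addOrderOf g) := ⟨by rw [hg]; omega⟩
    have h3 := hFG (addOrderOf g) ψ hψ _ rfl
    have hnk : Fintype.card G = 3 * k * Nat.card ψ.ker := by
      have e0 : addOrderOf g * Nat.card ψ.ker = (3 * k) * Nat.card ψ.ker :=
        congrArg (fun t => t * Nat.card ψ.ker) hg
      exact (card_ker_mul ψ hψ).trans e0
    have hhpos : 0 < Nat.card ψ.ker := Nat.card_pos
    have h9 : 9 * (Nat.card ψ.ker : ℝ) ≤ n := by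
      have : 9 * Nat.card ψ.ker ≤ Fintype.card G := by
        rw [hnk]; exact Nat.mul_le_mul_right _ (by omega)
      rw [hn]; exact_mod_cast this
    have hnkR : n = 3 * k * (Nat.card ψ.ker : ℝ) := by
      rw [hn]; exact_mod_cast hnk
    have hhR : (0 : ℝ) < (Nat.card ψ.ker : ℝ) := by exact_mod_cast hhpos
    rcases le_or_gt (100 * b) (59 * n) with h59 | h59
    · set h : ℝ := (Nat.card ψ.ker : ℝ)
      have h5 : b ^ 2 * (18 * b - 11 * n) ≤ b ^ 2 * (-(38 / 100) * n) :=
        mul_le_mul_of_nonneg_left (by linarith) (by positivity)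
      have h6 : h ^ 2 ≤ (n / 9) ^ 2 := pow_le_pow_left₀ hhR.le (by linarith) 2
      have h6' : n * (-(4 / 5) * (n / 9) ^ 2) ≤ n * F :=
        mul_le_mul_of_nonneg_left (by linarith) hn0.le
      have h7 : (26 * n / 54) ^ 2 ≤ b ^ 2 :=
        pow_le_pow_left₀ (show (0:ℝ) ≤ 26 * n / 54 by linarith) (by linarith) 2
      have h8 : n * (26 * n / 54) ^ 2 ≤ n * b ^ 2 := mul_le_mul_of_nonneg_left h7 hn0.le
      have h10 : 0 < n ^ 3 := by positivity
      nlinarith
    · have hb59 : (59 / 100 * n) * (18 / 100 * n) ≤ b * (2 * b - n) :=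
        mul_le_mul (by linarith) (by linarith) (by positivity) hbR.le
      have hx : 0 < 2 * n - 3 * b := by linarith
      have hA2 : n * F ≤ -((59 / 100 * n) * (18 / 100 * n) * (2 * n - 3 * b)) := by
        have := mul_le_mul_of_nonneg_right hb59 hx.le
        linarith
      rcases le_or_gt (3 * (Nat.card ψ.ker : ℝ)) (2 * n - 3 * b) with hc1 | hc1
      · -- far from `2n/3`
        set h : ℝ := (Nat.card ψ.ker : ℝ)
        have h6 : h ^ 2 ≤ (n / 9) * ((2 * n - 3 * b) / 3) := by
          have : h * h ≤ (n / 9) * ((2 * n - 3 * b) / 3) :=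
            mul_le_mul (by linarith) (by linarith) hhR.le (by positivity)
          nlinarith
        have h7 : n * (-(4 / 5) * ((n / 9) * ((2 * n - 3 * b) / 3))) ≤ n * F :=
          mul_le_mul_of_nonneg_left (by linarith) hn0.le
        have h8 : 0 < n ^ 2 * (2 * n - 3 * b) := by positivity
        nlinarith
      · -- near `2n/3`
        have hlt1 : 2 * Fintype.card G < 3 * B.card + 3 * Nat.card ψ.ker := by
          have : 2 * n < 3 * b + 3 * (Nat.card ψ.ker : ℝ) := by linarith
          rw [hn, hb] at this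
          exact_mod_cast this
        have hk1 : 1 ≤ k := by omega
        have e1 : 2 * Fintype.card G = 3 * (2 * k * Nat.card ψ.ker) := by rw [hnk]; ring
        have hbl : (2 * (k - 1) + 1) * Nat.card ψ.ker ≤ B.card := by
          have e2 : (2 * (k - 1) + 1) * Nat.card ψ.ker + Nat.card ψ.ker = 2 * k * Nat.card ψ.ker := by
            have : 2 * k = 2 * (k - 1) + 2 := by omega
            rw [this]; ring
          omega
        have hw := wit_above ψ hψ (b := B.card) (j := k - 1)
          (s := B.card - (2 * (k - 1) + 1) * Nat.card ψ.ker) (by omega)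
          (by
            have e2 : (2 * (k - 1) + 1) * Nat.card ψ.ker + Nat.card ψ.ker =
                2 * k * Nat.card ψ.ker := by
              have : 2 * k = 2 * (k - 1) + 2 := by omega
              rw [this]; ring
            omega) (by rw [hg]; omega)
        rw [Nat.cast_sub hbl] at hw
        have hw2 : ((Nat.card ψ.ker : ℝ) - (b - (2 * (k - 1) + 1) * (Nat.card ψ.ker : ℝ))) *
            ((Nat.card ψ.ker : ℝ) - 5 * (b - (2 * (k - 1) + 1) * (Nat.card ψ.ker : ℝ))) ≤ F := by
          have h1 := le_of_lt (lt_of_le_of_lt hw hbig)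
          have h2 : (((Nat.card ψ.ker : ℤ) - ((B.card : ℤ) -
              (((2 * (k - 1) + 1) * Nat.card ψ.ker : ℕ) : ℤ))) *
              ((Nat.card ψ.ker : ℤ) - 5 * ((B.card : ℤ) -
              (((2 * (k - 1) + 1) * Nat.card ψ.ker : ℕ) : ℤ))) : ℤ) ≤ GL.FF B := h1
          have h3 : ((((Nat.card ψ.ker : ℤ) - ((B.card : ℤ) -
              (((2 * (k - 1) + 1) * Nat.card ψ.ker : ℕ) : ℤ))) *
              ((Nat.card ψ.ker : ℤ) - 5 * ((B.card : ℤ) -
              (((2 * (k - 1) + 1) * Nat.card ψ.ker : ℕ) : ℤ))) : ℤ) : ℝ) ≤ F := by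
            rw [hF]; exact_mod_cast h2
          push_cast [Nat.cast_sub hk1] at h3
          exact h3
        set h : ℝ := (Nat.card ψ.ker : ℝ)
        -- `x = 2 k h - b`
        set x : ℝ := 2 * k * h - b with hxdef
        have hx3 : 3 * x = 2 * n - 3 * b := by rw [hxdef, hnkR]; ring
        have hx0 : 0 < x := by linarith
        have e3 : (h - (b - (2 * (k - 1) + 1) * h)) * (h - 5 * (b - (2 * (k - 1) + 1) * h)) =
            x * (5 * x - 4 * h) := by rw [hxdef]; ring
        rw [e3] at hw2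
        have hbx : b = 2 * n / 3 - x := by linarith
        have h4 : n * (x * (5 * x - 4 * h)) ≤ n * F := mul_le_mul_of_nonneg_left hw2 hn0.le
        have h5 : n * (x * (5 * x - 4 * h)) ≤ -(b * (2 * b - n) * (3 * x)) := by
          rw [hx3]; linarith
        have h6 : x * (n * (5 * x - 4 * h) + 3 * (b * (2 * b - n))) ≤ 0 := by nlinarith
        have h7 : n * (5 * x - 4 * h) + 3 * (b * (2 * b - n)) ≤ 0 := by
          by_contra hcc
          push Not at hcc
          have := mul_pos hx0 hcc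
          linarith
        rw [hbx] at h7
        have h8 : n * h ≤ n * (n / 9) := mul_le_mul_of_nonneg_left (by linarith) hn0.le
        nlinarith [sq_nonneg x, mul_pos hn0 hn0]

end

end Pool.Agent.SCH
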