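import Mathlib
import Pool.Agent.Lib_helper42.RS.Final
import Pool.Agent.Lib_helper26.SCH.Quo

/-!
# `FF ≤ 1` for `9/20 < β ≤ 2/3` and odd order
-/

set_option autoImplicit false
set_option linter.unusedSectionVars false

namespace Pool.Agent.SCH

open Finset Pool.Agent.GL Pool.Agent.Lib_helper42.RS

universe u

section
variable {G : Type u} [AddCommGroup G] [Fintype G] [DecidableEq G]

/-- structured form of `upper_cases` -/
theorem upper_struct (B : Finset G) (hd : 1 < dlS B) :
    ∃ (Q : Type u) (_ : AddCommGroup Q) (_ : Fintype Q) (_ : DecidableEq Q) (φ : G →+ Q)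
      (E : Finset Q) (j s : ℕ), Function.Surjective φ ∧ PSS E ∧ E.card = 2 * j + 1 ∧
      2 ≤ Nat.card φ.ker ∧ 3 * s < Nat.card φ.ker ∧
      ((B.card = (2 * j + 1) * Nat.card φ.ker + s ∧
          (Fintype.card Q = 1 ∨ (∃ H' : AddSubgroup Q, Nat.card H' = 3 * j + 2) ∨
            dlS B ≤ ((Nat.card φ.ker : ℤ) - s) * ((Nat.card φ.ker : ℤ) - 5 * s))) ∨
       (B.card + s = (2 * j + 1) * Nat.card φ.ker ∧
          (j = 0 ∨ dlS B ≤ ((Nat.card φ.ker : ℤ) - s) * ((Nat.card φ.ker : ℤ) - 5 * s)))) := by
  classical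
  obtain ⟨Q, i1, i2, i3, φ, E, hφ, hE, hρ, _⟩ := sym_struct B hd
  refine ⟨Q, i1, i2, i3, φ, E, ?_⟩
  set X := lft φ E with hX
  set h : ℕ := Nat.card φ.ker with hh
  have hup := hE.upper φ hφ B
  rw [← hX, ← hh, sum_pp] at hup
  have hXc : (X.card : ℤ) = h * E.card := card_lft φ hφ E
  have hG : (Fintype.card G : ℤ) = h * Fintype.card Q := card_G φ hφ
  have hGn : Fintype.card G = h * Fintype.card Q := by exact_mod_cast hG
  have hh0 : 0 < h := Nat.card_pos
  obtain ⟨j', hj'⟩ := hE.odd
  have hj0 : 0 ≤ j' := by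
    have h1 : (0:ℤ) < E.card := by
      exact_mod_cast Finset.card_pos.mpr ⟨0, hE.zero_mem⟩
    omega
  obtain ⟨j, rfl⟩ := Int.eq_ofNat_of_zero_le hj0
  have hEc : E.card = 2 * j + 1 := by
    have h1 : (E.card : ℤ) = 2 * (j : ℤ) + 1 := hj'
    omega
  -- sizes
  set u : ℤ := ((X \ B).card : ℤ) with hu
  set v : ℤ := ((B \ X).card : ℤ) with hv
  have hu0 : 0 ≤ u := by positivity
  have hv0 : 0 ≤ v := by positivity
  have hs : ds B X = u + v := by
    have := CU.card_sdiff_add B X
    rw [← this, hu, hv]; ring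
  have hσ : (B.card : ℤ) - X.card = v - u := by
    have h1 := card_eq_sdiff_inter B X
    have h2 := card_eq_sdiff_inter X B
    rw [Finset.inter_comm] at h2
    rw [h1, h2, hu, hv]; ring
  have htb := tb_nonneg φ B E
  have hW1 : 0 ≤ W1 B X := Finset.sum_nonneg fun _ _ => Finset.sum_nonneg fun _ _ => im_nonneg _
  have hW2 : 0 ≤ W2 B X := Finset.sum_nonneg fun _ _ => Finset.sum_nonneg fun _ _ => im_nonneg _
  have hN3 : 0 ≤ N3 B X := Finset.sum_nonneg fun _ _ => Finset.sum_nonneg fun _ _ => im_nonneg _
  have hhZ : (0:ℤ) < h := by exact_mod_cast hh0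
  have hhtb : 0 ≤ (h:ℤ) * tb φ B E := mul_nonneg hhZ.le htb
  have hppp : ∀ x, x ∈ B \ X ↔ pp B X x = 1 := by
    intro x; unfold pp ind
    by_cases a : x ∈ B <;> by_cases b : x ∈ X <;> simp [a, b]
  have hppm : ∀ x, x ∈ X \ B ↔ pp B X x = -1 := by
    intro x; unfold pp ind
    by_cases a : x ∈ B <;> by_cases b : x ∈ X <;> simp [a, b]
  rw [hs] at hρ hup
  rw [hσ] at hup
  have h2h : 2 ≤ h := by
    have : (2:ℤ) ≤ h := by linarith
    exact_mod_cast this
  rcases le_or_gt u v with huv | huv
  · -- addition case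
    obtain ⟨s, hs'⟩ : ∃ s : ℕ, (s:ℤ) = v - u := ⟨(v - u).toNat, by
      rw [Int.toNat_of_nonneg (by linarith)]⟩
    have h3s : 3 * s < h := by
      have : 3 * (s:ℤ) < h := by rw [hs']; linarith
      exact_mod_cast this
    have hB : B.card = (2 * j + 1) * h + s := by
      have : (B.card : ℤ) = (2 * j + 1) * h + s := by
        rw [hs', ← hσ, hXc, hj']; push_cast; ring
      exact_mod_cast this
    refine ⟨j, s, hφ, hE, hEc, h2h, h3s, Or.inl ⟨hB, ?_⟩⟩
    by_cases hsp : ∃ α β, α ∉ E ∧ β ∉ E ∧ gd E α ∧ gd E β ∧ α + β ∈ E ∧ α - β ∈ E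
    · obtain ⟨α, β, a1, a2, a3, a4, a5, a6⟩ := hsp
      obtain ⟨H', hH', _, _⟩ := (special _ Q rfl E hE).1 α β a1 a2 a3 a4 a5 a6
      have hcH : Nat.card H' = 3 * j + 2 := by
        have : (Nat.card H' : ℤ) = 3 * j + 2 := by
          rw [hj'] at hH'; push_cast at hH'; linarith
        exact_mod_cast this
      exact Or.inr (Or.inl ⟨H', hcH⟩)
    · push Not at hsp
      refine Or.inr (Or.inr ?_)
      obtain ⟨vg, g1, g2, g3, g4⟩ := nice_pairs φ B E 1 (Or.inl rfl) (B \ X) hppp (by
        intro x hx y hy gx gy ⟨c1, c2⟩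
        rw [Finset.mem_sdiff, hX, mem_lft] at hx hy
        exact hsp (φ x) (φ y) hx.2 hy.2 gx gy c1 c2)
      rw [hs']
      rw [← hX] at g4
      refine arithA (u := u) (v := v) (s := u + v) (t := tb φ B E) (vg := vg)
        (W := W1 B X + W2 B X) rfl rfl hu0 hv0 htb (by linarith) g1 g3 g4 ?_
      linarith
  · -- removal case
    obtain ⟨s, hs'⟩ : ∃ s : ℕ, (s:ℤ) = u - v := ⟨(u - v).toNat, by
      rw [Int.toNat_of_nonneg (by linarith)]⟩
    have h3s : 3 * s < h := by
      have : 3 * (s:ℤ) < h := by rw [hs']; linarith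
      exact_mod_cast this
    have hB : B.card + s = (2 * j + 1) * h := by
      have : (B.card : ℤ) + s = (2 * j + 1) * h := by
        have h1 : (B.card : ℤ) + s = X.card := by rw [hs']; linarith
        rw [h1, hXc, hj']; push_cast; ring
      exact_mod_cast this
    refine ⟨j, s, hφ, hE, hEc, h2h, h3s, Or.inr ⟨hB, ?_⟩⟩
    by_cases hj1 : 1 ≤ j
    · have hcE : 1 < E.card := by omega
      refine Or.inr ?_
      obtain ⟨vg, g1, g2, g3, g4⟩ := nice_pairs φ B E (-1) (Or.inr rfl) (X \ B) hppm (by
            intro x hx y hy gx gy ⟨c1, c2⟩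
            rw [Finset.mem_sdiff, hX, mem_lft] at hx hy
            exact (special _ Q rfl E hE).2 hcE (φ x) (φ y) hx.1 hy.1 gx gy c1 c2)
      rw [hs']
      rw [← hX] at g4
      refine arithA (u := v) (v := u) (s := u + v) (σ := u - v) (t := tb φ B E) (vg := vg)
            (W := W1 B X + W2 B X) (by ring) rfl hv0 hu0 htb (by linarith) g1 g3 g4 ?_
      have : (u - v)^2 = (v - u)^2 := by ring
      rw [this]
      linarith
    · exact Or.inl (by omega)

/-- a number `= 2 mod 3` has a prime factor `= 2 mod 3` -/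
lemma exists_prime_two_mod_three : ∀ q : ℕ, q % 3 = 2 → ∃ p, p.Prime ∧ p ∣ q ∧ p % 3 = 2 := by
  intro q
  induction q using Nat.strong_induction_on with
  | _ q ih =>
    intro hq
    have hq1 : q ≠ 1 := by rintro rfl; norm_num at hq
    have hq0 : 0 < q := by omega
    have hp := Nat.minFac_prime hq1
    have hd := Nat.minFac_dvd q
    set p := q.minFac with hpdef
    obtain ⟨r, hr⟩ := hd
    by_cases h2 : p % 3 = 2
    · exact ⟨p, hp, ⟨r, hr⟩, h2⟩
    · have h0 : p % 3 ≠ 0 := by
        intro h0
        have : q % 3 = 0 := by rw [hr, Nat.mul_mod, h0]; simp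
        omega
      have h1 : p % 3 = 1 := by omega
      have hr2 : r % 3 = 2 := by
        rw [hr, Nat.mul_mod, h1] at hq
        simpa using hq
      have hrlt : r < q := by
        rw [hr]
        have := hp.two_le
        have hr0 : 0 < r := Nat.pos_of_ne_zero (by rintro rfl; omega)
        nlinarith
      obtain ⟨p', a, b, c⟩ := ih r hrlt hr2
      exact ⟨p', a, b.trans ⟨p, by rw [hr]; ring⟩, c⟩

/-- the complement of a sum free set in `Q` -/
lemma sf_struct (S : Finset G) (hS : SF S) {c : ℕ} (hc : S.card + c = Fintype.card G)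
    (hcb : 3 * c + 1 ≤ 2 * Fintype.card G) (hG2 : 2 ≤ Fintype.card G) :
    ∃ q' h' d : ℕ, q' % 3 = 2 ∧ q' * h' = Fintype.card G ∧ 0 < h' ∧
      3 * c + h' = 2 * q' * h' + 3 * d := by
  classical
  have hsch : (schur S : ℤ) = 0 := by
    have : schur S = 0 := by
      unfold schur
      rw [Finset.card_eq_zero, Finset.filter_eq_empty_iff]
      rintro ⟨x, y⟩ hxy hmem
      rw [Finset.mem_product] at hxy
      exact hS x hxy.1 y hxy.2 hmem
    exact_mod_cast this
  have h1 := schur_compl Sᶜ
  rw [compl_compl, hsch] at h1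
  have hSc : (Sᶜ).card = c := by rw [Finset.card_compl]; omega
  have hcZ : (S.card : ℤ) + c = Fintype.card G := by exact_mod_cast hc
  have hcbZ : 3 * (c : ℤ) + 1 ≤ 2 * Fintype.card G := by exact_mod_cast hcb
  by_cases h3 : 3 * c + 1 = 2 * Fintype.card G
  · refine ⟨Fintype.card G, 1, 0, by omega, by ring, one_pos, by omega⟩
  · have h4 : 2 ≤ 3 * (S.card : ℤ) - Fintype.card G := by
      have : 3 * c + 1 < 2 * Fintype.card G := lt_of_le_of_ne hcb h3
      omega
    have h5 : dlS Sᶜ = (3 * (S.card : ℤ) - Fintype.card G)^2 := by linarith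
    have h6 : 1 < dlS Sᶜ := by rw [h5]; nlinarith
    obtain ⟨Q, i1, i2, i3, φ, E, hφ, hE, hρ, hle⟩ := sym_struct Sᶜ h6
    have hGc : (Fintype.card G : ℤ) = Nat.card φ.ker * Fintype.card Q := card_G φ hφ
    have hXc : ((lft φ E).card : ℤ) = Nat.card φ.ker * E.card := card_lft φ hφ E
    set h' : ℕ := Nat.card φ.ker with hh'
    set d : ℤ := ds Sᶜ (lft φ E) with hd
    have hd0 : 0 ≤ d := ds_nonneg _ _
    have h7 : 3 * (S.card : ℤ) - Fintype.card G ≤ h' - 3 * d := by
      rw [h5] at hle
      exact abs_le_of_sq_le_sq' hle (by linarith) |>.2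
    have hSZ : ((Sᶜ).card : ℤ) = c := by exact_mod_cast hSc
    have h8 : ((Sᶜ).card : ℤ) - (lft φ E).card ≤ d := card_sub_le_ds _ _
    have hh0 : (0:ℤ) < h' := by
      have : 0 < h' := Nat.card_pos
      exact_mod_cast this
    by_cases hQ2 : 2 ≤ Fintype.card Q
    · have h9 := hE.card_bound hQ2
      rw [hSZ, hXc] at h8
      -- equality
      have h10 : 2 * (Fintype.card Q : ℤ) ≤ 3 * E.card + 1 := by
        have h11 : (h':ℤ) * (2 * (Fintype.card Q : ℤ)) ≤ h' * (3 * E.card + 1) := by
          have e1 : (h':ℤ) * (2 * (Fintype.card Q : ℤ)) = 2 * Fintype.card G := by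
            rw [hGc]; ring
          rw [e1]
          have e2 : (h':ℤ) * (3 * E.card + 1) = 3 * (h' * E.card) + h' := by ring
          rw [e2]
          linarith
        exact le_of_mul_le_mul_left h11 hh0
      have h12 : 3 * (E.card : ℤ) + 1 = 2 * Fintype.card Q := le_antisymm h9 h10
      have h13 : 3 * E.card + 1 = 2 * Fintype.card Q := by exact_mod_cast h12
      have h14 : 3 * (c : ℤ) + h' = 2 * Fintype.card G + 3 * d := by
        have a1 : (h':ℤ) * (3 * E.card + 1) = h' * (2 * Fintype.card Q) := by rw [h12]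
        have a2 : (h':ℤ) * (2 * (Fintype.card Q : ℤ)) = 2 * Fintype.card G := by
          rw [hGc]; ring
        have a3 : (h':ℤ) * (3 * E.card + 1) = 3 * (h' * E.card) + h' := by ring
        linarith
      refine ⟨Fintype.card Q, h', d.toNat, by omega, ?_, by exact_mod_cast hh0, ?_⟩
      · have : ((Fintype.card Q * h' : ℕ) : ℤ) = (Fintype.card G : ℤ) := by
          rw [hGc]; push_cast; ring
        exact_mod_cast this
      · have e3 : ((d.toNat : ℕ) : ℤ) = d := Int.toNat_of_nonneg hd0
        have : ((3 * c + h' : ℕ) : ℤ) = ((2 * Fintype.card Q * h' + 3 * d.toNat : ℕ) : ℤ) := by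
          push_cast
          rw [e3, h14, hGc]; ring
        exact_mod_cast this
    · exfalso
      have hQ1 : Fintype.card Q = 1 := by
        have : 0 < Fintype.card Q := Fintype.card_pos
        omega
      have hEu : E = univ := by
        apply Finset.eq_univ_of_card
        have : 0 < E.card := Finset.card_pos.mpr ⟨0, hE.zero_mem⟩
        have := Finset.card_le_univ E
        omega
      have hl : lft φ E = univ := by rw [hEu]; ext x; simp
      rw [hl, ds_univ, hSZ] at hd
      rw [hQ1] at hGc
      push_cast at hGc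
      linarith

/-- lift of `Alive` -/
lemma alive_comap {Q : Type u} [AddCommGroup Q] (φ : G →+ Q) (hφ : Function.Surjective φ)
    {H' : AddSubgroup Q} {t : ℕ} (h : Alive H' t) : Alive (H'.comap φ) t := by
  obtain ⟨g, hg⟩ := h
  obtain ⟨g', rfl⟩ := hφ g
  refine ⟨g', fun i h0 h1 hi => hg i h0 h1 ?_⟩
  rw [AddSubgroup.mem_comap, map_nsmul] at hi
  exact hi

lemma card_comap' {Q : Type u} [AddCommGroup Q] [Fintype Q] (φ : G →+ Q)
    (hφ : Function.Surjective φ) (H' : AddSubgroup Q) :
    Nat.card (H'.comap φ) = Nat.card H' * Nat.card φ.ker := by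
  have h1 := AddSubgroup.card_mul_index (H'.comap φ)
  have h2 := AddSubgroup.card_mul_index H'
  rw [AddSubgroup.index_comap_of_surjective _ hφ] at h1
  have h3 := AddSubgroup.card_mul_index φ.ker
  rw [AddSubgroup.index_ker, AddMonoidHom.range_eq_top.mpr hφ, AddSubgroup.card_top] at h3
  have h4 : 0 < H'.index := Nat.pos_of_ne_zero (AddSubgroup.index_ne_zero_of_finite)
  rw [← h3, ← h2] at h1
  have : (Nat.card (H'.comap φ)) * H'.index = (Nat.card H' * Nat.card φ.ker) * H'.index := by
    rw [h1]; ring
  exact Nat.eq_of_mul_eq_mul_right h4 this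

/-- upgrade of `Alive` -/
lemma alive_up {H : AddSubgroup G} {j s : ℕ} (hodd : Odd (Fintype.card G))
    (hb1 : 9 * Fintype.card G < 20 * ((2 * j + 1) * Nat.card H + s))
    (hb2 : 3 * ((2 * j + 1) * Nat.card H + s) ≤ 2 * Fintype.card G)
    (hs : 3 * s < Nat.card H) (ha : Alive H (3 * j + 1)) : Alive H (3 * j + 2) := by
  obtain ⟨g, hg⟩ := ha
  by_cases h1 : (3 * j + 1) • g ∈ H
  · exfalso
    -- the order of `g` in the quotient is `3 j + 1`
    have h2 : (3 * j + 1) • (g : G ⧸ H) = 0 := by
      rw [← QuotientAddGroup.mk_nsmul, QuotientAddGroup.eq_zero_iff]; exact h1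
    have h3 : addOrderOf (g : G ⧸ H) = 3 * j + 1 := by
      apply Nat.le_antisymm
      · exact Nat.le_of_dvd (by omega) (addOrderOf_dvd_of_nsmul_eq_zero h2)
      · by_contra hlt
        push Not at hlt
        refine hg (addOrderOf (g : G ⧸ H)) (addOrderOf_pos _) hlt ?_
        rw [← QuotientAddGroup.eq_zero_iff, QuotientAddGroup.mk_nsmul]
        exact addOrderOf_nsmul_eq_zero _
    have h4 : 3 * j + 1 ∣ H.index := by
      rw [← h3]
      exact addOrderOf_dvd_natCard _
    obtain ⟨k, hk⟩ := h4
    have h5 := AddSubgroup.card_mul_index H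
    rw [Nat.card_eq_fintype_card (α := G), hk] at h5
    have hκ : 0 < Nat.card H := Nat.card_pos
    set κ := Nat.card H with hκdef
    have hkodd : k % 2 = 1 := by
      rw [← Nat.odd_iff]
      rw [← h5] at hodd
      exact (Nat.odd_mul.mp ((Nat.odd_mul.mp hodd).2)).2
    rcases Nat.lt_or_ge k 3 with hk3 | hk3
    · obtain rfl : k = 1 := by omega
      rw [← h5] at hb2
      have e1 : κ * ((3 * j + 1) * 1) = 3 * (j * κ) + κ := by ring
      have e2 : (2 * j + 1) * κ = 2 * (j * κ) + κ := by ring
      rw [e1, e2] at hb2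
      omega
    · have h6 : κ * ((3 * j + 1) * 3) ≤ Fintype.card G := by
        rw [← h5]
        exact Nat.mul_le_mul_left _ (Nat.mul_le_mul_left _ hk3)
      have e1 : κ * ((3 * j + 1) * 3) = 9 * (j * κ) + 3 * κ := by ring
      have e2 : (2 * j + 1) * κ = 2 * (j * κ) + κ := by ring
      rw [e1] at h6
      rw [e2] at hb1
      omega
  · refine ⟨g, fun i h0 hi => ?_⟩
    rcases Nat.lt_or_ge i (3 * j + 1) with h | h
    · exact hg i h0 h
    · have : i = 3 * j + 1 := by omega
      rw [this]; exact h1

/-- numeric comparison of the two type II values -/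
lemma val_mono {h s κ σ : ℤ} (h1 : h - 5 * s ≤ κ - 5 * σ) (h2 : h - s ≤ κ - σ) (h3 : 0 ≤ h - 5 * s)
    (h4 : 0 ≤ h - s) : (h - s) * (h - 5 * s) ≤ (κ - σ) * (κ - 5 * σ) :=
  mul_le_mul h2 h1 h3 (h4.trans h2)

/-- numeric contradiction for a prime divisor (above) -/
lemma prime_num {p q κ n b c : ℕ} (hκ : 0 < κ) (hq : q * κ = n) (hpq : p ≤ q)
    (hb : 2 * (q * κ) ≤ 3 * b + κ + c) (hc : c = 0)
    (ht : 3 * (p * b) + (p + 1) * n < 3 * (p * n)) : False := by
  subst hc hq
  have h1 : p * (2 * (q * κ)) ≤ p * (3 * b + κ + 0) := Nat.mul_le_mul_left _ hb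
  have h2 : p * κ ≤ q * κ := Nat.mul_le_mul_right _ hpq
  have e1 : p * (2 * (q * κ)) = 2 * (p * (q * κ)) := by ring
  have e2 : p * (3 * b + κ + 0) = 3 * (p * b) + p * κ := by ring
  have e3 : (p + 1) * (q * κ) = p * (q * κ) + q * κ := by ring
  rw [e1, e2] at h1
  rw [e3] at ht
  omega

/-- surjection onto `ZMod p` -/
lemma exists_prime_surj {q κ : ℕ} (hq : q % 3 = 2) (hn : q * κ = Fintype.card G) :
    ∃ (p : ℕ) (_ : NeZero p) (ψ : G →+ ZMod p), Function.Surjective ψ ∧ p % 3 = 2 ∧ p ∣ q := by
  obtain ⟨p, hp, hd, h2⟩ := exists_prime_two_mod_three q hq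
  have : Fact p.Prime := ⟨hp⟩
  have hdn : p ∣ Fintype.card G := hd.trans ⟨κ, hn.symm⟩
  obtain ⟨w, hw⟩ := exists_prime_addOrderOf_dvd_card p (G := G) hdn
  obtain ⟨ψ, hψ⟩ := exists_surj_of_order w
  subst hw
  exact ⟨addOrderOf w, ⟨hp.ne_zero⟩, ψ, hψ, h2, hd⟩

/-- **`FF ≤ 1` for `9/20 < β ≤ 2/3`, odd order, in a counterexample** -/
theorem rs_ind (B : Finset G) (hodd : Odd (Fintype.card G))
    (hb1 : 9 * Fintype.card G < 20 * B.card) (hb2 : 3 * B.card ≤ 2 * Fintype.card G)
    (hbig : fG G B.card < FF B)
    (htriv : ∀ (q : ℕ) [NeZero q] (ψ : G →+ ZMod q), Function.Surjective ψ →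
      q * B.card + ((q + 1) / 3) * Fintype.card G < q * Fintype.card G)
    (ihc : ∀ (Q : Type u) [AddCommGroup Q] [Fintype Q] [DecidableEq Q],
      Fintype.card Q < Fintype.card G → Main Q) : FF B ≤ 1 := by
  by_contra hcon
  push Not at hcon
  have hcon' := hcon
  rw [FF_eq_dlS] at hcon'
  obtain ⟨Q, i1, i2, i3, φ, E, j, s, hφ, hE, hEc, hh2, h3s, hcases⟩ := upper_struct B hcon'
  have hGZ : (Fintype.card G : ℤ) = Nat.card φ.ker * Fintype.card Q := card_G φ hφ
  have hG : Fintype.card G = Nat.card φ.ker * Fintype.card Q := by exact_mod_cast hGZ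
  rw [← FF_eq_dlS] at hcases
  set h : ℕ := Nat.card φ.ker with hh
  set n : ℕ := Fintype.card G with hn
  set qn : ℕ := Fintype.card Q with hqn
  set b : ℕ := B.card with hb
  have hqodd : qn % 2 = 1 := by
    rw [← Nat.odd_iff]
    rw [hG] at hodd
    exact (Nat.odd_mul.mp hodd).2
  have hn0 : 0 < n := Fintype.card_pos
  -- prime divisors
  have hprime : ∀ q κ : ℕ, q % 3 = 2 → q * κ = n →
      ∃ (p : ℕ) (_ : NeZero p) (ψ : G →+ ZMod p), Function.Surjective ψ ∧ p % 3 = 2 ∧ p ∣ q ∧
        3 * (p * b) + (p + 1) * n < 3 * (p * n) := by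
    intro q κ h1 h2
    obtain ⟨p, hp0, ψ, hψ, h3, h4⟩ := exists_prime_surj (G := G) h1 h2
    refine ⟨p, hp0, ψ, hψ, h3, h4, ?_⟩
    have h5 := htriv p ψ hψ
    have h6 : p + 1 = 3 * ((p + 1) / 3) := by omega
    have h7 : (p + 1) * n = 3 * (((p + 1) / 3) * n) := by
      conv_lhs => rw [h6]
      ring
    rw [h7]
    omega
  -- the quotient is not trivial
  have hq2 : 2 ≤ qn := by
    by_contra hlt
    have hq1 : qn = 1 := by omega
    have hE1 : E.card ≤ qn := Finset.card_le_univ E
    have hj0 : j = 0 := by omega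
    subst hj0
    rw [hq1] at hG
    rcases hcases with ⟨h1, _⟩ | ⟨h1, _⟩
    · omega
    · omega
  have hq3 : 3 ≤ qn := by omega
  have hcb := hE.card_bound hq2
  have hcbN : 3 * (2 * j + 1) + 1 ≤ 2 * qn := by
    rw [hEc] at hcb
    have : (3 * (((2 * j + 1 : ℕ)) : ℤ) + 1) ≤ 2 * (qn : ℤ) := hcb
    omega
  have hjq : 3 * j + 2 ≤ qn := by omega
  have hQlt : qn < n := by
    rw [hG]
    nlinarith
  -- the bounds for `b`
  have hble : 20 * b ≤ 20 * ((2 * j + 1) * h) + 20 * s := by
    rcases hcases with ⟨h1, _⟩ | ⟨h1, _⟩ <;> omega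
  -- induction
  have hMQ : Main Q := ihc Q hQlt
  obtain ⟨v, hv, hEv⟩ := hMQ E
  have hdl1 : dlS E = 1 := hE.dl1
  rw [FF_eq_dlS, hdl1] at hEv
  rw [hEc] at hv
  -- type I in `Q`
  have hWI : WI Q (2 * j + 1) v → ∃ q' h' d : ℕ, q' % 3 = 2 ∧ q' * h' = qn ∧ 0 < h' ∧
      3 * (2 * j + 1) + h' = 2 * q' * h' + 3 * d := by
    rintro ⟨K, S, hSK, hSF, hSc, _⟩
    have hKtop : Nat.card K = qn := by
      have h1 := AddSubgroup.card_mul_index K
      rw [Nat.card_eq_fintype_card (α := Q)] at h1
      by_contra hne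
      have hi0 : 0 < K.index := Nat.pos_of_ne_zero AddSubgroup.index_ne_zero_of_finite
      have hi1 : K.index ≠ 1 := by
        intro hi; rw [hi, mul_one] at h1; exact hne h1
      have hi2 : K.index % 2 = 1 := by
        rw [← Nat.odd_iff]
        have : Odd (Nat.card K * K.index) := by rw [h1]; exact Nat.odd_iff.mpr hqodd
        exact (Nat.odd_mul.mp this).2
      have hi3 : 3 ≤ K.index := by omega
      have h2 : (2 * j + 1) * 3 ≤ qn := by
        rw [hqn, ← h1]
        exact Nat.mul_le_mul (by omega) hi3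
      have h3 : h * ((2 * j + 1) * 3) ≤ n := by
        rw [hG]; exact Nat.mul_le_mul_left _ h2
      have e1 : h * ((2 * j + 1) * 3) = 6 * (j * h) + 3 * h := by ring
      have e2 : (2 * j + 1) * h = 2 * (j * h) + h := by ring
      rw [e1] at h3
      rw [e2] at hble
      omega
    exact sf_struct S hSF (by rw [hSc, hKtop]) hcbN hq2
  rcases hcases with ⟨hbe, hc⟩ | ⟨hbe, hc⟩
  · -- `b = (2 j + 1) h + s`
    rcases hc with hc | ⟨H', hH'⟩ | hval
    · omega
    · -- special
      have h1 := AddSubgroup.card_mul_index H'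
      rw [Nat.card_eq_fintype_card (α := Q), hH'] at h1
      have hi0 : 0 < H'.index := Nat.pos_of_ne_zero AddSubgroup.index_ne_zero_of_finite
      have hi2 : H'.index % 2 = 1 := by
        rw [← Nat.odd_iff]
        have : Odd ((3 * j + 2) * H'.index) := by rw [h1]; exact Nat.odd_iff.mpr hqodd
        exact (Nat.odd_mul.mp this).2
      rcases Nat.lt_or_ge H'.index 3 with hlt | hge
      · have hi1 : H'.index = 1 := by omega
        rw [hi1, mul_one] at h1
        obtain ⟨p, hp0, ψ, hψ, h3, h4, h5⟩ := hprime qn h (by omega) (by rw [hG]; ring)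
        have h6 : p ≤ qn := Nat.le_of_dvd (by omega) h4
        refine prime_num (κ := h) (q := qn) (c := 0) (by omega) (by rw [hG]; ring) h6 ?_ rfl h5
        have e1 : 2 * (qn * h) = 6 * (j * h) + 4 * h := by
          rw [hqn, ← h1]; ring
        have e2 : (2 * j + 1) * h = 2 * (j * h) + h := by ring
        rw [e1]; rw [e2] at hbe; omega
      · have h2 : (3 * j + 2) * 3 ≤ qn := by
          rw [hqn, ← h1]
          exact Nat.mul_le_mul_left _ hge
        have h3 : h * ((3 * j + 2) * 3) ≤ n := by
          rw [hG]; exact Nat.mul_le_mul_left _ h2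
        have e1 : h * ((3 * j + 2) * 3) = 9 * (j * h) + 6 * h := by ring
        have e2 : (2 * j + 1) * h = 2 * (j * h) + h := by ring
        rw [e1] at h3
        rw [e2] at hble
        omega
    · -- value
      have hsZ : 3 * (s : ℤ) < h := by exact_mod_cast h3s
      have hs0 : (0 : ℤ) ≤ s := by positivity
      have h5s : 0 < (h : ℤ) - 5 * s := by
        by_contra hneg
        push Not at hneg
        have : ((h : ℤ) - s) * (h - 5 * s) ≤ 0 :=
          mul_nonpos_of_nonneg_of_nonpos (by linarith) hneg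
        linarith
      rcases hv with hv | ⟨H', j', s', hs', hv', hc⟩
      · obtain ⟨q', h', d, a1, a2, a3, a4⟩ := hWI hv
        have a5 : q' * (h' * h) = n := by rw [hG, ← a2]; ring
        obtain ⟨p, hp0, ψ, hψ, h3, h4, h5⟩ := hprime q' (h' * h) a1 a5
        have h6 : p ≤ q' := Nat.le_of_dvd (by omega) h4
        refine prime_num (κ := h' * h) (q := q') (c := 0) (by positivity) a5 h6 ?_ rfl h5
        have e1 : h * (3 * (2 * j + 1) + h') = h * (2 * q' * h' + 3 * d) := by rw [a4]
        have e2 : h * (3 * (2 * j + 1) + h') = 3 * ((2 * j + 1) * h) + h' * h := by ring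
        have e3 : h * (2 * q' * h' + 3 * d) = 2 * (q' * (h' * h)) + 3 * (d * h) := by ring
        rw [e2, e3] at e1
        omega
      · -- type II in `Q`
        have hκ := card_comap' φ hφ H'
        rw [← hh] at hκ
        set h' : ℕ := Nat.card H' with hh'
        set κ : ℕ := Nat.card (H'.comap φ) with hκd
        have hs'Z : (s' : ℤ) ≤ h' := by exact_mod_cast hs'
        have hs'0 : (0 : ℤ) ≤ s' := by positivity
        have hpos1 : 0 < (h' : ℤ) - s' := by
          rcases lt_or_eq_of_le (show 0 ≤ (h' : ℤ) - s' by linarith) with hlt | heq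
          · exact hlt
          · rw [hv', ← heq] at hEv; simp at hEv
        have hpos2 : 0 < (h' : ℤ) - 5 * s' := by
          by_contra hneg
          push Not at hneg
          have : ((h' : ℤ) - s') * (h' - 5 * s') ≤ 0 :=
            mul_nonpos_of_nonneg_of_nonpos hpos1.le hneg
          linarith
        have hκZ : (κ : ℤ) = h' * h := by exact_mod_cast hκ
        have hh0 : (0 : ℤ) < h := by linarith
        have hm1 : (h : ℤ) ≤ ((h' : ℤ) - s') * h := le_mul_of_one_le_left hh0.le (by omega)
        have hm2 : (h : ℤ) ≤ ((h' : ℤ) - 5 * s') * h := le_mul_of_one_le_left hh0.le (by omega)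
        have em1 : ((h' : ℤ) - s') * h = h' * h - s' * h := by ring
        have em2 : ((h' : ℤ) - 5 * s') * h = h' * h - 5 * (s' * h) := by ring
        rw [em1] at hm1
        rw [em2] at hm2
        rcases hc with ⟨hc1, hc2⟩ | ⟨hc1, hc2⟩
        · -- below
          have e1 : (2 * j + 1) * h + s' * h = (2 * j' + 1) * κ := by
            rw [hκ]
            calc (2 * j + 1) * h + s' * h = (2 * j + 1 + s') * h := by ring
              _ = (2 * j' + 1) * (h' * h) := by rw [hc1]; ring
          have hal := alive_comap φ hφ hc2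
          rcases Nat.eq_zero_or_pos s' with hz | hz
          · -- `s' = 0`
            rw [hz, zero_mul, add_zero] at e1
            have e2 : b = (2 * j' + 1) * κ + s := by rw [hbe, e1]
            have hκ3 : 3 * s < κ := by
              rw [hκ]
              have : h ≤ h' * h := Nat.le_mul_of_pos_left _ (by omega)
              omega
            have hal2 : Alive (H'.comap φ) (3 * j' + 2) :=
              alive_up hodd (by rw [← hκd, ← e2]; exact hb1) (by rw [← hκd, ← e2]; exact hb2)
                hκ3 hal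
            have hle : s ≤ κ := by omega
            have hW := le_fG (G := G) (b := b) (v := ((κ : ℤ) - s) * ((κ : ℤ) - 5 * s))
              (Or.inr ⟨H'.comap φ, j', s, hle, rfl, Or.inr ⟨e2, hal2⟩⟩)
            have hκh : (h : ℤ) ≤ κ := by
              have h01 := hm1
              rw [hz] at h01
              rw [hκZ]
              simpa using h01
            have hvm : ((h : ℤ) - s) * (h - 5 * s) ≤ ((κ : ℤ) - s) * ((κ : ℤ) - 5 * s) :=
              val_mono (by linarith) (by linarith) h5s.le (by linarith)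
            linarith
          · have hsh : s ≤ s' * h := by
              have : h ≤ s' * h := Nat.le_mul_of_pos_left _ hz
              omega
            have e2 : b + (s' * h - s) = (2 * j' + 1) * κ := by omega
            have hle : s' * h - s ≤ κ := by
              rw [hκ]
              have : s' * h ≤ h' * h := Nat.mul_le_mul_right _ hs'
              omega
            have hW := le_fG (G := G) (b := b)
              (v := ((κ : ℤ) - (s' * h - s : ℕ)) * ((κ : ℤ) - 5 * (s' * h - s : ℕ)))
              (Or.inr ⟨H'.comap φ, j', s' * h - s, hle, rfl, Or.inl ⟨e2, hal⟩⟩)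
            have hvm : ((h : ℤ) - s) * (h - 5 * s) ≤
                ((κ : ℤ) - (s' * h - s : ℕ)) * ((κ : ℤ) - 5 * (s' * h - s : ℕ)) := by
              rw [Nat.cast_sub hsh]
              push_cast
              exact val_mono (by rw [hκZ]; linarith) (by rw [hκZ]; linarith) h5s.le (by linarith)
            linarith
        · -- above
          have e1 : (2 * j + 1) * h = (2 * j' + 1) * κ + s' * h := by
            rw [hκ, hc1]; ring
          have hal := alive_comap φ hφ hc2
          have e2 : b = (2 * j' + 1) * κ + (s' * h + s) := by omega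
          have hleZ : ((s' * h + s : ℕ) : ℤ) ≤ κ := by
            rw [hκZ]; push_cast; linarith
          have hle : s' * h + s ≤ κ := by exact_mod_cast hleZ
          have hW := le_fG (G := G) (b := b)
            (v := ((κ : ℤ) - (s' * h + s : ℕ)) * ((κ : ℤ) - 5 * (s' * h + s : ℕ)))
            (Or.inr ⟨H'.comap φ, j', s' * h + s, hle, rfl, Or.inr ⟨e2, hal⟩⟩)
          have hvm : ((h : ℤ) - s) * (h - 5 * s) ≤
              ((κ : ℤ) - (s' * h + s : ℕ)) * ((κ : ℤ) - 5 * (s' * h + s : ℕ)) := by
            push_cast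
            exact val_mono (by rw [hκZ]; linarith) (by rw [hκZ]; linarith) h5s.le (by linarith)
          linarith
  · -- `b + s = (2 j + 1) h`
    rcases hc with hj0 | hval
    · subst hj0
      have h3 : h * 3 ≤ n := by rw [hG]; exact Nat.mul_le_mul_left _ hq3
      omega
    · have hsZ : 3 * (s : ℤ) < h := by exact_mod_cast h3s
      have hs0 : (0 : ℤ) ≤ s := by positivity
      have h5s : 0 < (h : ℤ) - 5 * s := by
        by_contra hneg
        push Not at hneg
        have : ((h : ℤ) - s) * (h - 5 * s) ≤ 0 :=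
          mul_nonpos_of_nonneg_of_nonpos (by linarith) hneg
        linarith
      rcases hv with hv | ⟨H', j', s', hs', hv', hc⟩
      · obtain ⟨q', h', d, a1, a2, a3, a4⟩ := hWI hv
        have a5 : q' * (h' * h) = n := by rw [hG, ← a2]; ring
        obtain ⟨p, hp0, ψ, hψ, h3, h4, h5⟩ := hprime q' (h' * h) a1 a5
        have h6 : p ≤ q' := Nat.le_of_dvd (by omega) h4
        have e1 : h * (3 * (2 * j + 1) + h') = h * (2 * q' * h' + 3 * d) := by rw [a4]
        have e2 : h * (3 * (2 * j + 1) + h') = 3 * ((2 * j + 1) * h) + h' * h := by ring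
        have e3 : h * (2 * q' * h' + 3 * d) = 2 * (q' * (h' * h)) + 3 * (d * h) := by ring
        rw [e2, e3] at e1
        rcases Nat.eq_zero_or_pos d with hd | hd
        · subst hd
          -- `q' = p`
          have hqp : q' < 2 * p := by
            have hκ0 : 0 < h' * h := by positivity
            have b1 : p * (3 * b) + p * (3 * s) + p * (h' * h) = 2 * (p * n) := by
              have : 3 * b + 3 * s + h' * h = 2 * n := by rw [← a5]; omega
              calc p * (3 * b) + p * (3 * s) + p * (h' * h) = p * (3 * b + 3 * s + h' * h) := by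
                    ring
                _ = 2 * (p * n) := by rw [this]; ring
            have b2 : 3 * (p * b) = p * (3 * b) := by ring
            have b3 : (p + 1) * n = p * n + n := by ring
            have b4 : p * (3 * s) ≤ p * (h' * h) := by
              refine Nat.mul_le_mul_left _ ?_
              have : h ≤ h' * h := Nat.le_mul_of_pos_left _ a3
              omega
            have b5 : n < 2 * (p * (h' * h)) := by
              rw [b2, b3] at h5; omega
            rw [← a5] at b5
            have b6 : q' * (h' * h) < (2 * p) * (h' * h) := by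
              calc q' * (h' * h) < 2 * (p * (h' * h)) := b5
                _ = (2 * p) * (h' * h) := by ring
            exact lt_of_mul_lt_mul_right b6 (Nat.zero_le _)
          have hqp2 : q' = p := by
            obtain ⟨k, hk⟩ := h4
            have hp1 : 0 < p := Nat.pos_of_ne_zero hp0.ne
            have : k < 2 := by
              by_contra hk2
              push Not at hk2
              have : p * 2 ≤ p * k := Nat.mul_le_mul_left _ hk2
              omega
            have hk0 : k ≠ 0 := by rintro rfl; omega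
            have : k = 1 := by omega
            rw [hk, this, mul_one]
          subst hqp2
          obtain ⟨t, ht⟩ : ∃ t, q' = 3 * t + 2 := ⟨q' / 3, by omega⟩
          have hker := card_ker_mul ψ hψ
          have hκ : Nat.card ψ.ker = h' * h := by
            have : q' * Nat.card ψ.ker = q' * (h' * h) := by rw [a5, hn, hker]
            exact Nat.eq_of_mul_eq_mul_left (by omega) this
          have e4 : b + s = (2 * t + 1) * Nat.card ψ.ker := by
            rw [hκ]
            have : 2 * (q' * (h' * h)) = 6 * (t * (h' * h)) + 4 * (h' * h) := by rw [ht]; ring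
            have e5 : (2 * t + 1) * (h' * h) = 2 * (t * (h' * h)) + h' * h := by ring
            rw [e5]; omega
          have hle : h ≤ h' * h := Nat.le_mul_of_pos_left _ a3
          have hW := wit_below ψ hψ e4 (by rw [hκ]; omega) (by omega)
          have hleZ : (h : ℤ) ≤ (Nat.card ψ.ker : ℤ) := by
            rw [hκ]; exact_mod_cast hle
          have hvm : ((h : ℤ) - s) * (h - 5 * s) ≤
              ((Nat.card ψ.ker : ℤ) - s) * ((Nat.card ψ.ker : ℤ) - 5 * s) :=
            val_mono (by linarith) (by linarith) h5s.le (by linarith)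
          linarith
        · refine prime_num (κ := h' * h) (q := q') (c := 0) (by positivity) a5 h6 ?_ rfl h5
          have : h ≤ d * h := Nat.le_mul_of_pos_left _ hd
          omega
      · have hκ := card_comap' φ hφ H'
        rw [← hh] at hκ
        set h' : ℕ := Nat.card H' with hh'
        set κ : ℕ := Nat.card (H'.comap φ) with hκd
        have hs'Z : (s' : ℤ) ≤ h' := by exact_mod_cast hs'
        have hs'0 : (0 : ℤ) ≤ s' := by positivity
        have hpos1 : 0 < (h' : ℤ) - s' := by
          rcases lt_or_eq_of_le (show 0 ≤ (h' : ℤ) - s' by linarith) with hlt | heq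
          · exact hlt
          · rw [hv', ← heq] at hEv; simp at hEv
        have hpos2 : 0 < (h' : ℤ) - 5 * s' := by
          by_contra hneg
          push Not at hneg
          have : ((h' : ℤ) - s') * (h' - 5 * s') ≤ 0 :=
            mul_nonpos_of_nonneg_of_nonpos hpos1.le hneg
          linarith
        have hκZ : (κ : ℤ) = h' * h := by exact_mod_cast hκ
        have hh0 : (0 : ℤ) < h := by linarith
        have hm1 : (h : ℤ) ≤ ((h' : ℤ) - s') * h := le_mul_of_one_le_left hh0.le (by omega)
        have hm2 : (h : ℤ) ≤ ((h' : ℤ) - 5 * s') * h := le_mul_of_one_le_left hh0.le (by omega)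
        have em1 : ((h' : ℤ) - s') * h = h' * h - s' * h := by ring
        have em2 : ((h' : ℤ) - 5 * s') * h = h' * h - 5 * (s' * h) := by ring
        rw [em1] at hm1
        rw [em2] at hm2
        rcases hc with ⟨hc1, hc2⟩ | ⟨hc1, hc2⟩
        · -- below
          have e1 : (2 * j + 1) * h + s' * h = (2 * j' + 1) * κ := by
            rw [hκ]
            calc (2 * j + 1) * h + s' * h = (2 * j + 1 + s') * h := by ring
              _ = (2 * j' + 1) * (h' * h) := by rw [hc1]; ring
          have hal := alive_comap φ hφ hc2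
          have e2 : b + (s' * h + s) = (2 * j' + 1) * κ := by omega
          have hleZ : ((s' * h + s : ℕ) : ℤ) ≤ κ := by
            rw [hκZ]; push_cast; linarith
          have hle : s' * h + s ≤ κ := by exact_mod_cast hleZ
          have hW := le_fG (G := G) (b := b)
            (v := ((κ : ℤ) - (s' * h + s : ℕ)) * ((κ : ℤ) - 5 * (s' * h + s : ℕ)))
            (Or.inr ⟨H'.comap φ, j', s' * h + s, hle, rfl, Or.inl ⟨e2, hal⟩⟩)
          have hvm : ((h : ℤ) - s) * (h - 5 * s) ≤
              ((κ : ℤ) - (s' * h + s : ℕ)) * ((κ : ℤ) - 5 * (s' * h + s : ℕ)) := by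
            push_cast
            exact val_mono (by rw [hκZ]; linarith) (by rw [hκZ]; linarith) h5s.le (by linarith)
          linarith
        · -- above
          have e1 : (2 * j + 1) * h = (2 * j' + 1) * κ + s' * h := by
            rw [hκ, hc1]; ring
          have hal := alive_comap φ hφ hc2
          rcases Nat.eq_zero_or_pos s' with hz | hz
          · rw [hz, zero_mul, add_zero] at e1
            have e2 : b + s = (2 * j' + 1) * κ := by rw [hbe, e1]
            have hle : s ≤ κ := by
              rw [hκ]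
              have : h ≤ h' * h := Nat.le_mul_of_pos_left _ (by omega)
              omega
            have hW := le_fG (G := G) (b := b) (v := ((κ : ℤ) - s) * ((κ : ℤ) - 5 * s))
              (Or.inr ⟨H'.comap φ, j', s, hle, rfl, Or.inl ⟨e2, hal.mono (by omega)⟩⟩)
            have hκh : (h : ℤ) ≤ κ := by
              have h01 := hm1
              rw [hz] at h01
              rw [hκZ]
              simpa using h01
            have hvm : ((h : ℤ) - s) * (h - 5 * s) ≤ ((κ : ℤ) - s) * ((κ : ℤ) - 5 * s) :=
              val_mono (by linarith) (by linarith) h5s.le (by linarith)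
            linarith
          · have hsh : s ≤ s' * h := by
              have : h ≤ s' * h := Nat.le_mul_of_pos_left _ hz
              omega
            have e2 : b = (2 * j' + 1) * κ + (s' * h - s) := by omega
            have hle : s' * h - s ≤ κ := by
              rw [hκ]
              have : s' * h ≤ h' * h := Nat.mul_le_mul_right _ hs'
              omega
            have hW := le_fG (G := G) (b := b)
              (v := ((κ : ℤ) - (s' * h - s : ℕ)) * ((κ : ℤ) - 5 * (s' * h - s : ℕ)))
              (Or.inr ⟨H'.comap φ, j', s' * h - s, hle, rfl, Or.inr ⟨e2, hal⟩⟩)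
            have hvm : ((h : ℤ) - s) * (h - 5 * s) ≤
                ((κ : ℤ) - (s' * h - s : ℕ)) * ((κ : ℤ) - 5 * (s' * h - s : ℕ)) := by
              rw [Nat.cast_sub hsh]
              push_cast
              exact val_mono (by rw [hκZ]; linarith) (by rw [hκZ]; linarith) h5s.le (by linarith)
            linarith

end

end Pool.Agent.SCH
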