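import Mathlib
import Pool.Agent.Lib_helper26.SCH.M3
import Pool.Agent.Lib_helper26.SCH.Even
import Pool.Agent.Lib_helper26.SCH.E3
import Pool.Agent.Lib_helper26.SCH.RSI
import Pool.Agent.Lib_helper13.PL.FOU2
import Pool.Agent.Lib_helper13.PL.KKT
import Pool.Agent.Lib_helper28.GL.Glue

/-!
# The case tree
-/

set_option autoImplicit false
set_option linter.unusedSectionVars false

namespace Pool.Agent.SCH

open Finset Pool.Agent.GL Pool.Agent.Lib_helper42.RS Pool.Agent.Lib_helper13.PL

universe u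

/-- no wrap (the same proposition as `POS.NoWrap`) -/
def NW {G : Type u} [AddCommGroup G] {m : ℕ} (φ : G →+ ZMod m) (B : Finset G) : Prop :=
  ∀ x ∈ B, 3 * |(φ x).valMinAbs| < (m : ℤ)

/-- the situation in a counterexample, after the trivial range, gluing and no wrap -/
structure Ctx {G : Type u} [AddCommGroup G] [Fintype G] [DecidableEq G] (B : Finset G) {m : ℕ}
    (χ : AddChar G ℂ) (φ : G →+ ZMod m) : Prop where
  ih : ∀ M : AddSubgroup G, M ≠ ⊤ → Main M
  ihc : ∀ (Q : Type u) [AddCommGroup Q] [Fintype Q] [DecidableEq Q],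
    Fintype.card Q < Fintype.card G → Main Q
  maxi : IsMaxi B
  big : fG G B.card < GL.FF B
  hm : 4 ≤ m
  surj : Function.Surjective φ
  std : Std χ φ
  largest : ∀ ψ : AddChar G ℂ, ψ ≠ 0 → (hat B ψ).re ≤ (hat B χ).re
  fou : (Fintype.card G : ℝ) * (((GL.FF B : ℤ) : ℝ) + 3 * (B.card : ℝ) ^ 2) ≤
    4 * (B.card : ℝ) ^ 3 +
      4 * (hat B χ).re * ((Fintype.card G : ℝ) * B.card - (B.card : ℝ) ^ 2)
  glue : 7 * (B.filter (fun x => φ x = 0)).card < 4 * B.card
  wrap : ∃ x ∈ B, (m : ℤ) ≤ 3 * |(φ x).valMinAbs|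
  triv : ∀ (q : ℕ) [NeZero q] (ψ : G →+ ZMod q), Function.Surjective ψ →
    q * B.card + ((q + 1) / 3) * Fintype.card G < q * Fintype.card G

/-- case `β ≤ 9/20` -/
def NCase : Prop :=
  ∀ (G : Type u) [AddCommGroup G] [Fintype G] [DecidableEq G] (B : Finset G) (m : ℕ)
    (χ : AddChar G ℂ) (φ : G →+ ZMod m), Ctx B χ φ →
    20 * B.card ≤ 9 * Fintype.card G → False

/-- case `β > 9/20`, odd order -/
def DCase : Prop :=
  ∀ (G : Type u) [AddCommGroup G] [Fintype G] [DecidableEq G] (B : Finset G) (m : ℕ)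
    (χ : AddChar G ℂ) (φ : G →+ ZMod m), Ctx B χ φ → Odd (Fintype.card G) →
    9 * Fintype.card G < 20 * B.card →
    (3 * B.card ≤ 2 * Fintype.card G → GL.FF B ≤ 1 ∧ fG G B.card ≤ 0) → False

/-- no wrap, `7 c ≤ 4 b` -/
def S4Case : Prop :=
  ∀ (G : Type u) [AddCommGroup G] [Fintype G] [DecidableEq G] (B : Finset G) (m : ℕ) [NeZero m]
    (φ : G →+ ZMod m), Function.Surjective φ → NW φ B →
    7 * (B.filter (fun x => φ x = 0)).card ≤ 4 * B.card → Bd G B.card (GL.FF B)

section
variable {G : Type u} [AddCommGroup G] [Fintype G] [DecidableEq G]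

/-- `f_G(b) ≥ - b² / 3` -/
lemma fG_ge_third {b : ℕ} (h1 : 1 ≤ b) (h2 : b ≤ Fintype.card G) :
    -(b : ℤ) ^ 2 ≤ 3 * fG G b + 2 := by
  -- the largest integer `F` with `3 F ≤ - b²`
  set F : ℤ := (-(b : ℤ) ^ 2) / 3 with hF
  have h3 : 3 * F ≤ -(b : ℤ) ^ 2 := by
    rw [hF]; exact Int.mul_ediv_self_le (by norm_num)
  have h4 : Bd G b F := LB h1 (by rwa [Nat.card_eq_fintype_card]) h3
  rw [Bd_iff h2] at h4
  have h5 : -(b : ℤ) ^ 2 < 3 * F + 3 := by rw [hF]; omega
  linarith

/-- the real part for `m = 2` -/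
lemma re_two {χ : AddChar G ℂ} {φ : G →+ ZMod 2} (h : Std χ φ) (B : Finset G) :
    (hat B χ).re = 2 * ((B.filter (fun x => φ x = 0)).card : ℝ) - B.card := by
  rw [hat_re_eq B h]
  have e : ∀ x ∈ B, Real.cos (2 * Real.pi * (φ x).valMinAbs / (2 : ℕ)) =
      2 * (if φ x = 0 then 1 else 0) - 1 := by
    intro x _
    have h2 : φ x = 0 ∨ φ x = 1 := by
      generalize φ x = z
      revert z; decide
    rcases h2 with h0 | h1
    · rw [h0, if_pos rfl]
      simp
      norm_num
    · rw [h1, if_neg (by decide)]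
      have : ((1 : ZMod 2)).valMinAbs = 1 := by decide
      rw [this]
      push_cast
      have e2 : 2 * Real.pi * 1 / 2 = Real.pi := by ring
      rw [e2, Real.cos_pi]
      norm_num
  rw [Finset.sum_congr rfl e, Finset.sum_sub_distrib, ← Finset.mul_sum, ← Finset.sum_filter]
  simp

/-- the case tree -/
theorem step_of (hS4 : S4Case.{u}) (hN : NCase.{u}) (hD : DCase.{u})
    (ihc : ∀ (Q : Type u) [AddCommGroup Q] [Fintype Q] [DecidableEq Q],
      Fintype.card Q < Fintype.card G → Main Q) : Main G := by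
  have ih : ∀ M : AddSubgroup G, M ≠ ⊤ → Main M := by
    intro M hM
    have : Fintype M := Fintype.ofFinite M
    refine ihc M ?_
    rw [← Nat.card_eq_fintype_card, ← Nat.card_eq_fintype_card]
    exact lt_of_le_of_ne (Nat.le_of_dvd Nat.card_pos (AddSubgroup.card_addSubgroup_dvd_card M))
      (fun h => hM (AddSubgroup.eq_top_of_card_eq M h))
  apply main_of_maxi
  intro B hmax hbig
  have hbn : B.card ≤ Fintype.card G := Finset.card_le_univ B
  have hcontra : ¬ Bd G B.card (GL.FF B) := by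
    intro h
    rw [Bd_card_iff] at h
    linarith
  -- trivial range
  have htriv : ∀ (q : ℕ) [NeZero q] (ψ : G →+ ZMod q), Function.Surjective ψ →
      q * B.card + ((q + 1) / 3) * Fintype.card G < q * Fintype.card G := by
    intro q _ ψ hψ
    by_contra hc
    exact hcontra (triv_phi ψ hψ B (not_lt.mp hc))
  have hblt : B.card < Fintype.card G := by
    refine lt_of_le_of_ne hbn fun h => hcontra (triv_regime (S := ∅) ?_ ?_)
    · intro x hx; simp at hx
    · simpa using h
  have hb1 : 1 ≤ B.card := by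
    rcases Nat.eq_zero_or_pos B.card with h | h
    · exfalso
      rw [Finset.card_eq_zero] at h
      apply hcontra
      subst h
      refine ⟨0, Or.inr ⟨⊥, 0, 1, by simp, by simp, Or.inl ⟨by simp, 0, ?_⟩⟩, ?_⟩
      · intro i h0 h1; omega
      · simp [GL.FF, GL.sch]
    · exact h
  have hnt : Nontrivial G := by
    rw [← Fintype.one_lt_card_iff_nontrivial]; omega
  obtain ⟨χ, m, φ, hm2, hsurj, hstd, hlar, hfou⟩ := fou_FF (G := G) B
  rw [Nat.card_eq_fintype_card] at hfou
  have : NeZero m := ⟨by omega⟩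
  have hn0 : (0 : ℝ) < Fintype.card G := by exact_mod_cast Fintype.card_pos
  -- exponent three
  have hexpo : ¬ ((∀ g : G, g + g + g = 0) ∧ Fintype.card G ≤ 3 * B.card) := by
    rintro ⟨h3, hb⟩
    exact hcontra (e3 h3 hnt B hb)
  have hth : -(B.card : ℤ) ^ 2 ≤ 3 * GL.FF B := by
    have := fG_ge_third (G := G) hb1 hbn
    omega
  -- gluing
  have ihB : ∀ M : AddSubgroup G, M ≠ ⊤ → ∀ B' : Finset M, Bd M B'.card (GL.FF B') := by
    intro M hM B'
    classical
    have := ih M hM
    have h2 := this B'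
    convert h2
  rcases Nat.lt_or_ge 2 m with hm3 | hm3
  · have hglue : 7 * (B.filter (fun x => φ x = 0)).card < 4 * B.card := by
      by_contra hc
      exact hcontra (gluing_zmod ihB B m hm2 φ hsurj (not_lt.mp hc) (fun h => by omega))
    rcases eq_or_lt_of_le (show 3 ≤ m from hm3) with h3 | hm4
    · subst h3
      exact m3_case hsurj hstd hbig hfou hglue hth htriv hexpo
    by_cases hw : ∃ x ∈ B, (m : ℤ) ≤ 3 * |(φ x).valMinAbs|
    · have ctx : Ctx B χ φ :=
        ⟨ih, ihc, hmax, hbig, hm4, hsurj, hstd, hlar, hfou, hglue, hw, htriv⟩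
      rcases le_or_gt (20 * B.card) (9 * Fintype.card G) with h | h
      · exact hN G B m χ φ ctx h
      · by_cases hev : 2 ∣ Fintype.card G
        · exact even_case (by omega) hsurj hstd hbig hfou htriv hev h
        · have hodd : Odd (Fintype.card G) := Nat.odd_iff.mpr (by omega)
          refine hD G B m χ φ ctx hodd h fun h3 => ?_
          have h4 := rs_ind B hodd h h3 hbig htriv ihc
          exact ⟨h4, by linarith [hbig]⟩
    · push Not at hw
      exact hcontra (hS4 G B m φ hsurj hw hglue.le)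
  · -- `m = 2`
    obtain rfl : m = 2 := by omega
    have h2 := htriv 2 φ hsurj
    have h3 : 2 * B.card < Fintype.card G := by norm_num at h2; omega
    have hre := re_two hstd B
    set c := (B.filter (fun x => φ x = 0)).card with hc
    -- `3 c ≥ 2 b`
    have hF : -(B.card : ℝ) ^ 2 ≤ 3 * ((GL.FF B : ℤ) : ℝ) := by
      exact_mod_cast hth
    rw [hre] at hfou
    have hbR : (0 : ℝ) < B.card := by exact_mod_cast hb1
    have h3R : 2 * (B.card : ℝ) < Fintype.card G := by exact_mod_cast h3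
    have hkey : 2 * (B.card : ℝ) ≤ 3 * c := by
      by_contra hcc
      push Not at hcc
      set b : ℝ := (B.card : ℝ)
      set n : ℝ := (Fintype.card G : ℝ)
      set F : ℝ := ((GL.FF B : ℤ) : ℝ)
      -- n (F + 3 b²) ≤ 4 b³ + 4 (2c - b)(n b - b²), 2c - b < b/3
      have h6 : (2 * (c:ℝ) - b) * (n * b - b ^ 2) < (b / 3) * (n * b - b ^ 2) := by
        apply mul_lt_mul_of_pos_right
        · linarith
        · have : n * b - b ^ 2 = b * (n - b) := by ring
          rw [this]; exact mul_pos hbR (by linarith)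
      have h7 : n * (-(b ^ 2) / 3 + 3 * b ^ 2) ≤ n * (F + 3 * b ^ 2) := by
        apply mul_le_mul_of_nonneg_left _ hn0.le
        linarith
      have h8 : n * (-(b ^ 2) / 3 + 3 * b ^ 2) < 4 * b ^ 3 + 4 * ((b / 3) * (n * b - b ^ 2)) := by
        linarith
      have h9 : b ^ 2 * (4 * n - 8 * b) < 0 := by nlinarith
      have h10 : 0 ≤ b ^ 2 * (4 * n - 8 * b) := mul_nonneg (sq_nonneg b) (by linarith)
      linarith
    have hkeyN : 2 * B.card ≤ 3 * c := by exact_mod_cast hkey
    exact hcontra (gluing_zmod ihB B 2 le_rfl φ hsurj (by omega) (fun _ => hkeyN))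

end

/-- the main bound for all groups from the three cases -/
theorem main_of_cases (hS4 : S4Case.{u}) (hN : NCase.{u}) (hD : DCase.{u}) :
    ∀ (G : Type u) [AddCommGroup G] [Fintype G] [DecidableEq G], Main G :=
  main_all' fun _ _ _ _ ih => step_of hS4 hN hD ih

end Pool.Agent.SCH
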