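import Mathlib
import Pool.Agent.Lib_helper26.SCH.Skel
import Pool.Agent.Lib_helper42.RS.Main

/-!
# Pollard's bound in `ZMod m` for sets which avoid a short arc
-/

set_option autoImplicit false
set_option linter.unusedSectionVars false

namespace Pool.Agent.SCH

open Finset Pool.Agent.GL Pool.Agent.Lib_helper42.RS

section
variable {m : ℕ} [NeZero m]

/-- the hole -/
def hole (m J : ℕ) [NeZero m] : Finset (ZMod m) := univ.filter (fun i => |i.valMinAbs| ≤ (J : ℤ))

/-- `U` avoids the hole -/
def Av (J : ℕ) (U : Finset (ZMod m)) : Prop := ∀ i ∈ U, (J : ℤ) < |i.valMinAbs|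

lemma valMinAbs_intCast {a : ℤ} {J : ℕ} (hJ : 2 * J + 1 ≤ m) (ha : |a| ≤ (J : ℤ)) :
    ((a : ZMod m)).valMinAbs = a := by
  rw [ZMod.valMinAbs_spec]
  refine ⟨rfl, ?_⟩
  have h1 := abs_le.mp ha
  have h2 : 2 * (J : ℤ) + 1 ≤ m := by exact_mod_cast hJ
  simp only [Set.mem_Ioc]
  constructor <;> linarith

lemma exists_block (H : AddSubgroup (ZMod m)) {d : ℕ} (hd : m = d * Nat.card H) (z : ZMod m) :
    ∃ j : ℕ, j < d ∧ z + (j : ZMod m) ∈ H := by
  classical
  have hc : 0 < Nat.card H := Nat.card_pos
  have hm : 0 < m := Nat.pos_of_ne_zero (NeZero.ne m)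
  have hd0 : 0 < d := by
    rcases Nat.eq_zero_or_pos d with h | h
    · rw [h] at hd; omega
    · exact h
  have hidx : Nat.card (ZMod m ⧸ H) = d := by
    have h1 := AddSubgroup.card_mul_index H
    rw [Nat.card_zmod] at h1
    have h2 : Nat.card H * H.index = Nat.card H * d := by rw [h1, mul_comm, ← hd]
    exact Nat.eq_of_mul_eq_mul_left hc h2
  let f : Fin d → ZMod m ⧸ H := fun j => ((j.val : ZMod m) : ZMod m ⧸ H)
  have key : ∀ n : ℕ, 0 < n → n < d → (n : ZMod m) ∉ H := by
    intro n h0 h1 hn
    have h2 : Nat.card H • (⟨(n : ZMod m), hn⟩ : H) = 0 := card_nsmul_eq_zero'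
    have h3 : Nat.card H • (n : ZMod m) = 0 := by
      have := congrArg (Subtype.val) h2
      simpa only [AddSubgroup.coe_nsmul, AddSubgroup.coe_zero] using this
    rw [nsmul_eq_mul, ← Nat.cast_mul, ZMod.natCast_eq_zero_iff] at h3
    obtain ⟨t, ht⟩ := h3
    have h4 : Nat.card H * n = Nat.card H * (d * t) := by
      rw [ht]; conv_lhs => rw [hd]
      ring
    have h5 := Nat.eq_of_mul_eq_mul_left hc h4
    rcases Nat.eq_zero_or_pos t with h | h
    · rw [h] at h5; omega
    · have := Nat.mul_le_mul_left d h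
      omega
  have hinj : Function.Injective f := by
    intro a b hab
    have h1 : -((a.val : ℕ) : ZMod m) + ((b.val : ℕ) : ZMod m) ∈ H := QuotientAddGroup.eq.mp hab
    rcases lt_trichotomy a.val b.val with h | h | h
    · exfalso
      apply key (b.val - a.val) (by omega) (by omega)
      rw [Nat.cast_sub h.le]
      convert h1 using 1; ring
    · exact Fin.ext h
    · exfalso
      apply key (a.val - b.val) (by omega) (by omega)
      rw [Nat.cast_sub h.le]
      convert H.neg_mem h1 using 1; ring
  have hbij : Function.Bijective f := by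
    apply Function.Injective.bijective_of_nat_card_le hinj
    rw [hidx, Nat.card_eq_fintype_card, Fintype.card_fin]
  obtain ⟨j, hj⟩ := hbij.2 ((-z : ZMod m) : ZMod m ⧸ H)
  refine ⟨j.val, j.2, ?_⟩
  have := QuotientAddGroup.eq.mp hj.symm
  simpa using this

/-- every coset meets the hole -/
lemma hole_coset {J d : ℕ} (hJ : 2 * J + 1 ≤ m) (H : AddSubgroup (ZMod m))
    [DecidablePred (· ∈ H)] (hd : m = d * Nat.card H) (x : ZMod m) :
    (2 * J + 1) / d ≤ ((hole m J).filter (fun y => y - x ∈ H)).card := by
  classical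
  set μ := (2 * J + 1) / d with hμ
  have hm : 0 < m := Nat.pos_of_ne_zero (NeZero.ne m)
  have hd0 : 0 < d := by
    rcases Nat.eq_zero_or_pos d with h | h
    · rw [h] at hd; omega
    · exact h
  have hμd : μ * d ≤ 2 * J + 1 := Nat.div_mul_le_self _ _
  choose g hg using fun t : ℕ => exists_block H hd ((-(J : ℤ) + t * d : ℤ) - x)
  have hcard : ((Finset.range μ).card : ℕ) = μ := Finset.card_range μ
  rw [← hcard]
  apply Finset.card_le_card_of_injOn (fun t => (((-(J : ℤ) + t * d + g t : ℤ)) : ZMod m))
  · intro t ht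
    have ht' : t < μ := Finset.mem_range.mp ht
    have h1 : t * d + d ≤ 2 * J + 1 := by
      calc t * d + d = (t + 1) * d := by ring
        _ ≤ μ * d := Nat.mul_le_mul_right d ht'
        _ ≤ _ := hμd
    have h2 := (hg t).1
    have h3 : |(-(J : ℤ) + t * d + g t : ℤ)| ≤ (J : ℤ) := by
      rw [abs_le]
      zify at h1 h2
      constructor
      · have : (0:ℤ) ≤ t * d := by positivity
        linarith [Int.natCast_nonneg (g t)]
      · linarith
    simp only [Finset.coe_filter, Set.mem_ofPred_eq, hole, Finset.mem_filter, Finset.mem_univ,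
      true_and]
    refine ⟨by rw [valMinAbs_intCast hJ h3]; exact h3, ?_⟩
    have h4 := (hg t).2
    convert h4 using 1
    push_cast; ring
  · intro t ht t' ht' hh
    have bd : ∀ t, t ∈ (↑(Finset.range μ) : Set ℕ) → |(-(J : ℤ) + t * d + g t : ℤ)| ≤ (J : ℤ) := by
      intro t ht
      have ht' : t < μ := Finset.mem_range.mp ht
      have h1 : t * d + d ≤ 2 * J + 1 := by
        calc t * d + d = (t + 1) * d := by ring
          _ ≤ μ * d := Nat.mul_le_mul_right d ht'
          _ ≤ _ := hμd
      have h2 := (hg t).1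
      rw [abs_le]
      zify at h1 h2
      constructor
      · have : (0:ℤ) ≤ t * d := by positivity
        linarith [Int.natCast_nonneg (g t)]
      · linarith
    have e1 := valMinAbs_intCast (m := m) hJ (bd t ht)
    have e2 := valMinAbs_intCast (m := m) hJ (bd t' ht')
    simp only at hh
    rw [hh] at e1
    have e3 : (-(J : ℤ) + t * d + g t : ℤ) = (-(J : ℤ) + t' * d + g t' : ℤ) := e1.symm.trans e2
    have h2 := (hg t).1
    have h2' := (hg t').1
    have e4 : t * d + g t = t' * d + g t' := by zify; linarith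
    by_contra hne
    rcases lt_or_gt_of_ne hne with h | h
    · have := Nat.mul_le_mul_right d (show t + 1 ≤ t' from h)
      have e5 : (t + 1) * d = t * d + d := by ring
      omega
    · have := Nat.mul_le_mul_right d (show t' + 1 ≤ t from h)
      have e5 : (t' + 1) * d = t' * d + d := by ring
      omega

/-- a periodic set meets the hole -/
lemma per_hole {J d : ℕ} (hJ : 2 * J + 1 ≤ m) (H : AddSubgroup (ZMod m))
    (hd : m = d * Nat.card H) {P : Finset (ZMod m)} (hP : Per H P) :
    (2 * J + 1) / d * P.card ≤ Nat.card H * (P ∩ hole m J).card := by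
  classical
  have h1 : ∑ x ∈ P, ((hole m J).filter (fun y => y - x ∈ H)).card =
      ∑ y ∈ hole m J, (P.filter (fun x => y - x ∈ H)).card := by
    simp only [Finset.card_filter]
    rw [Finset.sum_comm]
  have h2 : (2 * J + 1) / d * P.card ≤ ∑ x ∈ P, ((hole m J).filter (fun y => y - x ∈ H)).card := by
    rw [mul_comm, ← smul_eq_mul, ← Finset.sum_const]
    exact Finset.sum_le_sum fun x _ => hole_coset hJ H hd x
  have h3 : ∀ y ∈ hole m J, (P.filter (fun x => y - x ∈ H)).card ≤
      if y ∈ P then Nat.card H else 0 := by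
    intro y _
    split_ifs with hy
    · -- the coset `y + H`
      have e : (P.filter (fun x => y - x ∈ H)).card ≤
          (univ.filter (fun x : ZMod m => x ∈ H)).card := by
        apply Finset.card_le_card_of_injOn (fun x => y - x)
        · intro x hx
          simp only [Finset.coe_filter, Set.mem_ofPred_eq, Finset.mem_univ, true_and] at hx ⊢
          exact hx.2
        · intro a _ b _ hab
          exact sub_right_injective hab
      have e2 : (univ.filter (fun x : ZMod m => x ∈ H)).card = Nat.card H := by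
        rw [Nat.card_eq_fintype_card, Fintype.card_subtype]
      rw [← e2]; exact e
    · rw [Nat.le_zero, Finset.card_eq_zero, Finset.filter_eq_empty_iff]
      intro x hx hh
      apply hy
      have := (hP x (y - x) hh).mpr hx
      simpa using this
  have h4 : ∑ y ∈ hole m J, (P.filter (fun x => y - x ∈ H)).card ≤
      Nat.card H * (P ∩ hole m J).card := by
    refine (Finset.sum_le_sum h3).trans ?_
    rw [← Finset.sum_filter, Finset.sum_const, smul_eq_mul, mul_comm]
    apply Nat.mul_le_mul_left
    apply Finset.card_le_card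
    intro y hy
    simp only [Finset.mem_filter, Finset.mem_inter] at hy ⊢
    exact ⟨hy.2, hy.1⟩
  rw [h1] at h2
  exact h2.trans h4

/-- size and distance of a set which avoids the hole -/
lemma av_size {J : ℕ} {U P : Finset (ZMod m)} (hU : Av J U) :
    (U.card : ℤ) ≤ P.card + ds U P - 2 * (P ∩ hole m J).card ∧
      ((P ∩ hole m J).card : ℤ) ≤ ds U P := by
  classical
  have h1 : ds U P = ((U \ P).card : ℤ) + (P \ U).card := by
    rw [ds_eq_card]
    have : symmDiff U P = (U \ P) ∪ (P \ U) := rfl
    rw [this, Finset.card_union_of_disjoint]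
    · push_cast; rfl
    · rw [Finset.disjoint_left]
      intro x hx hx'
      exact (Finset.mem_sdiff.mp hx').2 (Finset.mem_sdiff.mp hx).1
  have h2 : (U.card : ℤ) = (U \ P).card + (U ∩ P).card := by
    have := Finset.card_sdiff_add_card_inter U P
    exact_mod_cast this.symm
  have h3 : (P.card : ℤ) = (P \ U).card + (P ∩ U).card := by
    have := Finset.card_sdiff_add_card_inter P U
    exact_mod_cast this.symm
  rw [Finset.inter_comm P U] at h3
  have h4 : ((P ∩ hole m J).card : ℤ) ≤ (P \ U).card := by
    have : (P ∩ hole m J).card ≤ (P \ U).card := by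
      apply Finset.card_le_card
      intro x hx
      simp only [Finset.mem_inter, hole, Finset.mem_filter, Finset.mem_univ, true_and,
        Finset.mem_sdiff] at hx ⊢
      exact ⟨hx.1, fun h => absurd (hU x h) (not_lt.mpr hx.2)⟩
    exact_mod_cast this
  have h5 : (0:ℤ) ≤ (U \ P).card := by positivity
  constructor <;> linarith

/-- the trivial bound -/
lemma N_triv1 (U X V : Finset (ZMod m)) :
    (U.card : ℤ) * ((X.card : ℤ) + V.card - m) ≤ N U X V := by
  unfold N tri
  rw [← sum_ind U, Finset.sum_mul]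
  refine Finset.sum_le_sum fun x _ => ?_
  have h1 : ∑ y, ind V (-(x + y)) = (V.card : ℤ) := by
    rw [← sum_ind V]
    refine Function.Bijective.sum_comp (e := fun y => -(x + y)) ?_ (fun z => ind V z)
    refine ⟨fun a b hab => ?_, fun b => ⟨-x - b, ?_⟩⟩
    · simp only at hab
      have := neg_injective hab
      exact add_left_cancel this
    · simp only; ring
  have h2 : ∑ y, (ind X y + ind V (-(x + y)) - 1) ≤ ∑ y, ind X y * ind V (-(x + y)) := by
    refine Finset.sum_le_sum fun y _ => ?_
    unfold ind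
    split_ifs <;> norm_num
  rw [Finset.sum_sub_distrib, Finset.sum_add_distrib, h1, sum_ind] at h2
  simp only [Finset.sum_const, Finset.card_univ, ZMod.card, nsmul_eq_mul, mul_one] at h2
  have h3 : ∑ y, ind U x * ind X y * ind V (-(x + y)) =
      ind U x * ∑ y, ind X y * ind V (-(x + y)) := by
    rw [Finset.mul_sum]
    exact Finset.sum_congr rfl fun y _ => by ring
  rw [h3]
  exact mul_le_mul_of_nonneg_left (by linarith) (ind_nonneg _ _)

/-- **Pollard's bound for sets avoiding the hole** -/
theorem pol {J : ℕ} (hodd : m % 2 = 1) (hJ : 2 * J + 1 ≤ m)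
    (hd : ∀ d, d ∣ m → 3 ≤ d → d < m → m / d ≤ (d + 1) * ((2 * J + 1) / d) + 1)
    {U X V : Finset (ZMod m)} (hU : Av J U) (hX : Av J X) (hV : Av J V) :
    (U.card : ℤ) + X.card + V.card - m ≤ 0 ∨
    ((U.card : ℤ) + X.card + V.card - m) ^ 2 - 1 ≤ 4 * N U X V ∨
    2 * min (U.card : ℤ) (min X.card V.card) ≤ (U.card : ℤ) + X.card + V.card - m := by
  classical
  have hm0 : 0 < m := Nat.pos_of_ne_zero (NeZero.ne m)
  have hVc : ((Vᶜ : Finset (ZMod m)).card : ℤ) = m - V.card := by
    rw [card_compl_int, ZMod.card]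
  have hmiss : miss U X Vᶜ = N U X V := by
    unfold miss N
    rw [compl_compl]
  have hdl : dl U X Vᶜ = ((U.card : ℤ) + X.card + V.card - m) ^ 2 - 4 * N U X V := by
    rw [dl_eq_miss, hmiss, hVc]; ring
  rcases good_all (ZMod m) U X Vᶜ with h | ⟨H, U', X', Z', hO, hr0, hr⟩
  · right; left; rw [hdl] at h; linarith
  rw [hdl] at hr
  obtain ⟨hPU, hPX, hPZ, k, hk⟩ := hO
  set c : ℕ := Nat.card H with hc
  have hc0 : 0 < c := Nat.card_pos
  have hcd : c ∣ m := by
    have := AddSubgroup.card_addSubgroup_dvd_card H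
    rwa [Nat.card_zmod] at this
  obtain ⟨d, hmd⟩ := hcd
  have hmd' : m = d * c := by rw [hmd]; ring
  have hd0 : 0 < d := by
    rcases Nat.eq_zero_or_pos d with h | h
    · rw [h] at hmd; omega
    · exact h
  have hdodd : d % 2 = 1 := by
    rcases Nat.mod_two_eq_zero_or_one d with h | h
    · exfalso
      have : m % 2 = 0 := by rw [hmd', Nat.mul_mod, h]; simp
      omega
    · exact h
  have hrho : rho H U X Vᶜ U' X' Z' = (c : ℤ) - (ds U U' + ds X X' + ds V Z'ᶜ) := by
    unfold rho ds3
    have : ds Vᶜ Z' = ds V Z'ᶜ := by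
      rw [← ds_compl Vᶜ Z', compl_compl]
    rw [this]
  rw [hrho] at hr0 hr
  have hZ' : ((Z'ᶜ : Finset (ZMod m)).card : ℤ) = m - Z'.card := by
    rw [card_compl_int, ZMod.card]
  obtain ⟨zz, hzz⟩ := hPZ.dvd
  by_cases hd1 : d = 1
  · -- `H = ⊤`
    have hcm : c = m := by rw [hmd', hd1, one_mul]
    have hH : H = ⊤ := by
      apply AddSubgroup.eq_top_of_card_eq
      rw [← hc, hcm, Nat.card_zmod]
    have pt : ∀ P : Finset (ZMod m), Per H P → P = ∅ ∨ P = univ := by
      intro P hP
      subst hH
      by_cases hX : P = ∅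
      · exact Or.inl hX
      · right
        obtain ⟨x, hx⟩ := Finset.nonempty_iff_ne_empty.mpr hX
        ext y
        simp only [Finset.mem_univ, iff_true]
        have := (hP x (y - x) (AddSubgroup.mem_top _)).mpr hx
        rwa [add_sub_cancel] at this
    have hmz : (0:ℤ) < m := by exact_mod_cast hm0
    have eU0 := ds_empty U
    have eU1 := ds_univ U
    have eX0 := ds_empty X
    have eX1 := ds_univ X
    have eV0 := ds_empty V
    have eV1 := ds_univ V
    rw [ZMod.card] at eU1 eX1 eV1
    have cu : ((univ : Finset (ZMod m)).card : ℤ) = m := by rw [Finset.card_univ, ZMod.card]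
    rw [hcm] at hk hr0 hr
    rcases pt _ hPU with rfl | rfl <;> rcases pt _ hPX with rfl | rfl <;>
      rcases pt _ hPZ with rfl | rfl <;>
      simp only [Finset.card_empty, cu, Nat.cast_zero, Finset.compl_empty, Finset.compl_univ]
        at hk hr0 hr
    · exfalso
      have : (2 * k + 1) * (m:ℤ) = 0 := by linarith
      rcases mul_eq_zero.mp this with h | h <;> omega
    · left; rw [eU0, eX0, eV0] at hr0; linarith
    · right; right; rw [eU0, eX1, eV1] at hr0
      have := min_le_left (U.card : ℤ) (min X.card V.card)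
      linarith
    · exfalso
      have : (2 * k + 1 - 2) * (m:ℤ) = 0 := by linarith
      rcases mul_eq_zero.mp this with h | h <;> omega
    · right; right; rw [eU1, eX0, eV1] at hr0
      have := (min_le_right (U.card : ℤ) (min X.card V.card)).trans (min_le_left _ _)
      linarith
    · exfalso
      have : (2 * k + 1 - 2) * (m:ℤ) = 0 := by linarith
      rcases mul_eq_zero.mp this with h | h <;> omega
    · exfalso
      have : (2 * k + 1 - 2) * (m:ℤ) = 0 := by linarith
      rcases mul_eq_zero.mp this with h | h <;> omega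
    · right; right; rw [eU1, eX1, eV0] at hr0
      have := (min_le_right (U.card : ℤ) (min X.card V.card)).trans (min_le_right _ _)
      linarith
  · -- `d ≥ 3`
    have hd3 : 3 ≤ d := by omega
    have sU := av_size (P := U') hU
    have sX := av_size (P := X') hX
    have sV := av_size (P := Z'ᶜ) hV
    have dU := ds_nonneg U U'
    have dX := ds_nonneg X X'
    have dV := ds_nonneg V Z'ᶜ
    by_cases hc1 : c = 1
    · right; left
      rw [hc1] at hr0 hr
      push_cast at hr0 hr
      have h9 : (1:ℤ) - (ds U U' + ds X X' + ds V Z'ᶜ) ≤ 1 := by linarith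
      have h10 := pow_le_one₀ (n := 2) hr0 h9
      linarith
    · have hdm : d < m := by
        rw [hmd']
        have : d * 2 ≤ d * c := Nat.mul_le_mul_left d (by omega)
        omega
      have hcm := hd d ⟨c, hmd'⟩ hd3 hdm
      rw [show m / d = c by rw [hmd']; exact Nat.mul_div_cancel_left c hd0] at hcm
      set μ := (2 * J + 1) / d with hμ
      have pU := per_hole hJ H (by rw [← hc]; exact hmd') hPU
      have pX := per_hole hJ H (by rw [← hc]; exact hmd') hPX
      have pZ := per_hole hJ H (by rw [← hc]; exact hmd') hPZ.compl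
      rw [← hμ, ← hc] at pU pX pZ
      zify at pU pX pZ hcm
      set iU : ℤ := ((U' ∩ hole m J).card : ℤ) with hiU
      set iX : ℤ := ((X' ∩ hole m J).card : ℤ) with hiX
      set iV : ℤ := ((Z'ᶜ ∩ hole m J).card : ℤ) with hiV
      have nU : 0 ≤ iU := by positivity
      have nX : 0 ≤ iX := by positivity
      have nV : 0 ≤ iV := by positivity
      have hcz : (0:ℤ) < c := by exact_mod_cast hc0
      have hmz : (m:ℤ) = d * c := by exact_mod_cast hmd'
      set tot : ℤ := (U'.card : ℤ) + X'.card + (Z'ᶜ : Finset (ZMod m)).card with htot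
      obtain ⟨δ, hδ⟩ : ∃ δ : ℤ, (d : ℤ) = 2 * δ + 1 := ⟨(d / 2 : ℕ), by omega⟩
      have htot2 : tot = (2 * (k + 1 + δ - zz)) * c := by
        rw [htot, hZ', hmz, hzz, hδ]
        rw [hzz] at hk
        linarith
      by_cases hle : tot ≤ m - c
      · left; linarith
      · right; left
        push Not at hle
        have h1 : (d:ℤ) + 1 ≤ 2 * (k + 1 + δ - zz) := by
          have h2 : ((d:ℤ) - 1) * c < (2 * (k + 1 + δ - zz)) * c := by
            rw [← htot2]; linarith
          have h3 := lt_of_mul_lt_mul_right h2 hcz.le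
          omega
        have hμ0 : (0:ℤ) ≤ μ := by positivity
        have h4 : (μ:ℤ) * (((d:ℤ) + 1) * c) ≤ (c:ℤ) * (iU + iX + iV) := by
          have h5 : ((d:ℤ) + 1) * c ≤ tot := by
            rw [htot2]; exact mul_le_mul_of_nonneg_right h1 hcz.le
          have h6 := mul_le_mul_of_nonneg_left h5 hμ0
          have h7 : (μ:ℤ) * tot ≤ (c:ℤ) * (iU + iX + iV) := by
            rw [htot]; linarith
          linarith
        have h8 : (μ:ℤ) * ((d:ℤ) + 1) ≤ iU + iX + iV := by
          have : (c:ℤ) * ((μ:ℤ) * ((d:ℤ) + 1)) ≤ (c:ℤ) * (iU + iX + iV) := by linarith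
          exact le_of_mul_le_mul_left this hcz
        have h9 : (c:ℤ) - (ds U U' + ds X X' + ds V Z'ᶜ) ≤ 1 := by linarith
        have h10 := pow_le_one₀ (n := 2) hr0 h9
        linarith

/-- **Pollard's bound with the bonus of a periodic structure** -/
theorem polK (hodd : m % 2 = 1) (U X V : Finset (ZMod m)) :
    (U.card : ℤ) + X.card + V.card - m ≤ 0 ∨
    ((U.card : ℤ) + X.card + V.card - m) ^ 2 - 1 ≤ 4 * N U X V ∨
    2 * min (U.card : ℤ) (min X.card V.card) ≤ (U.card : ℤ) + X.card + V.card - m ∨
    ∃ (H : AddSubgroup (ZMod m)) (U' X' V' : Finset (ZMod m)), H ≠ ⊥ ∧ H ≠ ⊤ ∧ Per H U' ∧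
      Per H X' ∧ Per H V' ∧ (m : ℤ) + Nat.card H ≤ (U'.card : ℤ) + X'.card + V'.card ∧
      1 < (Nat.card H : ℤ) - (ds U U' + ds X X' + ds V V') ∧
      ((U.card : ℤ) + X.card + V.card - m) ^ 2 - 4 * N U X V ≤
        ((Nat.card H : ℤ) - (ds U U' + ds X X' + ds V V')) ^ 2 := by
  classical
  have hm0 : 0 < m := Nat.pos_of_ne_zero (NeZero.ne m)
  have hVc : ((Vᶜ : Finset (ZMod m)).card : ℤ) = m - V.card := by
    rw [card_compl_int, ZMod.card]
  have hmiss : miss U X Vᶜ = N U X V := by
    unfold miss N
    rw [compl_compl]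
  have hdl : dl U X Vᶜ = ((U.card : ℤ) + X.card + V.card - m) ^ 2 - 4 * N U X V := by
    rw [dl_eq_miss, hmiss, hVc]; ring
  rcases good_all (ZMod m) U X Vᶜ with h | ⟨H, U', X', Z', hO, hr0, hr⟩
  · right; left; rw [hdl] at h; linarith
  rw [hdl] at hr
  obtain ⟨hPU, hPX, hPZ, k, hk⟩ := hO
  set c : ℕ := Nat.card H with hc
  have hc0 : 0 < c := Nat.card_pos
  have hcd : c ∣ m := by
    have := AddSubgroup.card_addSubgroup_dvd_card H
    rwa [Nat.card_zmod] at this
  obtain ⟨d, hmd⟩ := hcd
  have hmd' : m = d * c := by rw [hmd]; ring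
  have hd0 : 0 < d := by
    rcases Nat.eq_zero_or_pos d with h | h
    · rw [h] at hmd; omega
    · exact h
  have hdodd : d % 2 = 1 := by
    rcases Nat.mod_two_eq_zero_or_one d with h | h
    · exfalso
      have : m % 2 = 0 := by rw [hmd', Nat.mul_mod, h]; simp
      omega
    · exact h
  have hrho : rho H U X Vᶜ U' X' Z' = (c : ℤ) - (ds U U' + ds X X' + ds V Z'ᶜ) := by
    unfold rho ds3
    have : ds Vᶜ Z' = ds V Z'ᶜ := by
      rw [← ds_compl Vᶜ Z', compl_compl]
    rw [this]
  rw [hrho] at hr0 hr
  have hZ' : ((Z'ᶜ : Finset (ZMod m)).card : ℤ) = m - Z'.card := by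
    rw [card_compl_int, ZMod.card]
  obtain ⟨zz, hzz⟩ := hPZ.dvd
  by_cases hd1 : d = 1
  · -- `H = ⊤`
    have hcm : c = m := by rw [hmd', hd1, one_mul]
    have hH : H = ⊤ := by
      apply AddSubgroup.eq_top_of_card_eq
      rw [← hc, hcm, Nat.card_zmod]
    have pt : ∀ P : Finset (ZMod m), Per H P → P = ∅ ∨ P = univ := by
      intro P hP
      subst hH
      by_cases hX : P = ∅
      · exact Or.inl hX
      · right
        obtain ⟨x, hx⟩ := Finset.nonempty_iff_ne_empty.mpr hX
        ext y
        simp only [Finset.mem_univ, iff_true]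
        have := (hP x (y - x) (AddSubgroup.mem_top _)).mpr hx
        rwa [add_sub_cancel] at this
    have hmz : (0:ℤ) < m := by exact_mod_cast hm0
    have eU0 := ds_empty U
    have eU1 := ds_univ U
    have eX0 := ds_empty X
    have eX1 := ds_univ X
    have eV0 := ds_empty V
    have eV1 := ds_univ V
    rw [ZMod.card] at eU1 eX1 eV1
    have cu : ((univ : Finset (ZMod m)).card : ℤ) = m := by rw [Finset.card_univ, ZMod.card]
    rw [hcm] at hk hr0 hr
    rcases pt _ hPU with rfl | rfl <;> rcases pt _ hPX with rfl | rfl <;>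
      rcases pt _ hPZ with rfl | rfl <;>
      simp only [Finset.card_empty, cu, Nat.cast_zero, Finset.compl_empty, Finset.compl_univ]
        at hk hr0 hr
    · exfalso
      have : (2 * k + 1) * (m:ℤ) = 0 := by linarith
      rcases mul_eq_zero.mp this with h | h <;> omega
    · left; rw [eU0, eX0, eV0] at hr0; linarith
    · right; right; left; rw [eU0, eX1, eV1] at hr0
      have := min_le_left (U.card : ℤ) (min X.card V.card)
      linarith
    · exfalso
      have : (2 * k + 1 - 2) * (m:ℤ) = 0 := by linarith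
      rcases mul_eq_zero.mp this with h | h <;> omega
    · right; right; left; rw [eU1, eX0, eV1] at hr0
      have := (min_le_right (U.card : ℤ) (min X.card V.card)).trans (min_le_left _ _)
      linarith
    · exfalso
      have : (2 * k + 1 - 2) * (m:ℤ) = 0 := by linarith
      rcases mul_eq_zero.mp this with h | h <;> omega
    · exfalso
      have : (2 * k + 1 - 2) * (m:ℤ) = 0 := by linarith
      rcases mul_eq_zero.mp this with h | h <;> omega
    · right; right; left; rw [eU1, eX1, eV0] at hr0
      have := (min_le_right (U.card : ℤ) (min X.card V.card)).trans (min_le_right _ _)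
      linarith
  · -- `d ≥ 3`
    have hd3 : 3 ≤ d := by omega
    have dU := ds_nonneg U U'
    have dX := ds_nonneg X X'
    have dV := ds_nonneg V Z'ᶜ
    by_cases h1 : (c : ℤ) - (ds U U' + ds X X' + ds V Z'ᶜ) ≤ 1
    · right; left
      have h10 := pow_le_one₀ (n := 2) hr0 h1
      linarith
    push Not at h1
    have hcz : (0:ℤ) < c := by exact_mod_cast hc0
    have hmz : (m:ℤ) = d * c := by exact_mod_cast hmd'
    set tot : ℤ := (U'.card : ℤ) + X'.card + (Z'ᶜ : Finset (ZMod m)).card with htot
    obtain ⟨δ, hδ⟩ : ∃ δ : ℤ, (d : ℤ) = 2 * δ + 1 := ⟨(d / 2 : ℕ), by omega⟩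
    have htot2 : tot = (2 * (k + 1 + δ - zz)) * c := by
      rw [htot, hZ', hmz, hzz, hδ]
      rw [hzz] at hk
      linarith
    have sz : ∀ W P : Finset (ZMod m), (W.card : ℤ) ≤ P.card + ds W P := by
      intro W P
      have := card_sub_le_ds W P
      linarith
    have s1 := sz U U'
    have s2 := sz X X'
    have s3 := sz V Z'ᶜ
    by_cases hle : tot ≤ m - c
    · left; linarith
    · push Not at hle
      have h2 : (d:ℤ) + 1 ≤ 2 * (k + 1 + δ - zz) := by
        have h2 : ((d:ℤ) - 1) * c < (2 * (k + 1 + δ - zz)) * c := by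
          rw [← htot2]; linarith
        have h3 := lt_of_mul_lt_mul_right h2 hcz.le
        omega
      right; right; right
      refine ⟨H, U', X', Z'ᶜ, ?_, ?_, hPU, hPX, hPZ.compl, ?_, h1, hr⟩
      · intro hb
        have : c = 1 := by rw [hc, hb]; exact AddSubgroup.card_bot
        rw [this] at h1
        push_cast at h1
        linarith
      · intro hb
        apply hd1
        have : c = m := by rw [hc, hb, AddSubgroup.card_top, Nat.card_zmod]
        rw [this] at hmd'
        have h5 : d * m = 1 * m := by rw [← hmd', one_mul]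
        exact Nat.eq_of_mul_eq_mul_right hm0 h5
      · have h5 : ((d:ℤ) + 1) * c ≤ tot := by
          rw [htot2]; exact mul_le_mul_of_nonneg_right h2 hcz.le
        rw [← htot]
        linarith

end

end Pool.Agent.SCH
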