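import Mathlib
import Pool.Agent.Lib_helper26.SCH.Pol
import Pool.Agent.Lib_helper42.RS.Sym
import Pool.Agent.Lib_helper25.I4.A

/-!
# The parity gain
-/

set_option autoImplicit false
set_option linter.unusedSectionVars false

namespace Pool.Agent.SCH

open Finset Pool.Agent.GL Pool.Agent.Lib_helper42.RS SCH4

/-- Pollard's bound for `4 N` -/
def B4 (m z x y : ℤ) : ℤ :=
  if z + x + y - m ≤ 0 then 0
  else if 2 * min z (min x y) < z + x + y - m then
    4 * min z (min x y) * (z + x + y - m - min z (min x y))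
  else (z + x + y - m) ^ 2 - (z + x + y - m) % 2

/-- tangent line -/
lemma B4_tangent {m z x y t : ℤ} (h1 : 0 < z + x + y - m)
    (h2 : z + x + y - m ≤ 2 * min z (min x y)) (hev : (z + t + x + y - m) % 2 = 0) :
    (z + x + y - m) ^ 2 + 2 * (z + x + y - m) * t ≤ B4 m (z + t) x y := by
  have hz : z + x + y - m ≤ 2 * z := h2.trans (by have := min_le_left z (min x y); linarith)
  have hx : z + x + y - m ≤ 2 * x := h2.trans (by
    have := (min_le_right z (min x y)).trans (min_le_left x y); linarith)
  have hy : z + x + y - m ≤ 2 * y := h2.trans (by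
    have := (min_le_right z (min x y)).trans (min_le_right x y); linarith)
  unfold B4
  set q := z + x + y - m with hq
  have hq' : z + t + x + y - m = q + t := by rw [hq]; ring
  rw [hq'] at hev ⊢
  split_ifs with c1 c2
  · nlinarith
  · set μ := min (z + t) (min x y) with hμ
    have hid : 4 * μ * (q + t - μ) = q ^ 2 + 2 * q * t + (t ^ 2 - (q + t - 2 * μ) ^ 2) := by ring
    rw [hid]
    have hpos : 0 < q + t - 2 * μ := by linarith
    have hle : q + t - 2 * μ ≤ |t| := by
      rcases min_choice (z + t) (min x y) with h | h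
      · rw [← hμ] at h
        have := neg_abs_le t
        rw [h]; linarith
      · rw [← hμ] at h
        have h3 : q ≤ 2 * μ := by
          rw [h]
          rcases min_choice x y with h' | h' <;> rw [h'] <;> assumption
        have := le_abs_self t
        linarith
    have : (q + t - 2 * μ) ^ 2 ≤ t ^ 2 := by
      rw [← sq_abs t]
      exact pow_le_pow_left₀ hpos.le hle 2
    linarith
  · rw [hev]
    nlinarith [sq_nonneg t]

section
variable {m : ℕ} [NeZero m]

lemma Av.ng {J : ℕ} {U : Finset (ZMod m)} (h : Av J U) : Av J (ng U) := by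
  intro i hi
  have h1 := h (-i) (mem_ng.mp hi)
  have h2 : |(-i).valMinAbs| = |i.valMinAbs| := by
    have := ZMod.natAbs_valMinAbs_neg i
    rw [Int.abs_eq_natAbs, Int.abs_eq_natAbs, this]
  rwa [h2] at h1

lemma Av.zero {J : ℕ} {U : Finset (ZMod m)} (h : Av J U) : (0 : ZMod m) ∉ U := by
  intro h0
  have := h 0 h0
  rw [ZMod.valMinAbs_zero] at this
  simp at this
  omega

lemma Av.mono {J : ℕ} {U V : Finset (ZMod m)} (h : Av J V) (hUV : U ⊆ V) : Av J U :=
  fun i hi => h i (hUV hi)

lemma Av.union {J : ℕ} {U V : Finset (ZMod m)} (hU : Av J U) (hV : Av J V) : Av J (U ∪ V) := by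
  intro i hi
  rcases Finset.mem_union.mp hi with h | h
  · exact hU i h
  · exact hV i h

lemma N_ng' (X U V : Finset (ZMod m)) :
    N X U (ng V) = ∑ t, ∑ u, ind X t * ind U u * ind V (t + u) := by
  unfold N tri
  refine Finset.sum_congr rfl fun t _ => Finset.sum_congr rfl fun u _ => ?_
  congr 1
  unfold ind
  simp

lemma N_triv2 (U X V : Finset (ZMod m)) :
    (X.card : ℤ) * ((U.card : ℤ) + V.card - m) ≤ N U X V := by
  have := N_triv1 X U V
  rwa [N_swap12 X U V] at this

lemma N_triv3 (U X V : Finset (ZMod m)) :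
    (V.card : ℤ) * ((U.card : ℤ) + X.card - m) ≤ N U X V := by
  have := N_triv1 V X U
  rw [N_swap12 V X U, N_swap23 X V U, N_swap12 X U V] at this
  linarith

/-- Pollard's bound in the form `B4` -/
lemma pol4 {J : ℕ} (hodd : m % 2 = 1) (hJ : 2 * J + 1 ≤ m)
    (hd : ∀ d, d ∣ m → 3 ≤ d → d < m → m / d ≤ (d + 1) * ((2 * J + 1) / d) + 1)
    {U X V : Finset (ZMod m)} (hU : Av J U) (hX : Av J X) (hV : Av J V) :
    B4 m U.card X.card V.card ≤ 4 * N U X V := by
  have t1 := N_triv1 U X V
  have t2 := N_triv2 U X V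
  have t3 := N_triv3 U X V
  have t0 := N_nonneg U X V
  have hp := pol hodd hJ hd hU hX hV
  set z : ℤ := (U.card : ℤ)
  set x : ℤ := (X.card : ℤ)
  set y : ℤ := (V.card : ℤ)
  have htr : min z (min x y) * (z + x + y - m - min z (min x y)) ≤ N U X V := by
    rcases min_choice z (min x y) with h | h
    · rw [h]
      have : z * (z + x + y - m - z) = z * (x + y - m) := by ring
      rw [this]; exact t1
    · rw [h]
      rcases min_choice x y with h' | h'
      · rw [h']
        have : x * (z + x + y - m - x) = x * (z + y - m) := by ring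
        rw [this]; exact t2
      · rw [h']
        have : y * (z + x + y - m - y) = y * (z + x - m) := by ring
        rw [this]; exact t3
  unfold B4
  split_ifs with c1 c2
  · linarith
  · linarith
  · push Not at c1 c2
    rcases hp with h | h | h
    · linarith
    · rcases Int.emod_two_eq_zero_or_one (z + x + y - m) with h2 | h2
      · rw [h2]
        obtain ⟨r, hr⟩ : ∃ r, z + x + y - m = 2 * r := ⟨(z + x + y - m) / 2, by omega⟩
        rw [hr] at h ⊢
        have e : (2 * r) ^ 2 = 4 * r ^ 2 := by ring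
        rw [e] at h ⊢
        omega
      · rw [h2]; exact h
    · have h3 : 2 * min z (min x y) = z + x + y - m := le_antisymm h c2
      have h4 : z + x + y - m - min z (min x y) = min z (min x y) := by linarith
      rw [h4] at htr
      rw [← h3]
      have h5 : (2 * min z (min x y)) % 2 = 0 := by omega
      rw [h5]
      nlinarith

lemma even_sym (hodd : m % 2 = 1) {P : Finset (ZMod m)} (hs : ∀ i, i ∈ P → -i ∈ P)
    (h0 : (0 : ZMod m) ∉ P) : (P.card : ℤ) % 2 = 0 := by
  have h1 : ∑ x ∈ P, (1 : ZMod 2) = 0 := by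
    refine Finset.sum_involution (fun x _ => -x) ?_ ?_ ?_ ?_
    · intro a _; decide
    · intro a ha _ h
      apply h0
      have h2 : a = 0 := by
        have h3 : a + a = 0 := by
          have : -a + a = a + a := by rw [h]
          rw [← this]; ring
        have h4 : (2 : ZMod m) * a = 0 := by rw [two_mul]; exact h3
        have hco : Nat.Coprime 2 m := Nat.coprime_two_left.mpr (Nat.odd_iff.mpr hodd)
        have hu : IsUnit ((2 : ℕ) : ZMod m) := (ZMod.isUnit_iff_coprime 2 m).mpr hco
        have h5 : ((2 : ℕ) : ZMod m) * a = 0 := by push_cast; exact h4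
        exact (hu.mul_right_eq_zero).mp h5
      rwa [h2] at ha
    · intro a ha; exact hs a ha
    · intro a _; exact neg_neg a
  rw [Finset.sum_const, nsmul_eq_mul, mul_one, ZMod.natCast_eq_zero_iff] at h1
  omega

lemma N_sym (U X X' : Finset (ZMod m)) : N U X' (ng X) = N (ng U) X (ng X') := by
  rw [N_ng', N_ng']
  have h1 : ∀ t : ZMod m, ∑ u, ind U t * ind X' u * ind X (t + u) =
      ∑ u, ind U t * ind X u * ind X' (-t + u) := by
    intro t
    refine Fintype.sum_bijective (fun u => t + u) ?_ _ _ ?_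
    · exact ⟨fun a b h => add_left_cancel h, fun b => ⟨-t + b, by simp⟩⟩
    · intro u
      simp only [neg_add_cancel_left]
      ring
  rw [Finset.sum_congr rfl fun t _ => h1 t]
  refine Fintype.sum_bijective (fun t : ZMod m => -t) (Equiv.neg (ZMod m)).bijective _ _ ?_
  intro t
  refine Finset.sum_congr rfl fun u _ => ?_
  rw [ind_ng, neg_neg]

lemma N_add_of {P Q U U' : Finset (ZMod m)} (h : ∀ i, ind U i + ind U' i = ind P i + ind Q i)
    (X V : Finset (ZMod m)) : N U X V + N U' X V = N P X V + N Q X V := by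
  unfold N tri
  rw [← Finset.sum_add_distrib, ← Finset.sum_add_distrib]
  refine Finset.sum_congr rfl fun t _ => ?_
  rw [← Finset.sum_add_distrib, ← Finset.sum_add_distrib]
  refine Finset.sum_congr rfl fun u _ => ?_
  have := h t
  linear_combination (ind X u * ind V (-(t + u))) * this

/-- **the bound with the parity gain** -/
theorem w4_le {J : ℕ} (hodd : m % 2 = 1) (hJ : 2 * J + 1 ≤ m)
    (hd : ∀ d, d ∣ m → 3 ≤ d → d < m → m / d ≤ (d + 1) * ((2 * J + 1) / d) + 1)
    {U X X' : Finset (ZMod m)} (hU : Av J U) (hX : Av J X) (hX' : Av J X') :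
    w4 m U.card X.card X'.card ≤ 2 * (N U X (ng X') + N U X' (ng X)) := by
  have p1 := pol4 hodd hJ hd hU hX hX'.ng
  have p2 := pol4 hodd hJ hd hU hX' hX.ng
  rw [card_ng] at p1 p2
  have hsy : B4 m U.card X'.card X.card = B4 m U.card X.card X'.card := by
    unfold B4
    rw [min_comm (X'.card : ℤ) X.card, show (U.card : ℤ) + X'.card + X.card = U.card + X.card + X'.card by ring]
  rw [hsy] at p2
  set z : ℤ := (U.card : ℤ) with hz
  set x : ℤ := (X.card : ℤ) with hx
  set y : ℤ := (X'.card : ℤ) with hy
  by_cases hcase : w4 m z x y = B4 m z x y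
  · rw [hcase]; linarith
  · -- the parity case
    have hmain : ¬ (z + x + y - m ≤ 0) ∧ ¬ (2 * min z (min x y) < z + x + y - m) ∧ z % 2 = 1 ∧
        (z + x + y - m) % 2 = 1 := by
      unfold w4 B4 at hcase
      split_ifs at hcase with c1 c2 c3
      · exact absurd rfl hcase
      · exact absurd rfl hcase
      · exact absurd rfl hcase
      · refine ⟨c1, c2, by omega, ?_⟩
        by_contra h
        have h0 : (z + x + y - m) % 2 = 0 := by omega
        rw [h0] at hcase
        apply hcase; ring
    obtain ⟨c1, c2, c3, c4⟩ := hmain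
    have hw : w4 m z x y = (z + x + y - m) ^ 2 + 1 := by
      unfold w4
      rw [if_neg c1, if_neg c2, if_neg (by omega), c4]
    rw [hw]
    push Not at c1 c2
    -- `P = U ∪ -U`, `Q = U ∩ -U`
    have hN : N U X (ng X') + N U X' (ng X) = N (U ∪ ng U) X (ng X') + N (U ∩ ng U) X (ng X') := by
      rw [N_sym U X X']
      apply N_add_of
      intro i
      unfold ind
      by_cases h1 : i ∈ U <;> by_cases h2 : i ∈ ng U <;> simp [h1, h2]
    have hP : Av J (U ∪ ng U) := hU.union hU.ng
    have hQ : Av J (U ∩ ng U) := hU.mono Finset.inter_subset_left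
    have eP := even_sym hodd (P := U ∪ ng U) (by
      intro i hi
      rw [Finset.mem_union, mem_ng] at hi ⊢
      rw [neg_neg]; exact hi.symm) hP.zero
    have eQ := even_sym hodd (P := U ∩ ng U) (by
      intro i hi
      rw [Finset.mem_inter, mem_ng] at hi ⊢
      rw [neg_neg]; exact hi.symm) hQ.zero
    have hPQ : ((U ∪ ng U).card : ℤ) + (U ∩ ng U).card = 2 * z := by
      have h1 := Finset.card_union_add_card_inter U (ng U)
      have h2 := card_ng U
      have h3 : ((U ∪ ng U).card : ℤ) + (U ∩ ng U).card = U.card + (ng U).card := by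
        exact_mod_cast h1
      rw [h3, h2, hz]; ring
    have qP := pol4 hodd hJ hd hP hX hX'.ng
    have qQ := pol4 hodd hJ hd hQ hX hX'.ng
    rw [card_ng] at qP qQ
    set α : ℤ := ((U ∪ ng U).card : ℤ) - z with hα
    have e1 : ((U ∪ ng U).card : ℤ) = z + α := by rw [hα]; ring
    have e2 : ((U ∩ ng U).card : ℤ) = z + (-α) := by rw [hα]; linarith
    rw [e1] at qP eP
    rw [e2] at qQ eQ
    have t1 := B4_tangent (t := α) c1 c2 (by omega)
    have t2 := B4_tangent (t := -α) c1 c2 (by omega)
    rw [hN]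
    obtain ⟨r, hr⟩ : ∃ r, z + x + y - m = 2 * r + 1 := ⟨(z + x + y - m) / 2, by omega⟩
    have h3 : 2 * (z + x + y - m) ^ 2 ≤ 4 * N (U ∪ ng U) X (ng X') + 4 * N (U ∩ ng U) X (ng X') := by
      linarith
    rw [hr] at h3 ⊢
    have e3 : (2 * r + 1) ^ 2 = 2 * (2 * r ^ 2 + 2 * r) + 1 := by ring
    rw [e3] at h3 ⊢
    omega

end

end Pool.Agent.SCH
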