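import Mathlib
import Pool.Agent.Lib_helper26.SCH.Par
import Pool.Agent.Lib_helper26.SCH.Slice2
import Pool.Agent.Lib_helper26.SCH.Slice3
import Pool.Agent.Lib_helper26.SCH.Triv
import Pool.Agent.Lib_helper25.I4.B

/-!
# The layer cake
-/

set_option autoImplicit false
set_option linter.unusedSectionVars false

namespace Pool.Agent.SCH

open Finset Pool.Agent.GL Pool.Agent.Lib_helper42.RS SCH4

universe u

section
variable {G : Type u} [AddCommGroup G] [Fintype G] [DecidableEq G]
variable {m : ℕ} [NeZero m]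

/-- the size of a level -/
def lv (φ : G →+ ZMod m) (A : Finset G) (i : ZMod m) : ℕ := (A.filter (fun x => φ x = i)).card

/-- the layers -/
def LL (φ : G →+ ZMod m) (A : Finset G) (v : ℕ) : Finset (ZMod m) :=
  univ.filter (fun i => v < lv φ A i)

lemma lv_le (φ : G →+ ZMod m) (hφ : Function.Surjective φ) (A : Finset G) (i : ZMod m) :
    lv φ A i ≤ Nat.card φ.ker := by
  have h1 := fibre_card φ hφ i
  rw [← h1]
  exact Finset.card_le_card (Finset.filter_subset_filter _ (Finset.subset_univ A))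

lemma sum_fibre (φ : G →+ ZMod m) (f : G → ℤ) :
    ∑ x, f x = ∑ i, ∑ x ∈ univ.filter (fun x => φ x = i), f x := by
  rw [Finset.sum_fiberwise]

lemma sum_ind_fib (φ : G →+ ZMod m) (A : Finset G) (i : ZMod m) :
    ∑ x ∈ univ.filter (fun x => φ x = i), ind A x = (lv φ A i : ℤ) := by
  unfold ind lv
  rw [Finset.sum_boole]
  congr 2
  ext x
  simp [and_comm]

lemma sum_ind_fib_shift (φ : G →+ ZMod m) (A : Finset G) (i : ZMod m) (y : G) :
    ∑ x ∈ univ.filter (fun x => φ x = i), ind A (x + y) = (lv φ A (i + φ y) : ℤ) := by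
  rw [← sum_ind_fib]
  refine Finset.sum_equiv (Equiv.addRight y) ?_ ?_
  · intro x
    simp only [Finset.mem_filter, Finset.mem_univ, true_and, Equiv.coe_addRight, map_add]
    constructor
    · rintro rfl; rfl
    · intro h; exact add_right_cancel h
  · intro x _; rfl

lemma sum_lv (φ : G →+ ZMod m) (A : Finset G) : ∑ i, (lv φ A i : ℤ) = A.card := by
  rw [← sum_ind A, sum_fibre φ]
  exact Finset.sum_congr rfl fun i _ => (sum_ind_fib φ A i).symm

/-- the trivial bound for `rr` -/
lemma rr_lv (φ : G →+ ZMod m) (hφ : Function.Surjective φ) (A : Finset G) (y : G) :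
    ∑ j, max 0 ((lv φ A j : ℤ) + lv φ A (j + φ y) - Nat.card φ.ker) ≤ rr A y := by
  unfold rr
  rw [sum_fibre φ]
  refine Finset.sum_le_sum fun j _ => ?_
  apply max_le
  · exact Finset.sum_nonneg fun _ _ => mul_nonneg (ind_nonneg _ _) (ind_nonneg _ _)
  · have h2 : ∑ x ∈ univ.filter (fun x => φ x = j), (ind A x + ind A (x + y) - 1) ≤
        ∑ x ∈ univ.filter (fun x => φ x = j), ind A x * ind A (x + y) := by
      refine Finset.sum_le_sum fun z _ => ?_
      unfold ind
      split_ifs <;> norm_num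
    rw [Finset.sum_sub_distrib, Finset.sum_add_distrib, sum_ind_fib, sum_ind_fib_shift,
      Finset.sum_const, nsmul_eq_mul, mul_one, fibre_card φ hφ] at h2
    exact h2

lemma sum_fin_lt {l a : ℕ} (ha : a ≤ l) : ∑ v : Fin l, (if v.val < a then (1:ℤ) else 0) = a := by
  rw [Fin.sum_univ_eq_sum_range (fun u => if u < a then (1:ℤ) else 0) l, Finset.sum_boole]
  congr 1
  have : (range l).filter (fun u => u < a) = range a := by
    ext x; simp; omega
  rw [this, Finset.card_range]

lemma sum_fin_pair {l a b : ℕ} (ha : a ≤ l) (hb : b ≤ l) :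
    ∑ u : Fin l, (if u.val < a then (1:ℤ) else 0) * (if (Fin.rev u).val < b then 1 else 0) =
      max 0 ((a : ℤ) + b - l) := by
  have h1 : ∀ u : Fin l, (if u.val < a then (1:ℤ) else 0) *
      (if (Fin.rev u).val < b then 1 else 0) = if l - b ≤ u.val ∧ u.val < a then 1 else 0 := by
    intro u
    have hu := u.2
    have e : (Fin.rev u).val < b ↔ l - b ≤ u.val := by
      rw [Fin.val_rev]; omega
    by_cases c1 : u.val < a <;> by_cases c2 : (Fin.rev u).val < b
    · rw [if_pos c1, if_pos c2, if_pos ⟨e.mp c2, c1⟩, one_mul]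
    · rw [if_pos c1, if_neg c2, if_neg (fun h => c2 (e.mpr h.1)), mul_zero]
    · rw [if_neg c1, zero_mul, if_neg (fun h => c1 h.2)]
    · rw [if_neg c1, zero_mul, if_neg (fun h => c1 h.2)]
  rw [Finset.sum_congr rfl fun u _ => h1 u,
    Fin.sum_univ_eq_sum_range (fun u => if l - b ≤ u ∧ u < a then (1:ℤ) else 0) l,
    Finset.sum_boole]
  have h2 : (range l).filter (fun u => l - b ≤ u ∧ u < a) = Finset.Ico (l - b) a := by
    ext x; simp; omega
  rw [h2, Nat.card_Ico]
  rcases le_total l (a + b) with h | h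
  · rw [max_eq_right (by have : (l:ℤ) ≤ a + b := by exact_mod_cast h
                         linarith)]
    push_cast [Nat.cast_sub (show l - b ≤ a by omega), Nat.cast_sub hb]
    ring
  · rw [max_eq_left (by have : (a:ℤ) + b ≤ l := by exact_mod_cast h
                        linarith)]
    have : a - (l - b) = 0 := by omega
    rw [this]; rfl

/-- **layer cake** -/
theorem layer (φ : G →+ ZMod m) (hφ : Function.Surjective φ) (A : Finset G) :
    ∑ v : Fin (Nat.card φ.ker), ∑ u : Fin (Nat.card φ.ker),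
      N (LL φ A v.val) (LL φ A u.val) (ng (LL φ A (Fin.rev u).val)) ≤ schur A := by
  set l := Nat.card φ.ker with hl
  have iLL : ∀ (v : ℕ) (i : ZMod m), ind (LL φ A v) i = if v < lv φ A i then 1 else 0 := by
    intro v i
    unfold ind LL
    simp
  have h1 : ∑ i, (lv φ A i : ℤ) * ∑ j, max 0 ((lv φ A j : ℤ) + lv φ A (j + i) - l) ≤ schur A := by
    rw [schur_rr, sum_fibre φ (fun y => ind A y * rr A y)]
    refine Finset.sum_le_sum fun i _ => ?_
    rw [← sum_ind_fib, Finset.sum_mul]
    refine Finset.sum_le_sum fun y hy => ?_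
    have hy' : φ y = i := by simpa using hy
    subst hy'
    exact mul_le_mul_of_nonneg_left (rr_lv φ hφ A y) (ind_nonneg _ _)
  refine le_trans (le_of_eq ?_) h1
  have h2 : ∀ i j, max 0 ((lv φ A j : ℤ) + lv φ A (j + i) - l) =
      ∑ u : Fin l, ind (LL φ A u.val) j * ind (LL φ A (Fin.rev u).val) (j + i) := by
    intro i j
    rw [← sum_fin_pair (lv_le φ hφ A j) (lv_le φ hφ A (j + i))]
    exact Finset.sum_congr rfl fun u _ => by rw [iLL, iLL]
  have h3 : ∀ i, (lv φ A i : ℤ) = ∑ v : Fin l, ind (LL φ A v.val) i := by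
    intro i
    rw [← sum_fin_lt (lv_le φ hφ A i)]
    exact Finset.sum_congr rfl fun v _ => by rw [iLL]
  have hR : ∀ i, (lv φ A i : ℤ) * ∑ j, max 0 ((lv φ A j : ℤ) + lv φ A (j + i) - l) =
      ∑ v : Fin l, ∑ u : Fin l, ∑ j, ind (LL φ A v.val) i * ind (LL φ A u.val) j *
        ind (LL φ A (Fin.rev u).val) (i + j) := by
    intro i
    rw [h3 i, Finset.sum_mul]
    refine Finset.sum_congr rfl fun v _ => ?_
    rw [Finset.mul_sum]
    conv_rhs => rw [Finset.sum_comm]
    refine Finset.sum_congr rfl fun j _ => ?_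
    rw [h2 i j, Finset.mul_sum]
    refine Finset.sum_congr rfl fun u _ => ?_
    rw [add_comm i j]
    ring
  rw [Finset.sum_congr rfl fun i _ => hR i]
  conv_rhs => rw [Finset.sum_comm]
  refine Finset.sum_congr rfl fun v _ => ?_
  conv_rhs => rw [Finset.sum_comm]
  refine Finset.sum_congr rfl fun u _ => ?_
  rw [N_ng']

/-- the layers avoid the hole -/
lemma av_LL {J : ℕ} {φ : G →+ ZMod m} {A : Finset G}
    (hA : ∀ x ∈ A, (J : ℤ) < |(φ x).valMinAbs|) (v : ℕ) : Av J (LL φ A v) := by
  intro i hi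
  unfold LL at hi
  simp only [Finset.mem_filter, Finset.mem_univ, true_and] at hi
  have hpos : 0 < lv φ A i := lt_of_le_of_lt (Nat.zero_le v) hi
  unfold lv at hpos
  obtain ⟨x, hx⟩ := Finset.card_pos.mp hpos
  rw [Finset.mem_filter] at hx
  rw [← hx.2]
  exact hA x hx.1

lemma sum_card_LL (φ : G →+ ZMod m) (hφ : Function.Surjective φ) (A : Finset G) :
    ∑ v : Fin (Nat.card φ.ker), ((LL φ A v.val).card : ℤ) = A.card := by
  rw [← sum_lv φ A]
  have h : ∀ v : Fin (Nat.card φ.ker), ((LL φ A v.val).card : ℤ) =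
      ∑ i, (if v.val < lv φ A i then (1:ℤ) else 0) := by
    intro v
    unfold LL
    rw [Finset.sum_boole]
  rw [Finset.sum_congr rfl fun v _ => h v, Finset.sum_comm]
  exact Finset.sum_congr rfl fun i _ => sum_fin_lt (lv_le φ hφ A i)

/-- the number of levels outside the hole -/
lemma card_av {J : ℕ} (hJ : 2 * J + 1 ≤ m) {U : Finset (ZMod m)} (hU : Av J U) :
    (U.card : ℤ) ≤ m - (2 * J + 1) := by
  have h1 : (hole m J).card = 2 * J + 1 := by
    have e : hole m J = (Finset.Icc (-(J:ℤ)) J).image (fun a : ℤ => (a : ZMod m)) := by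
      ext i
      simp only [hole, Finset.mem_filter, Finset.mem_univ, true_and, Finset.mem_image,
        Finset.mem_Icc]
      constructor
      · intro h
        exact ⟨i.valMinAbs, abs_le.mp h, ZMod.coe_valMinAbs i⟩
      · rintro ⟨a, ha, rfl⟩
        rw [valMinAbs_intCast hJ (abs_le.mpr ha)]
        exact abs_le.mpr ha
    rw [e, Finset.card_image_of_injOn]
    · rw [Int.card_Icc]; omega
    · intro a ha b hb hab
      have ha' := abs_le.mpr (Finset.mem_Icc.mp (Finset.mem_coe.mp ha))
      have hb' := abs_le.mpr (Finset.mem_Icc.mp (Finset.mem_coe.mp hb))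
      have e1 := valMinAbs_intCast (m := m) hJ ha'
      have e2 := valMinAbs_intCast (m := m) hJ hb'
      simp only at hab
      rw [← e1, ← e2, hab]
  have h2 : U ⊆ (hole m J)ᶜ := by
    intro i hi
    rw [Finset.mem_compl]
    unfold hole
    simp only [Finset.mem_filter, Finset.mem_univ, true_and, not_le]
    exact hU i hi
  have h3 := Finset.card_le_card h2
  have h4 : (((hole m J)ᶜ : Finset (ZMod m)).card : ℤ) = m - (hole m J).card := by
    rw [card_compl_int, ZMod.card]
  rw [h1] at h4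
  have h5 : (U.card : ℤ) ≤ ((hole m J)ᶜ : Finset (ZMod m)).card := by exact_mod_cast h3
  rw [h4] at h5
  push_cast at h5
  linarith

/-- the layered lower bound for the number of Schur triples -/
theorem layer_w4 {J : ℕ} (hodd : m % 2 = 1) (hJ : 2 * J + 1 ≤ m)
    (hd : ∀ d, d ∣ m → 3 ≤ d → d < m → m / d ≤ (d + 1) * ((2 * J + 1) / d) + 1)
    (φ : G →+ ZMod m) (hφ : Function.Surjective φ) {A : Finset G}
    (hA : ∀ x ∈ A, (J : ℤ) < |(φ x).valMinAbs|) :
    ∑ v : Fin (Nat.card φ.ker), ∑ u : Fin (Nat.card φ.ker),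
      w4 m (LL φ A v.val).card (LL φ A u.val).card (LL φ A (Fin.rev u).val).card ≤ 4 * schur A := by
  have h1 := layer φ hφ A
  have h2 : ∀ v : Fin (Nat.card φ.ker), ∑ u : Fin (Nat.card φ.ker),
      w4 m (LL φ A v.val).card (LL φ A u.val).card (LL φ A (Fin.rev u).val).card ≤
      4 * ∑ u : Fin (Nat.card φ.ker),
        N (LL φ A v.val) (LL φ A u.val) (ng (LL φ A (Fin.rev u).val)) := by
    intro v
    have e1 : ∑ u : Fin (Nat.card φ.ker),
        N (LL φ A v.val) (LL φ A (Fin.rev u).val) (ng (LL φ A u.val)) =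
        ∑ u : Fin (Nat.card φ.ker),
          N (LL φ A v.val) (LL φ A u.val) (ng (LL φ A (Fin.rev u).val)) := by
      refine Fintype.sum_bijective Fin.rev Fin.rev_bijective _ _ ?_
      intro u
      rw [Fin.rev_rev]
    have e2 : 4 * ∑ u : Fin (Nat.card φ.ker),
        N (LL φ A v.val) (LL φ A u.val) (ng (LL φ A (Fin.rev u).val)) =
        ∑ u : Fin (Nat.card φ.ker), 2 * (N (LL φ A v.val) (LL φ A u.val)
          (ng (LL φ A (Fin.rev u).val)) + N (LL φ A v.val) (LL φ A (Fin.rev u).val)
          (ng (LL φ A u.val))) := by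
      rw [← Finset.mul_sum, Finset.sum_add_distrib, e1]; ring
    rw [e2]
    exact Finset.sum_le_sum fun u _ => w4_le hodd hJ hd (av_LL hA _) (av_LL hA _) (av_LL hA _)
  calc _ ≤ ∑ v : Fin (Nat.card φ.ker), 4 * ∑ u : Fin (Nat.card φ.ker),
        N (LL φ A v.val) (LL φ A u.val) (ng (LL φ A (Fin.rev u).val)) :=
      Finset.sum_le_sum fun v _ => h2 v
    _ = 4 * ∑ v : Fin (Nat.card φ.ker), ∑ u : Fin (Nat.card φ.ker),
        N (LL φ A v.val) (LL φ A u.val) (ng (LL φ A (Fin.rev u).val)) := by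
      rw [Finset.mul_sum]
    _ ≤ _ := by linarith

end

end Pool.Agent.SCH
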