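import Mathlib
import Pool.Agent.Lib_helper26.SCH.Lay
import Pool.Agent.Lib_helper26.SCH.Quo

/-!
# From the target inequality to `Bd`
-/

set_option autoImplicit false
set_option linter.unusedSectionVars false

namespace Pool.Agent.SCH

open Finset Pool.Agent.GL Pool.Agent.Lib_helper42.RS SCH4

universe u

section
variable {G : Type u} [AddCommGroup G] [Fintype G] [DecidableEq G]
variable {m : ℕ} [NeZero m]

/-- the target inequality with the witness `ker φ` implies `Bd` -/
theorem Bd_of_target (hodd : m % 2 = 1) (φ : G →+ ZMod m) (hφ : Function.Surjective φ)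
    {B : Finset G} {k s : ℕ} (hks : Fintype.card G = B.card + k * Nat.card φ.ker + s)
    (hsh : s < Nat.card φ.ker) (hT : m ≤ 3 * k + 1) (hk : k + 2 ≤ m)
    (h : target (Nat.card φ.ker) (3 * k - m) s ≤ 4 * schur Bᶜ) : Bd G B.card (FF B) := by
  have hcomp : (((Bᶜ : Finset G)).card : ℤ) = Fintype.card G - B.card := card_compl_int B
  have hksz : (Fintype.card G : ℤ) = B.card + k * Nat.card φ.ker + s := by exact_mod_cast hks
  have hHz : (Fintype.card G : ℤ) = m * Nat.card φ.ker := by exact_mod_cast card_ker_mul φ hφ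
  have hF := four_schur_compl B
  rw [hcomp] at hF
  have e : 3 * ((Fintype.card G : ℤ) - B.card) - Fintype.card G =
      (3 * k - m) * Nat.card φ.ker + 3 * s := by
    rw [show (Fintype.card G : ℤ) - B.card = k * Nat.card φ.ker + s by linarith, hHz]; ring
  rw [e] at hF
  have hal := ker_alive φ hφ
  unfold target at h
  rcases Nat.even_or_odd' (m - k) with ⟨j, hj | hj⟩
  · -- even case
    have hj1 : 1 ≤ j := by omega
    have hpk : (m:ℤ) = k + 2 * j := by
      have : ((m - k : ℕ) : ℤ) = 2 * j := by exact_mod_cast hj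
      rw [Nat.cast_sub (by omega)] at this
      linarith
    rw [if_pos (by omega)] at h
    refine ⟨_, Or.inr ⟨φ.ker, j - 1, Nat.card φ.ker - s, Nat.sub_le _ _, rfl, Or.inr ⟨?_, ?_⟩⟩, ?_⟩
    · zify [hsh.le, hj1]
      have e : (B.card : ℤ) = m * Nat.card φ.ker - k * Nat.card φ.ker - s := by linarith
      rw [e, hpk]; ring
    · exact Alive.mono hal (by omega)
    · rw [Nat.cast_sub hsh.le]
      nlinarith
  · have hpk : (m:ℤ) = k + 2 * j + 1 := by
      have : ((m - k : ℕ) : ℤ) = 2 * j + 1 := by exact_mod_cast hj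
      rw [Nat.cast_sub (by omega)] at this
      linarith
    rw [if_neg (by omega)] at h
    refine ⟨_, Or.inr ⟨φ.ker, j, s, hsh.le, rfl, Or.inl ⟨?_, ?_⟩⟩, ?_⟩
    · zify
      have e : (B.card : ℤ) = m * Nat.card φ.ker - k * Nat.card φ.ker - s := by linarith
      rw [e, hpk]; ring
    · exact Alive.mono hal (by omega)
    · nlinarith

/-- **the levels `|i| ≤ J` inside `B`** -/
theorem lay_Bd {J : ℕ} (hodd : m % 2 = 1) (hJ : 2 * J + 1 ≤ m)
    (hd : ∀ d, d ∣ m → 3 ≤ d → d < m → m / d ≤ (d + 1) * ((2 * J + 1) / d) + 1)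
    (φ : G →+ ZMod m) (hφ : Function.Surjective φ) {B : Finset G}
    (hB : ∀ x, |(φ x).valMinAbs| ≤ (J : ℤ) → x ∈ B)
    {k s : ℕ} (hks : Fintype.card G = B.card + k * Nat.card φ.ker + s)
    (hsh : s < Nat.card φ.ker) (hT : m ≤ 3 * k + 1) (hk : k + 2 ≤ m)
    (hY : m ≤ k + 4 * J + 2) : Bd G B.card (FF B) := by
  apply Bd_of_target hodd φ hφ hks hsh hT hk
  have hA : ∀ x ∈ Bᶜ, (J : ℤ) < |(φ x).valMinAbs| := by
    intro x hx
    by_contra hc
    exact (Finset.mem_compl.mp hx) (hB x (not_lt.mp hc))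
  have hcomp : (((Bᶜ : Finset G)).card : ℤ) = Fintype.card G - B.card := card_compl_int B
  have hksz : (Fintype.card G : ℤ) = B.card + k * Nat.card φ.ker + s := by exact_mod_cast hks
  have h1 := lay (Nat.card φ.ker) m (m - (2 * J + 1)) k s
    (fun v => ((LL φ Bᶜ v.val).card : ℤ)) (by omega) (by omega) (by omega) (by omega)
    (fun i => by positivity) (fun i => card_av hJ (av_LL hA _))
    (by rw [sum_card_LL φ hφ, hcomp]; linarith) (by positivity) (by exact_mod_cast hsh)
  exact h1.trans (layer_w4 hodd hJ hd φ hφ hA)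

end

end Pool.Agent.SCH
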