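import Mathlib
import Pool.Agent.Lib_helper26.SCH.Step
import Pool.Agent.Lib_helper26.SCH.Slice3
import Pool.Agent.Lib_helper22.SCHD.T3
import Pool.Agent.Lib_helper25.LB.Lay3
import Pool.Agent.Lib_helper25.LB.Slope2
import Pool.Agent.Lib_helper93.T4.Small
import Pool.Agent.Lib_helper93.T4.E9

/-!
# The dense case: assembly
-/

set_option autoImplicit false
set_option linter.unusedSectionVars false

namespace Pool.Agent.SCH

open Finset Pool.Agent.GL Pool.Agent.Lib_helper42.RS

universe u

/-- `e` prime, `14/25 < β ≤ 2/3` -/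
def Prime56 : Prop :=
  ∀ (G : Type u) [AddCommGroup G] [Fintype G] [DecidableEq G] (B : Finset G) (m : ℕ)
    (χ : AddChar G ℂ) (φ : G →+ ZMod m), Ctx B χ φ → Odd (Fintype.card G) → m.Prime →
    (∀ g : G, m • g = 0) → 11 ≤ m → 14 * Fintype.card G < 25 * B.card →
    3 * B.card ≤ 2 * Fintype.card G → fG G B.card ≤ 0 → False

/-- `e` composite at least `21`, prime to `5`, `14/25 < β ≤ 2/3` -/
def RangeB : Prop :=
  ∀ (G : Type u) [AddCommGroup G] [Fintype G] [DecidableEq G] (B : Finset G) (m : ℕ)
    (χ : AddChar G ℂ) (φ : G →+ ZMod m) (e : ℕ) [NeZero e] (ψ : G →+ ZMod e), Ctx B χ φ →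
    Odd (Fintype.card G) → 14 * Fintype.card G < 25 * B.card →
    3 * B.card ≤ 2 * Fintype.card G → GL.FF B ≤ 1 → fG G B.card ≤ 0 →
    Function.Surjective ψ → (∀ g : G, e • g = 0) → 2 ≤ Nat.card ψ.ker → 21 ≤ e → ¬ 5 ∣ e →
    ¬ e.Prime → False

section
variable {G : Type u} [AddCommGroup G] [Fintype G] [DecidableEq G]

/-- `FF B = |B|` modulo `4`, even case -/
lemma FF_even {B : Finset G} (h : B.card % 2 = 0) : (4 : ℤ) ∣ FF B := by
  obtain ⟨k, hk⟩ : ∃ k, B.card = 2 * k := ⟨B.card / 2, by omega⟩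
  refine ⟨sch B - 3 * (k : ℤ) ^ 2, ?_⟩
  unfold FF
  rw [hk]; push_cast; ring

/-- cyclic groups -/
theorem cyc_false {B : Finset G} {m : ℕ} {χ : AddChar G ℂ} {φ : G →+ ZMod m} (ctx : Ctx B χ φ)
    (hodd : Odd (Fintype.card G)) (hb2 : 3 * B.card ≤ 2 * Fintype.card G) (hF : GL.FF B ≤ 1)
    {e : ℕ} [NeZero e] (ψ : G →+ ZMod e) (hψ : Function.Surjective ψ)
    (h1 : Nat.card ψ.ker = 1) : False := by
  have hn := card_ker_mul ψ hψ
  rw [h1, mul_one] at hn
  rw [hn] at hodd hb2
  have heo := Nat.odd_iff.mp hodd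
  have hbig := ctx.big
  have hB0 : 0 < B.card := by
    obtain ⟨x, hx, _⟩ := ctx.wrap
    exact Finset.card_pos.mpr ⟨x, hx⟩
  rcases Nat.even_or_odd' B.card with ⟨j, hj | hj⟩
  · -- even
    have h2 := wit_above ψ hψ (b := B.card) (j := j - 1) (s := 1) (by rw [h1]; omega)
      (by rw [h1]) (by omega)
    rw [h1] at h2
    have h2' : (0 : ℤ) ≤ fG G B.card := by simpa using h2
    have h3 := FF_even (B := B) (by omega)
    omega
  · have h2 := wit_below ψ hψ (b := B.card) (j := j) (s := 0) (by rw [h1]; omega)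
      (by omega) (by omega)
    rw [h1] at h2
    have h2' : (1 : ℤ) ≤ fG G B.card := by simpa using h2
    omega

/-- a hyperplane inside `B`, prime exponent -/
theorem prime_false {B : Finset G} {m : ℕ} {χ : AddChar G ℂ} {φ : G →+ ZMod m}
    (ctx : Ctx B χ φ) (hp : m.Prime) (hG : ∀ g : G, m • g = 0)
    (hB : ∀ x, φ x = 0 → x ∈ B) : False := by
  have : Fact m.Prime := ⟨hp⟩
  have : NeZero m := ⟨hp.ne_zero⟩
  let _ : Module (ZMod m) G := AddCommGroup.zmodModule hG
  have hn := card_ker_mul φ ctx.surj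
  set l := Nat.card φ.ker with hl
  have hl0 : 0 < l := Nat.card_pos
  have hBn : B.card ≤ Fintype.card G := Finset.card_le_univ B
  obtain ⟨k, s, hks, hsl⟩ : ∃ k s, Fintype.card G = B.card + k * l + s ∧ s < l := by
    refine ⟨(Fintype.card G - B.card) / l, (Fintype.card G - B.card) % l, ?_,
      Nat.mod_lt _ hl0⟩
    have := Nat.div_add_mod (Fintype.card G - B.card) l
    rw [mul_comm] at this
    omega
  have htriv := ctx.triv m φ ctx.surj
  have hT : m ≤ 3 * k + 1 := by
    by_contra hc
    push Not at hc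
    have h1 : k + 1 ≤ (m + 1) / 3 := by omega
    have h2 : (k + 1) * Fintype.card G ≤ ((m + 1) / 3) * Fintype.card G :=
      Nat.mul_le_mul_right _ h1
    have h4 : (k + 1) * Fintype.card G = m * ((k + 1) * l) := by rw [hn]; ring
    have h5 : m * Fintype.card G = m * B.card + m * (k * l + s) := by
      calc m * Fintype.card G = m * (B.card + k * l + s) := by rw [← hks]
        _ = _ := by ring
    have h6 : m * ((k + 1) * l) < m * (k * l + s) := by omega
    have h7 : (k + 1) * l < k * l + s := lt_of_mul_lt_mul_left h6 (Nat.zero_le _)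
    have h8 : (k + 1) * l = k * l + l := by ring
    omega
  have h := slice_Bd (p := m) φ.ker hn (fun x hx => hB x ((AddMonoidHom.mem_ker).mp hx))
    hks hsl hT
  rw [Bd_card_iff] at h
  have := ctx.big
  linarith

/-- `5` divides the exponent: `β ≤ 14/25` -/
lemma five_dvd {B : Finset G} {m : ℕ} {χ : AddChar G ℂ} {φ : G →+ ZMod m} (ctx : Ctx B χ φ)
    (hb : 14 * Fintype.card G < 25 * B.card) (hfg : fG G B.card ≤ 0) {e : ℕ} [NeZero e]
    (ψ : G →+ ZMod e) (hψ : Function.Surjective ψ) (h5 : 5 ∣ e) : False := by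
  have h5n : 5 ∣ Fintype.card G := by
    rw [card_ker_mul ψ hψ]; exact h5.trans (dvd_mul_right _ _)
  have : Fact (Nat.Prime 5) := ⟨by norm_num⟩
  obtain ⟨w, hw⟩ := exists_prime_addOrderOf_dvd_card 5 (G := G) h5n
  obtain ⟨ψ5, hψ5⟩ : ∃ ψ : G →+ ZMod 5, Function.Surjective ψ := by
    have := exists_surj_of_order w
    rw [hw] at this; exact this
  have ht := ctx.triv 5 ψ5 hψ5
  have hn := card_ker_mul ψ5 hψ5
  have e6 : (5 + 1) / 3 = 2 := by norm_num
  rw [e6] at ht
  obtain ⟨s, hs⟩ : ∃ s, B.card + s = 3 * Nat.card ψ5.ker := ⟨3 * Nat.card ψ5.ker - B.card, by omega⟩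
  have h2 := wit_below ψ5 hψ5 (b := B.card) (j := 1) (s := s) (by omega) (by omega) (by norm_num)
  have h3 : 5 * s < Nat.card ψ5.ker := by omega
  have h4 : (0 : ℤ) < (Nat.card ψ5.ker : ℤ) - 5 * s := by
    have : (5 * (s : ℤ)) < (Nat.card ψ5.ker : ℤ) := by exact_mod_cast h3
    linarith
  have h5' : (0 : ℤ) < (Nat.card ψ5.ker : ℤ) - s := by
    have : (0 : ℤ) ≤ s := by positivity
    linarith
  have h6 := mul_pos h5' h4
  linarith

/-- exponent nine -/
lemma nine_false {B : Finset G} {χ : AddChar G ℂ} {φ : G →+ ZMod 9} (ctx : Ctx B χ φ)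
    (hodd : Odd (Fintype.card G)) (h9 : 9 * Fintype.card G < 20 * B.card)
    (h3 : 3 * B.card ≤ 2 * Fintype.card G) (hfg : fG G B.card ≤ 0) (hG : ∀ g : G, 9 • g = 0)
    (hl : 2 ≤ Nat.card φ.ker) : False := by
  have hn := card_ker_mul φ ctx.surj
  have hlo : Nat.card φ.ker % 2 = 1 := by
    rw [← Nat.odd_iff]
    rw [hn] at hodd
    exact (Nat.odd_mul.mp hodd).2
  rcases Nat.lt_or_ge (14 * Fintype.card G) (25 * B.card) with h | h
  · refine T4.cell_9_wide ctx.std ctx.surj ctx.maxi ctx.big ctx.fou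
      (t := 6 * Nat.card φ.ker - B.card) (by omega) (by omega) ?_
    rcases slope' hodd h9 h3 hfg ctx.triv φ ctx.surj hG hl with h1 |
      ⟨H, y, r, j, s, e1, e2, e3, e4, e5, e6, e7, e8, e9, e10, e11⟩
    · linarith
    · exfalso
      have hy : y ∣ 9 := ⟨r, e2.symm⟩
      have hy3 : y = 1 ∨ y = 3 ∨ y = 9 := by
        have := Nat.le_of_dvd (by norm_num) hy
        interval_cases y <;> revert hy <;> decide
      rcases hy3 with rfl | rfl | rfl
      · have hr : r = 9 := by omega
        subst hr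
        have hj : j = 0 := by omega
        subst hj
        omega
      · have hr : r = 3 := by omega
        subst hr
        have hj : j = 0 := by omega
        subst hj
        omega
      · omega
  · exact hole_six ctx hodd h9 (T4.hole_9 ctx hodd h9 h (by omega) hfg)

end

/-- **the dense case from its two open pieces** -/
theorem dcase_of (hP : Prime56.{u}) (hR : RangeB.{u}) : DCase.{u} := by
  intro G _ _ _ B m χ φ ctx hodd h9 hff
  rcases Nat.lt_or_ge (2 * Fintype.card G) (3 * B.card) with h3 | h3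
  · exact Pool.Agent.D1X.above_two_thirds ctx hodd h3
  obtain ⟨hF, hfg⟩ := hff h3
  obtain ⟨e, he0, hG, ψ, hψ⟩ := Pool.Agent.D1X.exists_exp (G := G)
  have : NeZero e := ⟨he0.ne'⟩
  have hn := card_ker_mul ψ hψ
  have hlo : Nat.card ψ.ker % 2 = 1 ∧ e % 2 = 1 := by
    rw [← Nat.odd_iff, ← Nat.odd_iff]
    rw [hn] at hodd
    exact ⟨(Nat.odd_mul.mp hodd).2, (Nat.odd_mul.mp hodd).1⟩
  obtain ⟨hlo, heo⟩ := hlo
  by_cases hl1 : Nat.card ψ.ker = 1
  · exact cyc_false ctx hodd h3 hF ψ hψ hl1
  have hl3 : 3 ≤ Nat.card ψ.ker := by omega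
  have hme : m ∣ e := Pool.Agent.D1X.dvd_of_surj hG φ ctx.surj
  have hm4 := ctx.hm
  have : NeZero m := ⟨by omega⟩
  have hmn := card_ker_mul φ ctx.surj
  have hmo : m % 2 = 1 := by
    rw [← Nat.odd_iff]
    rw [hmn] at hodd
    exact (Nat.odd_mul.mp hodd).1
  have hmle := Nat.le_of_dvd he0 hme
  -- `m = e`: the kernel is not trivial
  have hmel : ∀ h : m = e, 3 ≤ Nat.card φ.ker := by
    intro h
    have h1 : e * Nat.card ψ.ker = e * Nat.card φ.ker := by
      rw [← hn, hmn]
      exact congrArg (fun t => t * Nat.card φ.ker) h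
    have h2 := Nat.eq_of_mul_eq_mul_left he0 h1
    omega
  -- prime exponent
  by_cases hp : e.Prime
  · have hmeq : m = e := by
      rcases (Nat.dvd_prime hp).mp hme with h | h
      · omega
      · exact h
    have hlm := hmel hmeq
    subst hmeq
    -- the order is a power of `m`, hence at least `m ^ 2`
    have hn2 : m * m ≤ Fintype.card G := by
      rw [hmn]
      apply Nat.mul_le_mul_left
      have : Fact m.Prime := ⟨hp⟩
      have hcard : ∃ r, Nat.card φ.ker = m ^ r := by
        have hpg : IsPGroup m (Multiplicative φ.ker) := by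
          intro g
          refine ⟨1, ?_⟩
          rw [pow_one]
          apply Multiplicative.toAdd.injective
          rw [toAdd_pow, toAdd_one]
          apply Subtype.ext
          rw [AddSubgroup.coe_nsmul]
          exact hG _
        obtain ⟨r, hr⟩ := (IsPGroup.iff_card).mp hpg
        exact ⟨r, hr⟩
      obtain ⟨r, hr⟩ := hcard
      rw [hr]
      have hr0 : r ≠ 0 := by rintro rfl; rw [hr] at hlm; norm_num at hlm
      exact Nat.le_self_pow hr0 m
    refine prime_false ctx hp hG ?_
    rcases Nat.lt_or_ge m 11 with h11 | h11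
    · have h57 : m = 5 ∨ m = 7 := by
        interval_cases m <;> first | omega | (exfalso; revert hp; norm_num)
      rcases h57 with rfl | rfl
      · exact Pool.Agent.D1X.d1_five ctx hG (by omega)
      · rcases Nat.lt_or_ge (4 * Fintype.card G) (7 * B.card) with h | h
        · exact Pool.Agent.D1X.d1_seven ctx hG h
        · exact fun x hx => T4.ker_7 ctx hodd h9 h (by omega) x hx
    · rcases Nat.lt_or_ge (14 * Fintype.card G) (25 * B.card) with h | h
      · exact (hP G B m χ φ ctx hodd hp hG h11 h h3 hfg).elim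
      · refine fun x hx => T4.ker_prime ctx hodd h9 h h11 ?_ (by nlinarith) x hx
        intro h30
        have : 3 ∣ m := Nat.dvd_of_mod_eq_zero h30
        have := (Nat.prime_dvd_prime_iff_eq Nat.prime_three hp).mp this
        omega
  -- composite exponent
  rcases Nat.lt_or_ge (14 * Fintype.card G) (25 * B.card) with hb | hb
  · by_cases h5 : 5 ∣ e
    · exact five_dvd ctx hb hfg ψ hψ h5
    · rcases Nat.lt_or_ge e 21 with h21 | h21
      · have : e = 9 := by
          interval_cases e <;> first | omega | (exfalso; revert hp; norm_num; done)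
        subst this
        have hm9 : m = 9 := by
          interval_cases m <;> first | rfl | (exfalso; revert hme; decide)
        subst hm9
        exact nine_false ctx hodd h9 h3 hfg hG (by have := hmel rfl; omega)
      · exact hR G B m χ φ e ψ ctx hodd hb h3 hF hfg hψ hG (by omega) h21 h5 hp
  · rcases Nat.lt_or_ge e 21 with h21 | h21
    · have : e = 9 ∨ e = 15 := by
        interval_cases e <;> first | omega | (exfalso; revert hp; norm_num; done)
      rcases this with rfl | rfl
      · have hm9 : m = 9 := by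
          interval_cases m <;> first | rfl | (exfalso; revert hme; decide)
        subst hm9
        exact nine_false ctx hodd h9 h3 hfg hG (by have := hmel rfl; omega)
      · have hm15 : m = 5 ∨ m = 15 := by
          interval_cases m <;> first | omega | (exfalso; revert hme; decide)
        exact hole_six ctx hodd h9 (T4.hole_15 ctx hodd h9 hb ψ hψ hm15 (by omega))
    · exact hole_six ctx hodd h9 (T4.hole_low ctx hodd h9 hb ψ hψ h21 (by rw [hn]; nlinarith))

end Pool.Agent.SCH
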