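import Mathlib
import Pool.Agent.Lib_helper26.SCH.RSI
import Pool.Agent.Lib_helper26.SCH.Fin
import Pool.Agent.Lib_helper22.SCHD.T3

/-!
# The explicit form of the values in terms of `|G|` and the exponent of `G`
-/

set_option autoImplicit false
set_option linter.unusedSectionVars false

namespace Pool.Agent.SCH

open Finset Pool.Agent.GL Pool.Agent.Lib_helper42.RS

universe u

/-- explicit list of values -/
def Cand (n e b : ℕ) (v : ℤ) : Prop :=
  (∃ k d : ℕ, k ∣ n ∧ d ∣ k ∧ d ∣ e ∧ b ≤ k ∧ k ≤ b + (k / d) * ((d + 1) / 3) ∧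
    v = (3 * (b : ℤ) - 2 * k) ^ 2) ∨
  (∃ h j s : ℕ, h ∣ n ∧ s ≤ h ∧ b + s = (2 * j + 1) * h ∧ 3 * j + 1 ≤ Nat.gcd e (n / h) ∧
    v = ((h : ℤ) - s) * (h - 5 * s)) ∨
  (∃ h j s : ℕ, h ∣ n ∧ s ≤ h ∧ b = (2 * j + 1) * h + s ∧ 3 * j + 2 ≤ Nat.gcd e (n / h) ∧
    v = ((h : ℤ) - s) * (h - 5 * s))

section
variable {G : Type u} [AddCommGroup G] [Fintype G] [DecidableEq G]

/-- an element of every order dividing the exponent -/
lemma exists_order_of_dvd {d : ℕ} (hd : d ∣ AddMonoid.exponent G) : ∃ x : G, addOrderOf x = d := by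
  have hE : AddMonoid.ExponentExists G := AddMonoid.ExponentExists.of_finite
  obtain ⟨g, hg⟩ := AddMonoid.exists_addOrderOf_eq_exponent hE
  obtain ⟨c, hc⟩ := hd
  have he0 : AddMonoid.exponent G ≠ 0 := AddMonoid.exponent_ne_zero_of_finite
  have hc0 : c ≠ 0 := by rintro rfl; rw [mul_zero] at hc; exact he0 hc
  refine ⟨c • g, ?_⟩
  rw [addOrderOf_nsmul_of_dvd hc0 ⟨d, by rw [hg, hc]; ring⟩, hg, hc]
  exact Nat.mul_div_cancel _ (Nat.pos_of_ne_zero hc0)

/-- subgroup of order `k` containing a given subgroup -/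
lemma exists_over (X : AddSubgroup G) {k : ℕ} (h1 : Nat.card X ∣ k) (h2 : k ∣ Fintype.card G) :
    ∃ K : AddSubgroup G, X ≤ K ∧ Nat.card K = k := by
  classical
  obtain ⟨c, hc⟩ := h1
  have hX0 : 0 < Nat.card X := Nat.card_pos
  let _ : Fintype (G ⧸ X) := Fintype.ofFinite _
  set φ : G →+ G ⧸ X := QuotientAddGroup.mk' X with hφ
  have hker : φ.ker = X := QuotientAddGroup.ker_mk' X
  have hsurj : Function.Surjective φ := QuotientAddGroup.mk'_surjective X
  have hG := card_G φ hsurj
  rw [hker] at hG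
  have hGN : Fintype.card G = Nat.card X * Fintype.card (G ⧸ X) := by exact_mod_cast hG
  have hcd : c ∣ Fintype.card (G ⧸ X) := by
    rw [hGN, hc] at h2
    exact Nat.dvd_of_mul_dvd_mul_left hX0 h2
  obtain ⟨L, hL⟩ := exists_subgroup _ (G ⧸ X) rfl c hcd
  refine ⟨L.comap φ, ?_, ?_⟩
  · intro x hx
    rw [AddSubgroup.mem_comap]
    have : φ x = 0 := by
      rw [← AddMonoidHom.mem_ker, hker]; exact hx
    rw [this]; exact L.zero_mem
  · rw [card_comap' φ hsurj L, hL, hker, hc, mul_comm]

/-- subgroup of order `h` contained in a given subgroup -/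
lemma exists_under (N : AddSubgroup G) {h : ℕ} (h1 : h ∣ Nat.card N) :
    ∃ H : AddSubgroup G, H ≤ N ∧ Nat.card H = h := by
  classical
  let _ : Fintype N := Fintype.ofFinite _
  obtain ⟨L, hL⟩ := exists_subgroup _ N rfl h (by rw [← Nat.card_eq_fintype_card]; exact h1)
  refine ⟨L.map N.subtype, ?_, ?_⟩
  · rintro x ⟨y, _, rfl⟩
    exact y.2
  · rw [← hL]
    exact Nat.card_congr (L.equivMapOfInjective N.subtype N.subtype_injective).toEquiv.symm

/-- `Alive` and the exponent, upper bound -/
lemma alive_le {H : AddSubgroup G} {t : ℕ} (h : Alive H t) :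
    t ≤ Nat.gcd (AddMonoid.exponent G) (Fintype.card G / Nat.card H) := by
  obtain ⟨g, hg⟩ := h
  set r := addOrderOf (g : G ⧸ H) with hr
  have hr0 : 0 < r := addOrderOf_pos _
  have h1 : t ≤ r := by
    by_contra hc
    push Not at hc
    refine hg r hr0 hc ?_
    rw [← QuotientAddGroup.eq_zero_iff, QuotientAddGroup.mk_nsmul]
    exact addOrderOf_nsmul_eq_zero _
  have h2 : r ∣ AddMonoid.exponent G := by
    rw [hr, addOrderOf_dvd_iff_nsmul_eq_zero, ← QuotientAddGroup.mk_nsmul,
      AddMonoid.exponent_nsmul_eq_zero]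
    rfl
  have h3 : r ∣ H.index := addOrderOf_dvd_natCard _
  have h4 : Fintype.card G / Nat.card H = H.index := by
    have := AddSubgroup.card_mul_index H
    rw [Nat.card_eq_fintype_card (α := G)] at this
    rw [← this, Nat.mul_div_cancel_left _ Nat.card_pos]
  rw [h4]
  have h5 : 0 < Nat.gcd (AddMonoid.exponent G) H.index :=
    Nat.gcd_pos_of_pos_left _ (Nat.pos_of_ne_zero AddMonoid.exponent_ne_zero_of_finite)
  exact h1.trans (Nat.le_of_dvd h5 (Nat.dvd_gcd h2 h3))

/-- a subgroup of order `h` with the largest possible exponent of the quotient -/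
lemma exists_alive {h : ℕ} (hh : h ∣ Fintype.card G) :
    ∃ H : AddSubgroup G, Nat.card H = h ∧
      Alive H (Nat.gcd (AddMonoid.exponent G) (Fintype.card G / h)) := by
  set d := Nat.gcd (AddMonoid.exponent G) (Fintype.card G / h) with hd
  have hn0 : 0 < Fintype.card G := Fintype.card_pos
  obtain ⟨c, hc⟩ := hh
  have hh0 : 0 < h := Nat.pos_of_ne_zero (by rintro rfl; omega)
  have hnh : Fintype.card G / h = c := by rw [hc, Nat.mul_div_cancel_left _ hh0]
  obtain ⟨x, hx⟩ := exists_order_of_dvd (G := G) (Nat.gcd_dvd_left _ _ : d ∣ _)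
  obtain ⟨ψ, hψ⟩ := exists_surj_of_order x
  have hdc : d ∣ c := by rw [← hnh]; exact Nat.gcd_dvd_right _ _
  have hd0 : 0 < d := by
    have := addOrderOf_pos x
    rw [hx] at this; exact this
  have hne : NeZero (addOrderOf x) := ⟨(addOrderOf_pos x).ne'⟩
  have hker : Fintype.card G = d * Nat.card ψ.ker :=
    (card_ker_mul ψ hψ).trans (congrArg (fun t => t * Nat.card ψ.ker) hx)
  have hdiv : h ∣ Nat.card ψ.ker := by
    obtain ⟨a, ha⟩ := hdc
    refine ⟨a, ?_⟩
    have : d * Nat.card ψ.ker = d * (h * a) := by rw [← hker, hc, ha]; ring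
    exact Nat.eq_of_mul_eq_mul_left hd0 this
  obtain ⟨H, hH1, hH2⟩ := exists_under ψ.ker hdiv
  refine ⟨H, hH2, Alive.le ?_ hH1⟩
  exact (ker_alive ψ hψ).mono (le_of_eq hx.symm)

/-- sum free sets in a subgroup of order `k` -/
lemma exists_sf {k d : ℕ} (hk : k ∣ Fintype.card G) (hdk : d ∣ k)
    (hde : d ∣ AddMonoid.exponent G) :
    ∃ (K : AddSubgroup G) (S : Finset G), Nat.card K = k ∧ (∀ x ∈ S, x ∈ K) ∧ SF S ∧
      S.card = (k / d) * ((d + 1) / 3) := by
  classical
  obtain ⟨x, hx⟩ := exists_order_of_dvd (G := G) hde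
  obtain ⟨K, hK1, hK2⟩ := exists_over (AddSubgroup.zmultiples x) (k := k)
    (by rw [Nat.card_zmultiples, hx]; exact hdk) hk
  have hxK : x ∈ K := hK1 (AddSubgroup.mem_zmultiples x)
  let _ : Fintype K := Fintype.ofFinite _
  obtain ⟨ψ, hψ⟩ := exists_surj_of_order (⟨x, hxK⟩ : K)
  have hord : addOrderOf (⟨x, hxK⟩ : K) = d := by
    rw [← hx]; exact AddSubgroup.addOrderOf_mk x hxK
  have hne : NeZero (addOrderOf (⟨x, hxK⟩ : K)) := ⟨(addOrderOf_pos _).ne'⟩
  have h1 := midS_card ψ hψ
  have h2 := card_ker_mul ψ hψ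
  rw [← Nat.card_eq_fintype_card, hK2] at h2
  have hd0 : 0 < d := by rw [← hord]; exact addOrderOf_pos _
  have h3 : Nat.card ψ.ker = k / d := by
    have : k = d * Nat.card ψ.ker :=
      h2.trans (congrArg (fun t => t * Nat.card ψ.ker) hord)
    rw [this, Nat.mul_div_cancel_left _ hd0]
  refine ⟨K, (midS ψ).map ⟨Subtype.val, Subtype.val_injective⟩, hK2, ?_, ?_, ?_⟩
  · intro y hy
    rw [Finset.mem_map] at hy
    obtain ⟨z, _, rfl⟩ := hy
    exact z.2
  · intro y hy z hz hyz
    rw [Finset.mem_map] at hy hz hyz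
    obtain ⟨y', hy', rfl⟩ := hy
    obtain ⟨z', hz', rfl⟩ := hz
    obtain ⟨w', hw', hw⟩ := hyz
    have : w' = y' + z' := by
      apply Subtype.ext
      simpa using hw
    rw [this] at hw'
    exact midS_SF ψ y' hy' z' hz' hw'
  · rw [Finset.card_map, h1, h3, mul_comm]
    exact congrArg (fun t => k / d * ((t + 1) / 3)) hord

/-- numbers without prime factor `0, 2` modulo `3` -/
lemma mod_three_one : ∀ q : ℕ, 0 < q → (∀ p, p.Prime → p ∣ q → p % 3 = 1) → q % 3 = 1 := by
  intro q
  induction q using Nat.strong_induction_on with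
  | _ q ih =>
    intro h0 hp
    rcases Nat.lt_or_ge 1 q with h1 | h1
    · have hpr := Nat.minFac_prime (show q ≠ 1 by omega)
      have hd := Nat.minFac_dvd q
      have h2 := hp _ hpr hd
      obtain ⟨r, hr⟩ := hd
      set p := q.minFac
      have hr0 : 0 < r := Nat.pos_of_ne_zero (by rintro rfl; omega)
      have hrq : r < q := by
        rw [hr]
        have := hpr.two_le
        nlinarith
      have h3 := ih r hrq hr0 (fun p' hp' hd' => hp p' hp' (hd'.trans ⟨p, by rw [hr]; ring⟩))
      rw [hr, Nat.mul_mod, h2, h3]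
    · obtain rfl : q = 1 := by omega
      rfl

/-- **the largest sum free sets** (Diananda, Yap, Green, Ruzsa): upper bound -/
theorem sf_le (S : Finset G) (hS : SF S) :
    ∃ d : ℕ, d ∣ Fintype.card G ∧ d ∣ AddMonoid.exponent G ∧
      S.card ≤ (Fintype.card G / d) * ((d + 1) / 3) := by
  classical
  set n := Fintype.card G with hn
  have hn0 : 0 < n := Fintype.card_pos
  have hSn : S.card ≤ n := Finset.card_le_univ S
  have hprime_exp : ∀ p, p.Prime → p ∣ n → p ∣ AddMonoid.exponent G := by
    intro p hp hd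
    have : Fact p.Prime := ⟨hp⟩
    obtain ⟨w, hw⟩ := exists_prime_addOrderOf_dvd_card p (G := G) hd
    rw [← hw]; exact AddMonoid.addOrder_dvd_exponent w
  by_cases h2 : ∃ p, p.Prime ∧ p ∣ n ∧ p % 3 = 2
  · -- type I
    rcases Nat.lt_or_ge n (3 * S.card) with h3 | h3
    · have hn2 : 2 ≤ n := by
        obtain ⟨p, hp, hd, _⟩ := h2
        exact hp.two_le.trans (Nat.le_of_dvd hn0 hd)
      obtain ⟨q', h', d, a1, a2, a3, a4⟩ := sf_struct S hS (c := n - S.card)
        (by omega) (by omega) hn2
      obtain ⟨p, hp, hpd, hp2⟩ := exists_prime_two_mod_three q' a1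
      have hpn : p ∣ n := hpd.trans ⟨h', a2.symm⟩
      refine ⟨p, hpn, hprime_exp p hp hpn, ?_⟩
      obtain ⟨t, ht⟩ := hpd
      have hp0 : 0 < p := hp.pos
      have h5 : n / p = t * h' := by
        rw [hn, ← a2, ht, mul_assoc, Nat.mul_div_cancel_left _ hp0]
      have h6 : p + 1 = 3 * ((p + 1) / 3) := by omega
      rw [h5]
      have h7 : 3 * S.card ≤ 3 * (t * h' * ((p + 1) / 3)) := by
        have e1 : 3 * (t * h' * ((p + 1) / 3)) = t * h' * (3 * ((p + 1) / 3)) := by ring
        rw [e1, ← h6]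
        have e2 : t * h' * (p + 1) = n + t * h' := by
          rw [hn, ← a2, ht]; ring
        rw [e2]
        have ht0 : 0 < t := Nat.pos_of_ne_zero (by rintro rfl; omega)
        have e3 : h' ≤ t * h' := Nat.le_mul_of_pos_left _ ht0
        have e4 : 2 * q' * h' = 2 * n := by rw [hn, ← a2]; ring
        rw [e4] at a4
        omega
      omega
    · obtain ⟨p, hp, hd, hp2⟩ := h2
      refine ⟨p, hd, hprime_exp p hp hd, ?_⟩
      obtain ⟨t, ht⟩ := hd
      rw [ht, Nat.mul_div_cancel_left _ hp.pos]
      have h6 : p + 1 = 3 * ((p + 1) / 3) := by omega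
      have h7 : 3 * S.card ≤ 3 * (t * ((p + 1) / 3)) := by
        have e1 : 3 * (t * ((p + 1) / 3)) = t * (3 * ((p + 1) / 3)) := by ring
        rw [e1, ← h6]
        have e2 : t * (p + 1) = p * t + t := by ring
        rw [e2, ← ht]; omega
      omega
  · -- at most one third
    have h3 : 3 * S.card ≤ n := by
      by_contra hc
      push Not at hc
      have hn2 : 2 ≤ n := by
        by_contra hlt
        have h1 : n = 1 := by omega
        have hS1 : S.card = 1 := by omega
        obtain ⟨x, hx⟩ := Finset.card_eq_one.mp hS1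
        have hsub : Subsingleton G := by
          rw [← Fintype.card_le_one_iff_subsingleton]; omega
        exact hS x (by rw [hx]; simp) x (by rw [hx]; simp)
          (by rw [hx, Subsingleton.elim (x + x) x]; simp)
      obtain ⟨q', h', d, a1, a2, a3, a4⟩ := sf_struct S hS (c := n - S.card)
        (by omega) (by omega) hn2
      obtain ⟨p, hp, hpd, hp2⟩ := exists_prime_two_mod_three q' a1
      exact h2 ⟨p, hp, hpd.trans ⟨h', a2.symm⟩, hp2⟩
    by_cases h33 : 3 ∣ n
    · refine ⟨3, h33, hprime_exp 3 Nat.prime_three h33, ?_⟩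
      norm_num
      omega
    · -- type III
      set e := AddMonoid.exponent G with he
      have he0 : 0 < e := Nat.pos_of_ne_zero AddMonoid.exponent_ne_zero_of_finite
      have hall : ∀ q, q ∣ n → q % 3 = 1 := by
        intro q hq
        refine mod_three_one q (Nat.pos_of_dvd_of_pos hq hn0) ?_
        intro p hp hd
        by_contra hc
        have h02 : p % 3 = 0 ∨ p % 3 = 2 := by omega
        rcases h02 with h | h
        · have : p = 3 := by
            have h3p : 3 ∣ p := Nat.dvd_of_mod_eq_zero h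
            exact ((Nat.prime_dvd_prime_iff_eq Nat.prime_three hp).mp h3p).symm
          subst this
          exact h33 (hd.trans hq)
        · exact h2 ⟨p, hp, hd.trans hq, h⟩
      obtain ⟨x, hx⟩ := exists_order_of_dvd (G := G) (dvd_refl e)
      have hen : e ∣ n := by
        rw [← hx, hn, ← Nat.card_eq_fintype_card]; exact addOrderOf_dvd_natCard x
      refine ⟨e, hen, dvd_rfl, ?_⟩
      obtain ⟨ψ, hψ⟩ : ∃ ψ : G →+ ZMod e, Function.Surjective ψ := by
        have := exists_surj_of_order x
        rw [hx] at this; exact this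
      have hne : NeZero e := ⟨he0.ne'⟩
      have hker := card_ker_mul ψ hψ
      have hdiv : n / e = Nat.card ψ.ker := by
        rw [hn, hker, Nat.mul_div_cancel_left _ he0]
      rw [hdiv]
      have he1 := hall e hen
      have hK : (e + 1) / 3 = e / 3 := by omega
      rw [hK]
      have hkerdvd : Nat.card ψ.ker ∣ n := ⟨e, by rw [hn, hker]; ring⟩
      have hk1 := hall _ hkerdvd
      have hodd : Odd n := by
        rw [← Nat.not_even_iff_odd, even_iff_two_dvd]
        intro h; exact h2 ⟨2, Nat.prime_two, h, rfl⟩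
      rcases Nat.lt_or_ge (Nat.card ψ.ker) 4 with h4 | h4
      · have h5 : Nat.card ψ.ker = 1 := by omega
        rw [h5]
        rw [h5, mul_one] at hker
        have : n = e := hker
        omega
      · have he2 : 1 < e := by
          by_contra hlt
          have h1 : e = 1 := by omega
          have hle := Nat.le_of_dvd hn0 hkerdvd
          have hs : ∀ g : G, g = 0 := by
            intro g
            have := AddMonoid.exponent_nsmul_eq_zero (G := G) g
            rw [← he, h1, one_nsmul] at this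
            exact this
          have : n = 1 := by
            rw [hn, Fintype.card_eq_one_iff]
            exact ⟨0, hs⟩
          omega
        have := Pool.Agent.D1X.sfmax (G := G) (e := e) (K := e / 3)
          (fun g => hall _ (by rw [hn, ← Nat.card_eq_fintype_card]; exact addOrderOf_dvd_natCard g))
          hodd (by omega) he2
          (fun g => by rw [he]; exact AddMonoid.exponent_nsmul_eq_zero g) ψ hψ h4 S hS
        rw [mul_comm]; exact this

/-- the values in explicit form -/
theorem W_iff_cand {b : ℕ} {v : ℤ} :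
    W G b v ↔ Cand (Fintype.card G) (AddMonoid.exponent G) b v := by
  classical
  constructor
  · rintro (⟨K, S, hSK, hS, hc, hv⟩ | ⟨H, j, s, hs, hv, hc⟩)
    · left
      let _ : Fintype K := Fintype.ofFinite _
      -- transfer `S` to `K`
      set S' : Finset K := univ.filter (fun x => (x : G) ∈ S) with hS'
      have hcard : S'.card = S.card := by
        rw [← Finset.card_map ⟨Subtype.val, Subtype.val_injective⟩]
        congr 1
        ext x
        simp only [hS', Finset.mem_map, Finset.mem_filter, Finset.mem_univ, true_and,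
          Function.Embedding.coeFn_mk]
        constructor
        · rintro ⟨y, hy, rfl⟩; exact hy
        · intro hx; exact ⟨⟨x, hSK x hx⟩, hx, rfl⟩
      have hSF : SF S' := by
        intro x hx y hy hxy
        simp only [hS', Finset.mem_filter, Finset.mem_univ, true_and] at hx hy hxy
        exact hS _ hx _ hy (by simpa using hxy)
      obtain ⟨d, hd1, hd2, hd3⟩ := sf_le S' hSF
      rw [← Nat.card_eq_fintype_card] at hd1 hd3
      refine ⟨Nat.card K, d, ?_, hd1, ?_, by omega, by omega, hv⟩
      · rw [← Nat.card_eq_fintype_card]; exact AddSubgroup.card_addSubgroup_dvd_card K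
      · refine hd2.trans ?_
        exact AddMonoid.exponent_dvd_of_addMonoidHom K.subtype K.subtype_injective
    · right
      have hHn : Nat.card H ∣ Fintype.card G := by
        rw [← Nat.card_eq_fintype_card]; exact AddSubgroup.card_addSubgroup_dvd_card H
      rcases hc with ⟨h1, h2⟩ | ⟨h1, h2⟩
      · exact Or.inl ⟨Nat.card H, j, s, hHn, hs, h1, alive_le h2, hv⟩
      · exact Or.inr ⟨Nat.card H, j, s, hHn, hs, h1, alive_le h2, hv⟩
  · rintro (⟨k, d, hk, hdk, hde, h1, h2, hv⟩ | ⟨h, j, s, hh, hs, h1, h2, hv⟩ |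
      ⟨h, j, s, hh, hs, h1, h2, hv⟩)
    · left
      obtain ⟨K, S, hK, hSK, hS, hSc⟩ := exists_sf hk hdk hde
      obtain ⟨S', hS'1, hS'2⟩ := Finset.exists_subset_card_eq (s := S) (n := k - b) (by omega)
      refine ⟨K, S', fun x hx => hSK x (hS'1 hx),
        fun x hx y hy hxy => hS x (hS'1 hx) y (hS'1 hy) (hS'1 hxy), by omega, by rw [hK]; exact hv⟩
    · right
      obtain ⟨H, hH, ha⟩ := exists_alive hh
      refine ⟨H, j, s, by omega, by rw [hH]; exact hv, Or.inl ⟨by rw [hH]; exact h1, ha.mono h2⟩⟩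
    · right
      obtain ⟨H, hH, ha⟩ := exists_alive hh
      refine ⟨H, j, s, by omega, by rw [hH]; exact hv, Or.inr ⟨by rw [hH]; exact h1, ha.mono h2⟩⟩

/-- explicit form of the final theorem -/
theorem final_cand (hmain : Main G) {m : ℕ} (hm : m ≤ Fintype.card G) :
    IsGreatest {v : ℤ | Cand (Fintype.card G) (AddMonoid.exponent G) (Fintype.card G - m) v}
      ((3 * (m:ℤ) - Fintype.card G)^2 - 4 * minSchur G m) := by
  have h := final hmain hm
  have e : {v : ℤ | Cand (Fintype.card G) (AddMonoid.exponent G) (Fintype.card G - m) v} =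
      {v : ℤ | W G (Fintype.card G - m) v} := by
    ext v
    exact (W_iff_cand (G := G)).symm
  rw [e]; exact h

end

end Pool.Agent.SCH
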