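import Mathlib
import Pool.Agent.Lib_helper26.SCH.DC
import Pool.Agent.Lib_helper26.SCH.Expl
import Pool.Agent.Lib_helper28.NC.All
import Pool.Agent.Lib_helper22.SCHD.PE56
import Pool.Agent.Lib_helper60.SCH.SKR
import Pool.Agent.Lib_helper59.SCH.O3S
import Pool.Agent.Lib_helper25.LB.RB
import Pool.Agent.Lib_helper13.SDC.Range3
import Pool.Agent.Lib_helper93.T4.RAreal

/-!
# The main theorem
-/

set_option autoImplicit false

namespace Pool.Agent.SCH

universe u

/-- range `14/25 < β ≤ 2/3`, composite exponent at least `21` prime to `5` -/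
theorem rangeB_all : RangeB.{u} := by
  intro G _ _ _ B m χ φ e _ ψ ctx hodd h14 h3 _ hfg hψ he hl h21 h5 hp
  rcases Nat.lt_or_ge (34 * Fintype.card G) (55 * B.card) with h | h
  · exact sk_range rb_real v27Stmt o3Stmt ctx hodd h h3 hfg ψ hψ he hl h21 h5 hp
  · refine e3_range ?_ ctx hodd h14 h hfg ψ hψ he hl h21 h5 hp
    intro b F N1 N2 rho R1 R2 r s h h12 h2r hr0 hR1 hR2 hN hR hP hr1 hr2 hr hN1 hE
    exact T4.RA_real b F N1 N2 rho R1 R2 r s h h12 h2r hr0 hR1 hR2 hN hR hP hr1 hr2 hr hN1 hE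

/-- the dense case -/
theorem dCase : DCase.{u} := dcase_of Pool.Agent.D1X.prime56 rangeB_all

/-- **the main upper bound for all finite abelian groups** -/
theorem main_theorem (G : Type u) [AddCommGroup G] [Fintype G] [DecidableEq G] : Main G :=
  main_of_cases Pool.Agent.NCA.s4Case Pool.Agent.NCA.nCase dCase G

end Pool.Agent.SCH
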